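import Mathlib

set_option autoImplicit false
open scoped BigOperators Topology
open Filter

namespace Pool.Agent.Helper976.Fac

/-- transform of an absolutely summable function on a group along a real homomorphism -/
noncomputable def hat {V : Type*} [AddCommGroup V] (k : V → ℂ) (φ : V →+ ℝ) : ℂ :=
  ∑' v, k v * Complex.exp (Complex.I * (φ v : ℂ))

/-- `v` is infinitely small compared with `τ` -/
def Small {V : Type*} [AddCommGroup V] [LinearOrder V] (τ v : V) : Prop :=
  ∀ N : ℕ, N • |v| < τ

open Classical in
/-- restriction of `k` to the elements infinitely small compared with `τ` -/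
noncomputable def restr {V : Type*} [AddCommGroup V] [LinearOrder V] (τ : V) (k : V → ℂ) :
    V → ℂ := fun v => if Small τ v then k v else 0

abbrev GV := (hyperfilter ℕ : Filter ℕ).Germ ℚ

/-- limit of a bounded family of functions on `ℚ` as a function on the ultrapower -/
noncomputable def star (h : ℕ → ℚ → ℂ) (v : GV) : ℂ :=
  limUnder (hyperfilter ℕ : Filter ℕ) (fun n => h n ((Quotient.out v : ℕ → ℚ) n))

end Pool.Agent.Helper976.Fac
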