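import Pool.Agent.Helper976.Fac.Defs

set_option autoImplicit false
open scoped BigOperators Topology
open Filter

namespace Pool.Agent.Helper976.Fac

/-- cut parameter between the scales `t (a-1)` and `t a` -/
noncomputable def cut (t : ℕ → ℚ) (a : ℕ) : ℝ := 1 / Real.sqrt ((t (a - 1) : ℝ) * (t a : ℝ))

/-- `g * h = ∑ c_j δ_{t_j}` on `(-∞, 1]`, with norms at most `B` and ratios at least `R` from
index `a0 - 1` on -/
structure FData (c : ℕ → ℝ) (a0 : ℕ) (R B : ℝ) (t : ℕ → ℚ) (g h : ℚ → ℂ) : Prop where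
  tpos : ∀ j, 0 < t j
  tanti : Antitone t
  tone : ∀ j, t j ≤ 1
  ratio : ∀ j, a0 ≤ j + 1 → R * (t (j + 1) : ℝ) ≤ (t j : ℝ)
  gpos : ∀ q, q ≤ 0 → g q = 0
  hpos : ∀ q, q ≤ 0 → h q = 0
  gsum : Summable fun q => ‖g q‖
  hsum : Summable fun q => ‖h q‖
  gB : ∑' q, ‖g q‖ ≤ B
  hB : ∑' q, ‖h q‖ ≤ B
  conv : ∀ q, q ≤ 1 → ∑' r, g r * h (q - r) = ∑' j, if q = t j then (c j : ℂ) else 0

/-- the semicharacter of the ultrapower attached to the cut `a` -/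
noncomputable def om (t : ℕ → ℕ → ℚ) (a : ℕ) (v : GV) : ℝ :=
  (star (fun n q => if 0 < q then ((Real.exp (-(cut (t n) a * (q : ℝ))) : ℝ) : ℂ) else 0) v).re

/-- the scales in the ultrapower -/
noncomputable def tauV (t : ℕ → ℕ → ℚ) (j : ℕ) : GV := ((fun n => t n j : ℕ → ℚ) : GV)

/-- approximate `ℓ²` invertibility of the damped function `h(r) exp(-s r)` -/
def Fine (s ε W : ℝ) (h : ℚ → ℂ) : Prop :=
  ∃ u : ℚ → ℂ, (Function.support u).Finite ∧ ∑' q, ‖u q‖ ^ 2 ≤ W ^ 2 ∧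
    ∑' q, ‖(if q = 0 then (1 : ℂ) else 0) -
      ∑' r, (h r * ((Real.exp (-(s * (r : ℝ))) : ℝ) : ℂ)) * u (q - r)‖ ^ 2 ≤ ε ^ 2

end Pool.Agent.Helper976.Fac
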