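import Pool.Agent.Helper976.Fac.Defs2

set_option autoImplicit false
open scoped BigOperators Topology
open Filter

namespace Pool.Agent.Helper976.Fac

/-- the coefficients: `(15/32)^k` for the `2^k` indices `j` with `2^k ≤ j + 1 < 2^(k+1)` -/
noncomputable def cc (j : ℕ) : ℝ := (15 / 32 : ℝ) ^ (Nat.log 2 (j + 1))

/-- lower bound at stage `m` -/
noncomputable def dd (m : ℕ) : ℝ :=
  ((15 / 16 : ℝ) ^ (m - 1) / (4 * (m : ℝ))) ^ 2 / (2 * (m : ℝ))

/-- tolerance at stage `m` -/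
noncomputable def ee (m : ℕ) : ℝ := dd m / 2 ^ (m + 2)

/-- norm bound at stage `m` started at stage `m0` -/
noncomputable def ww (m0 m : ℕ) : ℝ := 1 / dd m0 + 3 - 1 / 2 ^ m

end Pool.Agent.Helper976.Fac
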