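import Pool.Agent.Helper976.Fac.Defs

set_option autoImplicit false
open scoped BigOperators Topology
open Complex

namespace Pool.Agent.Helper976.Fac
namespace J547

/-- one Phragmen-Lindelof step -/
theorem pl_step {V : Type*} [AddCommGroup V] (F : Finset V) (h : V → ℂ) (L : V →+ ℝ)
    (d : ℝ) (hd : 0 < d)
    (hlow : ∀ φ : V →+ ℝ, d ≤ ‖∑ v ∈ F, h v * exp (I * (φ v : ℂ))‖)
    (φ : V →+ ℝ) (κ : ℝ) (hκ : 0 < κ)
    (h0 : ∀ z : ℂ, 0 ≤ z.re → κ ≤ ‖∑ v ∈ F, h v * exp (I * (φ v : ℂ) - z * (L v : ℂ))‖) :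
    ∀ z : ℂ, 0 ≤ z.re → d ≤ ‖∑ v ∈ F, h v * exp (I * (φ v : ℂ) - z * (L v : ℂ))‖ := by
  intro z hz
  set H : ℂ → ℂ := fun z => ∑ v ∈ F, h v * exp (I * (φ v : ℂ) - z * (L v : ℂ)) with hH
  have hdiff : Differentiable ℂ H := by
    rw [hH]
    fun_prop
  have hinv : ∀ z : ℂ, 0 ≤ z.re → ‖(H z)⁻¹‖ ≤ κ⁻¹ := by
    intro z hz
    rw [norm_inv]
    exact inv_anti₀ hκ (h0 z hz)
  have key : ‖(H z)⁻¹‖ ≤ d⁻¹ := by
    refine PhragmenLindelof.right_half_plane_of_bounded_on_real (f := fun z => (H z)⁻¹) ?_ ?_ ?_ ?_ hz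
    · refine DiffContOnCl.inv hdiff.diffContOnCl ?_
      intro w hw
      rw [Complex.closure_setOfPred_lt_re] at hw
      intro h1
      have := h0 w hw
      change κ ≤ ‖H w‖ at this
      rw [h1, norm_zero] at this
      linarith
    · refine ⟨1, by norm_num, 0, Asymptotics.IsBigO.of_bound κ⁻¹ ?_⟩
      refine Filter.eventually_inf_principal.2 (Filter.Eventually.of_forall fun w hw => ?_)
      simpa using hinv w (le_of_lt hw)
    · refine Filter.isBoundedUnder_of_eventually_le (a := κ⁻¹) ?_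
      filter_upwards [Filter.eventually_ge_atTop 0] with x hx
      exact hinv _ (by simpa using hx)
    · intro x
      have h1 : H (x * I) = ∑ v ∈ F, h v * exp (I * (((φ - (AddMonoidHom.mulLeft x).comp L) v : ℝ) : ℂ)) := by
        rw [hH]
        refine Finset.sum_congr rfl fun v _ => ?_
        congr 2
        simp only [AddMonoidHom.sub_apply, AddMonoidHom.comp_apply, AddMonoidHom.coe_mulLeft]
        push_cast
        ring
      rw [norm_inv, h1]
      exact inv_anti₀ hd (hlow _)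
  rw [norm_inv] at key
  have hpos : 0 < ‖H z‖ := lt_of_lt_of_le hκ (h0 z hz)
  exact (inv_le_inv₀ hpos hd).1 key

/-- LEMMA B. Half-plane propagation of a lower bound for a finite exponential sum. -/
theorem lemmaB {V : Type*} [AddCommGroup V] (F : Finset V) (h : V → ℂ) (L : V →+ ℝ)
    (hL : ∀ v ∈ F, 0 ≤ L v) (d : ℝ) (hd : 0 < d)
    (hlow : ∀ φ : V →+ ℝ, d ≤ ‖∑ v ∈ F, h v * exp (I * (φ v : ℂ))‖)
    (κ : ℝ) (hκ : 0 < κ)
    (h0 : ∀ z : ℂ, 0 ≤ z.re → κ ≤ ‖∑ v ∈ F, h v * exp (-(z * (L v : ℂ)))‖) :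
    ∀ (φ : V →+ ℝ) (z : ℂ), 0 ≤ z.re →
      d ≤ ‖∑ v ∈ F, h v * exp (I * (φ v : ℂ) - z * (L v : ℂ))‖ := by
  intro φ
  set K : ℝ := ∑ v ∈ F, ‖h v‖ * |φ v| with hK
  have hK0 : 0 ≤ K := Finset.sum_nonneg fun v _ => by positivity
  obtain ⟨N, hN⟩ := exists_nat_ge (K / (d / 2))
  have hN1 : K ≤ (N + 1 : ℝ) * (d / 2) := by
    rw [div_le_iff₀ (by positivity)] at hN
    nlinarith
  have hstep : ∀ (s t : ℝ) (z : ℂ), 0 ≤ z.re →
      ‖∑ v ∈ F, h v * exp (I * ((t * φ v : ℝ) : ℂ) - z * (L v : ℂ))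
        - ∑ v ∈ F, h v * exp (I * ((s * φ v : ℝ) : ℂ) - z * (L v : ℂ))‖ ≤ |t - s| * K := by
    intro s t z hz
    rw [← Finset.sum_sub_distrib, hK, Finset.mul_sum]
    refine (norm_sum_le _ _).trans (Finset.sum_le_sum fun v hv => ?_)
    have e : h v * exp (I * ((t * φ v : ℝ) : ℂ) - z * (L v : ℂ))
        - h v * exp (I * ((s * φ v : ℝ) : ℂ) - z * (L v : ℂ))
        = h v * (exp (I * ((s * φ v : ℝ) : ℂ) - z * (L v : ℂ))
          * (exp (I * (((t - s) * φ v : ℝ) : ℂ)) - 1)) := by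
      have : exp (I * ((t * φ v : ℝ) : ℂ) - z * (L v : ℂ))
          = exp (I * ((s * φ v : ℝ) : ℂ) - z * (L v : ℂ)) * exp (I * (((t - s) * φ v : ℝ) : ℂ)) := by
        rw [← Complex.exp_add]
        congr 1
        push_cast
        ring
      rw [this]; ring
    rw [e, norm_mul, norm_mul]
    have e1 : ‖exp (I * ((s * φ v : ℝ) : ℂ) - z * (L v : ℂ))‖ ≤ 1 := by
      rw [Complex.norm_exp]
      apply Real.exp_le_one_iff.2
      have : (I * ((s * φ v : ℝ) : ℂ) - z * (L v : ℂ)).re = -(z.re * L v) := by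
        simp
      rw [this]
      have := mul_nonneg hz (hL v hv)
      linarith
    have e2 : ‖exp (I * (((t - s) * φ v : ℝ) : ℂ)) - 1‖ ≤ |t - s| * |φ v| := by
      have := Real.norm_exp_I_mul_ofReal_sub_one_le (x := (t - s) * φ v)
      rwa [Real.norm_eq_abs, abs_mul] at this
    calc ‖h v‖ * (‖exp (I * ((s * φ v : ℝ) : ℂ) - z * (L v : ℂ))‖
          * ‖exp (I * (((t - s) * φ v : ℝ) : ℂ)) - 1‖) ≤ ‖h v‖ * (1 * (|t - s| * |φ v|)) := by
          gcongr
      _ = _ := by ring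
  have main : ∀ k : ℕ, ∀ z : ℂ, 0 ≤ z.re →
      d ≤ ‖∑ v ∈ F, h v * exp (I * (((k / (N + 1) : ℝ) * φ v : ℝ) : ℂ) - z * (L v : ℂ))‖ := by
    intro k
    induction k with
    | zero =>
      have := pl_step F h L d hd hlow 0 κ hκ (by
        intro z hz
        have := h0 z hz
        simpa using this)
      intro z hz
      have h1 := this z hz
      simpa using h1
    | succ k ih =>
      have := pl_step F h L d hd hlow ((AddMonoidHom.mulLeft ((k + 1 : ℕ) / (N + 1) : ℝ)).comp φ)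
        (d / 2) (by positivity) (by
        intro z hz
        have h1 := ih z hz
        have h2 := hstep (k / (N + 1)) ((k + 1 : ℕ) / (N + 1)) z hz
        have h3 : |((k + 1 : ℕ) / (N + 1) : ℝ) - k / (N + 1)| * K ≤ d / 2 := by
          have : ((k + 1 : ℕ) / (N + 1) : ℝ) - k / (N + 1) = 1 / (N + 1) := by
            push_cast; field_simp; ring
          rw [this, abs_of_pos (by positivity), one_div, inv_mul_le_iff₀ (by positivity)]
          exact hN1
        have h4 := norm_sub_norm_le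
          (∑ v ∈ F, h v * exp (I * (((k / (N + 1) : ℝ) * φ v : ℝ) : ℂ) - z * (L v : ℂ)))
          (∑ v ∈ F, h v * exp (I * (((((k + 1 : ℕ) / (N + 1) : ℝ)) * φ v : ℝ) : ℂ) - z * (L v : ℂ)))
        rw [norm_sub_rev] at h4
        simp only [AddMonoidHom.comp_apply, AddMonoidHom.coe_mulLeft]
        linarith)
      intro z hz
      have h1 := this z hz
      simpa only [AddMonoidHom.comp_apply, AddMonoidHom.coe_mulLeft] using h1
  intro z hz
  have h1 := main (N + 1) z hz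
  have h2 : (((N + 1 : ℕ) : ℝ) / (N + 1)) = 1 := by
    push_cast
    exact div_self (by positivity)
  rw [h2] at h1
  simpa using h1

end J547
end Pool.Agent.Helper976.Fac
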