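import Pool.Agent.Helper976.Fac.Defs

set_option autoImplicit false
open scoped BigOperators Topology
open Complex

namespace Pool.Agent.Helper976.Fac
namespace J548

section Aux548

open Finset

variable {V : Type*} [AddCommGroup V]

/-- segment of homomorphisms -/
noncomputable def seg (φ φ2 : V →+ ℝ) (s : ℝ) : V →+ ℝ :=
  φ + (AddMonoidHom.mulLeft s).comp (φ2 - φ)

theorem seg_apply (φ φ2 : V →+ ℝ) (s : ℝ) (v : V) : seg φ φ2 s v = φ v + s * (φ2 v - φ v) := rfl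

theorem seg_zero (φ φ2 : V →+ ℝ) : seg φ φ2 0 = φ := by
  ext v; rw [seg_apply]; ring

theorem seg_one (φ φ2 : V →+ ℝ) : seg φ φ2 1 = φ2 := by
  ext v; rw [seg_apply]; ring

theorem norm_exp_I (x : ℝ) : ‖exp (I * (x : ℂ))‖ = 1 := by
  rw [mul_comm]; exact Complex.norm_exp_ofReal_mul_I x

theorem hat_cont {g : V → ℂ} (hg : Summable fun v => ‖g v‖) (φ φ2 : V →+ ℝ) :
    Continuous fun s : ℝ => ‖hat g (seg φ φ2 s)‖ := by
  apply Continuous.norm
  unfold hat
  apply continuous_tsum (u := fun v => ‖g v‖)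
  · intro v
    have : (fun s : ℝ => g v * exp (I * ((seg φ φ2 s v : ℝ) : ℂ))) =
        fun s : ℝ => g v * exp (I * (((φ v + s * (φ2 v - φ v) : ℝ)) : ℂ)) := rfl
    rw [this]
    fun_prop
  · exact hg
  · intro v s
    rw [norm_mul, norm_exp_I, mul_one]

theorem segment_lemma {g h : V → ℂ} (hg : Summable fun v => ‖g v‖)
    (hh : Summable fun v => ‖h v‖) {δ : ℝ} (hδ : 0 < δ)
    (hmax : ∀ φ : V →+ ℝ, δ ≤ ‖hat g φ‖ ∨ δ ≤ ‖hat h φ‖) (φ φ2 : V →+ ℝ)
    (hf : ∀ s ∈ Set.Icc (0 : ℝ) 1, ‖hat g (seg φ φ2 s) * hat h (seg φ φ2 s)‖ < δ ^ 2) :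
    δ ≤ ‖hat g φ‖ ↔ δ ≤ ‖hat g φ2‖ := by
  set A : Set ℝ := {s | δ ≤ ‖hat g (seg φ φ2 s)‖} with hA
  set B : Set ℝ := {s | δ ≤ ‖hat h (seg φ φ2 s)‖} with hB
  have hAc : IsClosed A := isClosed_le continuous_const (hat_cont hg φ φ2)
  have hBc : IsClosed B := isClosed_le continuous_const (hat_cont hh φ φ2)
  have hcov : Set.Icc (0 : ℝ) 1 ⊆ A ∪ B := fun s _ => hmax _
  have hdis : ∀ s ∈ Set.Icc (0 : ℝ) 1, s ∈ A → s ∈ B → False := by
    intro s hs h1 h2
    have h3 := hf s hs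
    rw [norm_mul, pow_two] at h3
    have h4 : δ * δ ≤ ‖hat g (seg φ φ2 s)‖ * ‖hat h (seg φ φ2 s)‖ :=
      mul_le_mul h1 h2 hδ.le (norm_nonneg _)
    linarith
  have hpre := isPreconnected_closed_iff.mp (isPreconnected_Icc (a := (0 : ℝ)) (b := 1)) A B
    hAc hBc hcov
  have h0 : (0 : ℝ) ∈ Set.Icc (0 : ℝ) 1 := Set.left_mem_Icc.mpr zero_le_one
  have h1 : (1 : ℝ) ∈ Set.Icc (0 : ℝ) 1 := Set.right_mem_Icc.mpr zero_le_one
  have e0 : (0 : ℝ) ∈ A ↔ δ ≤ ‖hat g φ‖ := by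
    show δ ≤ ‖hat g (seg φ φ2 0)‖ ↔ _
    rw [seg_zero]
  have e1 : (1 : ℝ) ∈ A ↔ δ ≤ ‖hat g φ2‖ := by
    show δ ≤ ‖hat g (seg φ φ2 1)‖ ↔ _
    rw [seg_one]
  rw [← e0, ← e1]
  constructor
  · intro hA0
    by_contra hA1
    have hB1 := (hcov h1).resolve_left hA1
    obtain ⟨s, hs, hsA, hsB⟩ := hpre ⟨0, h0, hA0⟩ ⟨1, h1, hB1⟩
    exact hdis s hs hsA hsB
  · intro hA1
    by_contra hA0
    have hB0 := (hcov h0).resolve_left hA0
    obtain ⟨s, hs, hsA, hsB⟩ := hpre ⟨1, h1, hA1⟩ ⟨0, h0, hB0⟩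
    exact hdis s hs hsA hsB

theorem exists_hom [Module ℚ V] {τ : ℕ → V} (hτ : LinearIndependent ℚ τ) (a : ℕ → ℝ) :
    ∃ ψ : V →+ ℝ, ∀ k, ψ (τ k) = a k := by
  let b := Module.Basis.span hτ
  obtain ⟨F, hF⟩ := LinearMap.exists_extend (b.constr ℚ a)
  refine ⟨F.toAddMonoidHom, fun k => ?_⟩
  have h1 : ((b k : Submodule.span ℚ (Set.range τ)) : V) = τ k := by
    rw [Module.Basis.span_apply hτ k]
  have h2 := LinearMap.congr_fun hF (b k)
  rw [Module.Basis.constr_basis] at h2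
  rw [← h1]
  exact h2

/-- value of the lacunary sum at a sequence of angles -/
noncomputable def Fv (c : ℕ → ℝ) (a : ℕ → ℝ) : ℂ := ∑' i, (c i : ℂ) * exp (I * (a i : ℂ))

/-- partial sum -/
noncomputable def Pv (c : ℕ → ℝ) (p : ℕ) (a : ℕ → ℝ) : ℂ :=
  ∑ i ∈ range p, (c i : ℂ) * exp (I * (a i : ℂ))

theorem norm_term {c : ℕ → ℝ} (hc0 : ∀ i, 0 ≤ c i) (i : ℕ) (x : ℝ) :
    ‖(c i : ℂ) * exp (I * (x : ℂ))‖ = c i := by
  rw [norm_mul, norm_exp_I, mul_one, Complex.norm_real, Real.norm_eq_abs, abs_of_nonneg (hc0 i)]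

theorem tail_le {c : ℕ → ℝ} (hc0 : ∀ i, 0 ≤ c i) (hcs : Summable c) (p : ℕ) (a : ℕ → ℝ) :
    ‖Fv c a - Pv c p a‖ ≤ ∑' i, c (i + p) := by
  have hs : Summable fun i => (c i : ℂ) * exp (I * (a i : ℂ)) := by
    apply Summable.of_norm
    refine hcs.congr fun i => ?_
    rw [norm_term hc0]
  have h1 := hs.sum_add_tsum_nat_add p
  have h2 : Fv c a - Pv c p a = ∑' i, (c (i + p) : ℂ) * exp (I * (a (i + p) : ℂ)) := by
    unfold Fv Pv
    rw [← h1]; ring
  rw [h2]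
  refine tsum_of_norm_bounded ((summable_nat_add_iff p).mpr hcs).hasSum fun i => ?_
  rw [norm_term hc0]

theorem norm_add_sq_c (z w : ℂ) :
    ‖z + w‖ ^ 2 = ‖z‖ ^ 2 + ‖w‖ ^ 2 + 2 * (w * (starRingEnd ℂ) z).re := by
  rw [add_comm z w, ← Complex.normSq_eq_norm_sq, Complex.normSq_add, Complex.normSq_eq_norm_sq,
    Complex.normSq_eq_norm_sq]
  ring

/-- angles `x` on `B` and `y` elsewhere -/
def mix (B : Finset ℕ) (x y : ℕ → ℝ) : ℕ → ℝ := fun k => if k ∈ B then x k else y k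

/-- change at one coordinate -/
noncomputable def vv (c x y : ℕ → ℝ) (k : ℕ) : ℂ :=
  (c k : ℂ) * exp (I * (y k : ℂ)) - (c k : ℂ) * exp (I * (x k : ℂ))

theorem norm_vv {c : ℕ → ℝ} (hc0 : ∀ i, 0 ≤ c i) (x y : ℕ → ℝ) (k : ℕ) :
    ‖vv c x y k‖ ≤ 2 * c k := by
  unfold vv
  calc _ ≤ ‖(c k : ℂ) * exp (I * (y k : ℂ))‖ + ‖(c k : ℂ) * exp (I * (x k : ℂ))‖ := norm_sub_le _ _
    _ = 2 * c k := by rw [norm_term hc0, norm_term hc0]; ring

theorem Pv_erase (c x y : ℕ → ℝ) {p : ℕ} {B : Finset ℕ} (hB : B ⊆ range p) {i : ℕ} (hi : i ∈ B) :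
    Pv c p (mix (B.erase i) x y) = Pv c p (mix B x y) + vv c x y i := by
  unfold Pv
  have hip := hB hi
  rw [← Finset.add_sum_erase _ _ hip, ← Finset.add_sum_erase (range p)
    (fun k => (c k : ℂ) * exp (I * (mix B x y k : ℂ))) hip]
  have h1 : ∑ k ∈ (range p).erase i, (c k : ℂ) * exp (I * (mix (B.erase i) x y k : ℂ)) =
      ∑ k ∈ (range p).erase i, (c k : ℂ) * exp (I * (mix B x y k : ℂ)) := by
    apply Finset.sum_congr rfl
    intro k hk
    have hki : k ≠ i := Finset.ne_of_mem_erase hk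
    unfold mix
    simp only [Finset.mem_erase, hki, ne_eq, not_false_eq_true, true_and]
  rw [h1]
  unfold mix vv
  simp only [Finset.mem_erase, ne_eq, not_true_eq_false, false_and, if_false, hi, if_true]
  ring

theorem Pv_empty_sub (c x y : ℕ → ℝ) {p : ℕ} {B : Finset ℕ} (hB : B ⊆ range p) :
    Pv c p y - Pv c p (mix B x y) = ∑ k ∈ B, vv c x y k := by
  unfold Pv
  rw [← Finset.sum_sub_distrib, ← Finset.sum_subset hB]
  · apply Finset.sum_congr rfl
    intro k hk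
    unfold mix vv
    simp only [hk, if_true]
  · intro k _ hk
    unfold mix
    simp only [hk, if_false]
    ring

/-- the greedy step -/
theorem greedy {c : ℕ → ℝ} (hc0 : ∀ i, 0 ≤ c i) (x y : ℕ → ℝ) {p : ℕ} {B : Finset ℕ}
    (hB : B ⊆ range p) (hne : B.Nonempty) {μ E S : ℝ} (hμ : ∀ i, c i ≤ μ) (hS : 0 ≤ S)
    (hy : ‖Pv c p y‖ ≤ E) (hE : 0 ≤ E) (hBb : ‖Pv c p (mix B x y)‖ ^ 2 ≤ (E + 2 * μ) ^ 2 + 4 * S) :
    ∃ i ∈ B, ‖Pv c p (mix (B.erase i) x y)‖ ^ 2 ≤ (E + 2 * μ) ^ 2 + 4 * (S + c i ^ 2) := by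
  set X := Pv c p (mix B x y) with hX
  have hμ0 : 0 ≤ μ := (hc0 0).trans (hμ 0)
  by_cases hcase : ‖Pv c p y‖ ≤ ‖X‖
  · have h1 : (∑ k ∈ B, (vv c x y k * (starRingEnd ℂ) X).re) ≤ 0 := by
      rw [← Complex.re_sum, ← Finset.sum_mul, ← Pv_empty_sub c x y hB, ← hX, sub_mul,
        Complex.sub_re, Complex.mul_conj, Complex.ofReal_re, Complex.normSq_eq_norm_sq]
      have h2 : (Pv c p y * (starRingEnd ℂ) X).re ≤ ‖Pv c p y‖ * ‖X‖ := by
        refine (Complex.re_le_norm _).trans (le_of_eq ?_)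
        rw [norm_mul, Complex.norm_conj]
      nlinarith [norm_nonneg X]
    obtain ⟨i, hi, hi2⟩ : ∃ i ∈ B, (vv c x y i * (starRingEnd ℂ) X).re ≤ 0 := by
      by_contra hcon
      push Not at hcon
      exact absurd (Finset.sum_pos hcon hne) (not_lt.mpr h1)
    refine ⟨i, hi, ?_⟩
    rw [Pv_erase c x y hB hi, ← hX, norm_add_sq_c]
    have h3 := norm_vv hc0 x y i
    have h4 : ‖vv c x y i‖ ^ 2 ≤ (2 * c i) ^ 2 := by gcongr
    nlinarith
  · push Not at hcase
    obtain ⟨i, hi⟩ := hne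
    refine ⟨i, hi, ?_⟩
    rw [Pv_erase c x y hB hi, ← hX]
    have h3 := norm_vv hc0 x y i
    have h4 : ‖X + vv c x y i‖ ≤ E + 2 * μ := by
      calc _ ≤ ‖X‖ + ‖vv c x y i‖ := norm_add_le _ _
        _ ≤ E + 2 * μ := by linarith [hμ i]
    have h5 : ‖X + vv c x y i‖ ^ 2 ≤ (E + 2 * μ) ^ 2 := by gcongr
    nlinarith [sq_nonneg (c i)]

end Aux548

/-- CONNECTIVITY. -/
theorem connectivity {V : Type*} [AddCommGroup V] [Module ℚ V] (g h : V → ℂ)
    (hg : Summable fun v => ‖g v‖) (hh : Summable fun v => ‖h v‖)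
    (c : ℕ → ℝ) (hc0 : ∀ i, 0 ≤ c i) (hcs : Summable c)
    (τ : ℕ → V) (hτ : LinearIndependent ℚ τ)
    (δ μ σ : ℝ) (hδ : 0 < δ) (hμ : ∀ i, c i ≤ μ) (hσ0 : 0 ≤ σ)
    (hσ : ∑' i, c i ^ 2 ≤ σ ^ 2) (hsmall : 4 * μ + 2 * σ < δ ^ 2 / 2)
    (hprod : ∀ φ : V →+ ℝ, hat g φ * hat h φ = ∑' i, (c i : ℂ) * exp (I * (φ (τ i) : ℂ)))
    (hmax : ∀ φ : V →+ ℝ, δ ≤ ‖hat g φ‖ ∨ δ ≤ ‖hat h φ‖) :
    (∀ φ : V →+ ℝ, ‖∑' i, (c i : ℂ) * exp (I * (φ (τ i) : ℂ))‖ < δ ^ 2 / 2 → δ ≤ ‖hat g φ‖) ∨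
    (∀ φ : V →+ ℝ, ‖∑' i, (c i : ℂ) * exp (I * (φ (τ i) : ℂ))‖ < δ ^ 2 / 2 → δ ≤ ‖hat h φ‖) := by
  by_contra hcon
  push Not at hcon
  obtain ⟨⟨φ0, hf0, hg0⟩, ⟨φ1, hf1, hh1⟩⟩ := hcon
  have hg1 : δ ≤ ‖hat g φ1‖ := (hmax φ1).resolve_right (not_le.mpr hh1)
  have hμ0 : 0 ≤ μ := (hc0 0).trans (hμ 0)
  set η := δ ^ 2 / 2 with hη
  have hη0 : 0 < η := by rw [hη]; positivity
  have hδη : δ ^ 2 = 2 * η := by rw [hη]; ring
  have hc2 : Summable fun i => c i ^ 2 := by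
    refine Summable.of_nonneg_of_le (fun i => sq_nonneg _) (fun i => ?_) (hcs.mul_left μ)
    nlinarith [hc0 i, hμ i]
  -- choose the cut
  obtain ⟨p, hp⟩ : ∃ p, 2 * ∑' i, c (i + p) < η - 4 * μ - 2 * σ := by
    have h1 : Filter.Tendsto (fun p => ∑' i, c (i + p)) Filter.atTop (nhds 0) :=
      tendsto_sum_nat_add c
    have h2 : Filter.Tendsto (fun p => 2 * ∑' i, c (i + p)) Filter.atTop (nhds 0) := by
      have := h1.const_mul 2
      rwa [mul_zero] at this
    have h3 := h2.eventually (gt_mem_nhds (by linarith : (0 : ℝ) < η - 4 * μ - 2 * σ))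
    exact h3.exists
  set r := ∑' i, c (i + p) with hr
  have hr0 : 0 ≤ r := tsum_nonneg fun i => hc0 _
  set x : ℕ → ℝ := fun k => φ0 (τ k) with hx
  set y : ℕ → ℝ := fun k => φ1 (τ k) with hy
  have hF : ∀ φ : V →+ ℝ, hat g φ * hat h φ = Fv c (fun k => φ (τ k)) := hprod
  have hfx : ‖Fv c x‖ < η := hf0
  have hfy : ‖Fv c y‖ < η := hf1
  have htail := fun a => tail_le hc0 hcs p a
  rw [← hr] at htail
  have hPF : ∀ a, ‖Pv c p a‖ ≤ ‖Fv c a‖ + r := by
    intro a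
    calc ‖Pv c p a‖ = ‖Fv c a - (Fv c a - Pv c p a)‖ := by congr 1; ring
      _ ≤ ‖Fv c a‖ + ‖Fv c a - Pv c p a‖ := norm_sub_le _ _
      _ ≤ ‖Fv c a‖ + r := by linarith [htail a]
  have hFP : ∀ a, ‖Fv c a‖ ≤ ‖Pv c p a‖ + r := by
    intro a
    calc ‖Fv c a‖ = ‖Pv c p a + (Fv c a - Pv c p a)‖ := by congr 1; ring
      _ ≤ ‖Pv c p a‖ + ‖Fv c a - Pv c p a‖ := norm_add_le _ _
      _ ≤ ‖Pv c p a‖ + r := by linarith [htail a]
  have hPy : ‖Pv c p y‖ ≤ η + r := by linarith [hPF y]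
  have hPx : ‖Pv c p x‖ ≤ η + r := by linarith [hPF x]
  have hseg := fun φ φ2 => segment_lemma hg hh hδ hmax φ φ2
  -- induction over the unswitched set
  have claim : ∀ n : ℕ, ∀ B : Finset ℕ, B ⊆ Finset.range p → B.card = n → ∀ φ : V →+ ℝ,
      (∀ k, φ (τ k) = mix B x y k) →
      ‖Pv c p (mix B x y)‖ ^ 2 ≤ ((η + r) + 2 * μ) ^ 2 +
        4 * ∑ k ∈ Finset.range p \ B, c k ^ 2 →
      (δ ≤ ‖hat g φ‖ ↔ δ ≤ ‖hat g φ1‖) := by
    intro n
    induction n with
    | zero =>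
      intro B hB hBc φ hφ _
      rw [Finset.card_eq_zero] at hBc
      subst hBc
      apply hseg
      intro s _
      rw [hF]
      have h1 : (fun k => seg φ φ1 s (τ k)) = y := by
        funext k
        rw [seg_apply, hφ k]
        unfold mix
        simp only [Finset.notMem_empty, if_false]
        rw [hy]; ring
      rw [h1, hδη]
      linarith
    | succ n ih =>
      intro B hB hBc φ hφ hbd
      have hne : B.Nonempty := by
        rw [← Finset.card_pos, hBc]; omega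
      obtain ⟨i, hi, hi2⟩ := greedy hc0 x y hB hne hμ (Finset.sum_nonneg fun k _ => sq_nonneg (c k))
        hPy (by linarith) hbd
      obtain ⟨ψ, hψ⟩ := exists_hom hτ (fun k => if k = i then y i - x i else 0)
      have hvals : ∀ k, (φ + ψ) (τ k) = mix (B.erase i) x y k := by
        intro k
        rw [AddMonoidHom.add_apply, hφ, hψ]
        unfold mix
        by_cases hki : k = i
        · subst hki
          simp only [hi, if_true, Finset.mem_erase, ne_eq, not_true_eq_false, false_and, if_false]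
          ring
        · simp only [hki, if_false, Finset.mem_erase, ne_eq, not_false_eq_true, true_and, add_zero]
      have hsum : ∑ k ∈ Finset.range p \ B.erase i, c k ^ 2 =
          ∑ k ∈ Finset.range p \ B, c k ^ 2 + c i ^ 2 := by
        have h1 : Finset.range p \ B.erase i = insert i (Finset.range p \ B) := by
          ext k
          simp only [Finset.mem_sdiff, Finset.mem_erase, Finset.mem_insert, not_and]
          constructor
          · rintro ⟨h2, h3⟩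
            by_cases hki : k = i
            · exact Or.inl hki
            · exact Or.inr ⟨h2, h3 hki⟩
          · rintro (h2 | ⟨h2, h3⟩)
            · subst h2
              exact ⟨hB hi, fun h4 => absurd rfl h4⟩
            · exact ⟨h2, fun _ => h3⟩
        rw [h1, Finset.sum_insert]
        · ring
        · intro h2
          exact (Finset.mem_sdiff.mp h2).2 hi
      rw [← hsum] at hi2
      have hrec := ih (B.erase i) ((Finset.erase_subset _ _).trans hB)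
        (by rw [Finset.card_erase_of_mem hi, hBc]; rfl) (φ + ψ) hvals hi2
      refine Iff.trans (hseg φ (φ + ψ) ?_) hrec
      intro s _
      rw [hF]
      -- estimate along the coordinate segment
      have hX : ‖Pv c p (mix B x y)‖ ≤ η + r + 2 * μ + 2 * σ := by
        have h1 : ∑ k ∈ Finset.range p \ B, c k ^ 2 ≤ σ ^ 2 :=
          (hc2.sum_le_tsum _ fun k _ => sq_nonneg _).trans hσ
        have h2 : ‖Pv c p (mix B x y)‖ ^ 2 ≤ (η + r + 2 * μ + 2 * σ) ^ 2 := by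
          have h3 : 0 ≤ (η + r + 2 * μ) * σ := by positivity
          nlinarith
        exact abs_le_of_sq_le_sq' h2 (by positivity) |>.2
      set a : ℕ → ℝ := fun k => seg φ (φ + ψ) s (τ k) with ha
      have ha1 : ∀ k, k ≠ i → a k = mix B x y k := by
        intro k hk
        rw [ha]
        simp only
        rw [seg_apply, AddMonoidHom.add_apply, hψ, hφ]
        simp only [hk, if_false]
        ring
      have hPa : ‖Pv c p a - Pv c p (mix B x y)‖ ≤ 2 * μ := by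
        have hip := hB hi
        unfold Pv
        rw [← Finset.add_sum_erase _ _ hip, ← Finset.add_sum_erase (Finset.range p)
          (fun k => (c k : ℂ) * exp (I * (mix B x y k : ℂ))) hip]
        have h1 : ∑ k ∈ (Finset.range p).erase i, (c k : ℂ) * exp (I * (a k : ℂ)) =
            ∑ k ∈ (Finset.range p).erase i, (c k : ℂ) * exp (I * (mix B x y k : ℂ)) := by
          apply Finset.sum_congr rfl
          intro k hk
          rw [ha1 k (Finset.ne_of_mem_erase hk)]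
        rw [h1, add_sub_add_right_eq_sub]
        calc _ ≤ ‖(c i : ℂ) * exp (I * (a i : ℂ))‖ +
              ‖(c i : ℂ) * exp (I * (mix B x y i : ℂ))‖ := norm_sub_le _ _
          _ = c i + c i := by rw [norm_term hc0, norm_term hc0]
          _ ≤ 2 * μ := by linarith [hμ i]
      have hPa2 : ‖Pv c p a‖ ≤ ‖Pv c p (mix B x y)‖ + 2 * μ := by
        calc ‖Pv c p a‖ = ‖Pv c p (mix B x y) + (Pv c p a - Pv c p (mix B x y))‖ := by
              congr 1; ring
          _ ≤ ‖Pv c p (mix B x y)‖ + ‖Pv c p a - Pv c p (mix B x y)‖ := norm_add_le _ _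
          _ ≤ _ := by linarith
      have := hFP a
      rw [hδη]
      linarith
  -- first segment
  obtain ⟨ψ, hψ⟩ := exists_hom hτ (fun k => if k < p then 0 else y k - x k)
  have hvals : ∀ k, (φ0 + ψ) (τ k) = mix (Finset.range p) x y k := by
    intro k
    rw [AddMonoidHom.add_apply, hψ]
    unfold mix
    by_cases hk : k < p
    · simp only [hk, if_true, Finset.mem_range, add_zero]
      rfl
    · simp only [hk, if_false, Finset.mem_range]
      show x k + (y k - x k) = y k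
      ring
  have hmixx : Pv c p (mix (Finset.range p) x y) = Pv c p x := by
    unfold Pv
    apply Finset.sum_congr rfl
    intro k hk
    unfold mix
    simp only [hk, if_true]
  have h1 := claim _ (Finset.range p) (Finset.Subset.refl _) rfl (φ0 + ψ) hvals (by
    rw [hmixx, Finset.sdiff_self, Finset.sum_empty, mul_zero, add_zero]
    have : ‖Pv c p x‖ ≤ (η + r) + 2 * μ := by linarith
    gcongr)
  have h2 : δ ≤ ‖hat g φ0‖ ↔ δ ≤ ‖hat g (φ0 + ψ)‖ := by
    apply hseg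
    intro s _
    rw [hF]
    set a : ℕ → ℝ := fun k => seg φ0 (φ0 + ψ) s (τ k) with ha
    have h3 : Pv c p a = Pv c p x := by
      unfold Pv
      apply Finset.sum_congr rfl
      intro k hk
      have : a k = x k := by
        rw [ha]
        simp only
        rw [seg_apply, AddMonoidHom.add_apply, hψ]
        simp only [Finset.mem_range.mp hk, if_true]
        rw [hx]; ring
      rw [this]
    have h4 := hFP a
    rw [h3] at h4
    rw [hδη]
    linarith
  exact absurd (h2.mpr (h1.mpr hg1)) (not_le.mpr hg0)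

end J548
end Pool.Agent.Helper976.Fac
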