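import Pool.Agent.Helper976.Fac.Defs

set_option autoImplicit false
open scoped BigOperators Topology
open Complex

namespace Pool.Agent.Helper976.Fac
namespace J549

section Aux
variable {V : Type*} [AddCommGroup V] [LinearOrder V] [IsOrderedAddMonoid V]

theorem small_neg {τ v : V} (h : Small τ v) : Small τ (-v) := by
  intro N; rw [abs_neg]; exact h N

theorem small_add {τ v w : V} (hv : Small τ v) (hw : Small τ w) : Small τ (v + w) := by
  intro N
  rcases le_total |v| |w| with h | h
  · calc N • |v + w| ≤ N • (|v| + |w|) := nsmul_le_nsmul_right (abs_add_le v w) N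
      _ ≤ N • (|w| + |w|) := nsmul_le_nsmul_right (by gcongr) N
      _ = (2 * N) • |w| := by rw [← two_nsmul, ← mul_nsmul]
      _ < τ := hw _
  · calc N • |v + w| ≤ N • (|v| + |w|) := nsmul_le_nsmul_right (abs_add_le v w) N
      _ ≤ N • (|v| + |v|) := nsmul_le_nsmul_right (by gcongr) N
      _ = (2 * N) • |v| := by rw [← two_nsmul, ← mul_nsmul]
      _ < τ := hv _

theorem small_sub {τ v w : V} (hv : Small τ v) (hw : Small τ w) : Small τ (v - w) := by
  rw [sub_eq_add_neg]; exact small_add hv (small_neg hw)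

theorem small_self {τ : V} (h : 0 < τ) : ¬ Small τ τ := by
  intro hs
  have := hs 1
  rw [one_nsmul, abs_of_pos h] at this
  exact lt_irrefl _ this

/-- The middle range. -/
def Mid (τ v : V) : Prop := 0 < v ∧ v ≤ 2 • τ ∧ ¬ Small τ v

theorem mid_of_coset {τ v : V} (hτ : 0 < τ) (h : Small τ (v - τ)) (hv : 0 < v) : Mid τ v := by
  refine ⟨hv, ?_, ?_⟩
  · have h1 := h 1
    rw [one_nsmul] at h1
    have h2 := le_abs_self (v - τ)
    rw [two_nsmul]
    have h3 : v - τ ≤ τ := h2.trans h1.le
    exact sub_le_iff_le_add.mp h3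
  · intro hs
    have := small_sub hs h
    rw [sub_sub_cancel] at this
    exact small_self hτ this

theorem le_of_coset {τ a b : V} (h : Small τ (a + b - τ)) (hb : 0 < b) : a ≤ 2 • τ := by
  have h1 := h 1
  rw [one_nsmul] at h1
  have h2 := le_abs_self (a + b - τ)
  have h3 : a + b - τ ≤ τ := h2.trans h1.le
  have h4 : a + b ≤ 2 • τ := by rw [two_nsmul]; exact sub_le_iff_le_add.mp h3
  exact (le_add_of_nonneg_right hb.le).trans h4

variable {τ : ℕ → V} (hτpos : ∀ i, 0 < τ i) (hτ : ∀ i, ∀ N : ℕ, N • τ (i + 1) < τ i)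
include hτpos hτ

theorem tau_small {i j : ℕ} (hij : i < j) (N : ℕ) : N • τ j < τ i := by
  obtain ⟨k, rfl⟩ : ∃ k, j = i + 1 + k := ⟨j - (i + 1), by omega⟩
  clear hij
  induction k with
  | zero => exact hτ i N
  | succ k ih =>
    refine lt_of_le_of_lt ?_ ih
    refine nsmul_le_nsmul_right ?_ N
    have := hτ (i + 1 + k) 1
    rw [one_nsmul] at this
    exact this.le

theorem mid_disj {i j : ℕ} (hij : i < j) {v : V} (hj : Mid (τ j) v) : ¬ Mid (τ i) v := by
  intro hi
  apply hi.2.2
  intro N
  rw [abs_of_pos hj.1]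
  calc N • v ≤ N • (2 • τ j) := nsmul_le_nsmul_right hj.2.1 N
    _ = (2 * N) • τ j := by rw [← mul_nsmul]
    _ < τ i := tau_small hτpos hτ hij _

theorem mid_unique {i j : ℕ} {v : V} (hi : Mid (τ i) v) (hj : Mid (τ j) v) : i = j := by
  rcases lt_trichotomy i j with h | h | h
  · exact absurd hi (mid_disj hτpos hτ h hj)
  · exact h
  · exact absurd hj (mid_disj hτpos hτ h hi)

theorem tau_coset {i j : ℕ} (h : Small (τ j) (τ i - τ j)) : i = j := by
  rcases lt_trichotomy i j with hij | hij | hij
  · exfalso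
    have h1 := tau_small hτpos hτ hij 2
    have h2 := h 1
    rw [one_nsmul] at h2
    have h3 := (le_abs_self _).trans_lt h2
    rw [two_nsmul] at h1
    exact lt_asymm h1 (sub_lt_iff_lt_add.mp h3)
  · exact hij
  · exfalso
    have h1 : Small (τ j) (τ i) := by
      intro N
      rw [abs_of_pos (hτpos i)]
      exact tau_small hτpos hτ hij N
    have h2 := small_sub h1 h
    rw [sub_sub_cancel] at h2
    exact small_self (hτpos j) h2

theorem tau_inj {i j : ℕ} (h : τ i = τ j) : i = j := by
  rcases lt_trichotomy i j with hij | hij | hij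
  · have := tau_small hτpos hτ hij 1
    rw [one_nsmul, h] at this
    exact absurd this (lt_irrefl _)
  · exact hij
  · have := tau_small hτpos hτ hij 1
    rw [one_nsmul, h] at this
    exact absurd this (lt_irrefl _)

end Aux

open Classical in
/-- Mass on the middle range. -/
noncomputable def mass {V : Type*} [AddCommGroup V] [LinearOrder V] [IsOrderedAddMonoid V]
    (τ : V) (k : V → ℂ) (v : V) : ℝ := if Mid τ v then ‖k v‖ else 0

theorem mass_nonneg {V : Type*} [AddCommGroup V] [LinearOrder V] [IsOrderedAddMonoid V]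
    (τ : V) (k : V → ℂ) (v : V) : 0 ≤ mass τ k v := by
  unfold mass
  split_ifs
  · exact norm_nonneg _
  · exact le_rfl

theorem mass_le {V : Type*} [AddCommGroup V] [LinearOrder V] [IsOrderedAddMonoid V]
    (τ : V) (k : V → ℂ) (v : V) : mass τ k v ≤ ‖k v‖ := by
  unfold mass
  split_ifs
  · exact le_rfl
  · exact norm_nonneg _

theorem mass_summable {V : Type*} [AddCommGroup V] [LinearOrder V] [IsOrderedAddMonoid V]
    (τ : V) {k : V → ℂ} (hk : Summable fun v => ‖k v‖) : Summable (mass τ k) :=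
  Summable.of_nonneg_of_le (mass_nonneg τ k) (mass_le τ k) hk

theorem sum_mass_le {V : Type*} [AddCommGroup V] [LinearOrder V] [IsOrderedAddMonoid V]
    {τ : ℕ → V} (hτpos : ∀ i, 0 < τ i) (hτ : ∀ i, ∀ N : ℕ, N • τ (i + 1) < τ i)
    {k : V → ℂ} (hk : Summable fun v => ‖k v‖) (n : ℕ) :
    ∑ j ∈ Finset.range n, ∑' v, mass (τ j) k v ≤ ∑' v, ‖k v‖ := by
  rw [← Summable.tsum_finsetSum (fun j _ => mass_summable (τ j) hk)]
  refine Summable.tsum_le_tsum (fun v => ?_) (summable_sum fun j _ => mass_summable (τ j) hk) hk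
  by_cases h : ∃ j ∈ Finset.range n, Mid (τ j) v
  · obtain ⟨j, hj, hm⟩ := h
    rw [Finset.sum_eq_single_of_mem j hj]
    · exact mass_le _ _ _
    · intro i _ hij
      unfold mass
      rw [if_neg]
      intro hm'
      exact hij (mid_unique hτpos hτ hm' hm)
  · push Not at h
    rw [Finset.sum_eq_zero]
    · exact norm_nonneg _
    · intro j hj
      unfold mass
      rw [if_neg (h j hj)]

open Classical in
/-- GOOD SCALE, UNIMODULARITY. -/
theorem unimod {V : Type*} [AddCommGroup V] [LinearOrder V] [IsOrderedAddMonoid V]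
    (g h : V → ℂ) (hg : Summable fun v => ‖g v‖) (hh : Summable fun v => ‖h v‖)
    (hgpos : ∀ v, v ≤ 0 → g v = 0) (hhpos : ∀ v, v ≤ 0 → h v = 0)
    (B : ℝ) (hB : 0 < B) (hgB : ∑' v, ‖g v‖ ≤ B) (hhB : ∑' v, ‖h v‖ ≤ B)
    (c : ℕ → ℝ) (hc : ∀ i, 0 < c i) (hcs : Summable c)
    (τ : ℕ → V) (hτpos : ∀ i, 0 < τ i) (hτ : ∀ i, ∀ N : ℕ, N • τ (i + 1) < τ i)
    (hconv : ∀ v, ∑' w, g w * h (v - w) = ∑' i, if v = τ i then (c i : ℂ) else 0)
    (n : ℕ) (M : ℝ) (hM : M = ∑ i ∈ Finset.range n, c i) (hM0 : 0 < M)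
    (hsmall : ∀ i < n, c i ≤ M ^ 2 / (2 * B ^ 2)) :
    ∃ j < n, ∀ φ : V →+ ℝ,
      M / (4 * B) ≤ ‖hat (restr (τ j) g) φ‖ ∨ M / (4 * B) ≤ ‖hat (restr (τ j) h) φ‖ := by
  -- choice of `j`
  obtain ⟨j, hjn, hj⟩ : ∃ j < n, (∑' v, mass (τ j) g v) + (∑' v, mass (τ j) h v) ≤ 2 * B / M * c j := by
    by_contra hcon
    push Not at hcon
    have hne : (Finset.range n).Nonempty := by
      rw [Finset.nonempty_range_iff]
      rintro rfl
      rw [Finset.sum_range_zero] at hM
      linarith
    have h1 : ∑ j ∈ Finset.range n, (2 * B / M * c j) <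
        ∑ j ∈ Finset.range n, ((∑' v, mass (τ j) g v) + (∑' v, mass (τ j) h v)) :=
      Finset.sum_lt_sum_of_nonempty hne fun j hj => hcon j (Finset.mem_range.mp hj)
    rw [← Finset.mul_sum, ← hM, Finset.sum_add_distrib, div_mul_cancel₀ _ hM0.ne'] at h1
    have h2 := sum_mass_le hτpos hτ hg n
    have h3 := sum_mass_le hτpos hτ hh n
    linarith
  refine ⟨j, hjn, fun φ => ?_⟩
  by_contra hcon
  push Not at hcon
  obtain ⟨hcg, hch⟩ := hcon
  set α : ℝ := ∑' v, mass (τ j) g v with hα
  set β : ℝ := ∑' v, mass (τ j) h v with hβ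
  have hα0 : 0 ≤ α := tsum_nonneg (mass_nonneg _ _)
  have hβ0 : 0 ≤ β := tsum_nonneg (mass_nonneg _ _)
  -- the test function
  let ψ : V → ℂ := fun v => if Small (τ j) (v - τ j) then exp (I * (φ v : ℂ)) else 0
  have hexp : ∀ v, ‖exp (I * (φ v : ℂ))‖ = 1 := by
    intro v
    rw [mul_comm]; exact norm_exp_ofReal_mul_I _
  have hψ1 : ∀ v, ‖ψ v‖ ≤ 1 := by
    intro v
    simp only [ψ]
    split_ifs
    · exact (hexp v).le
    · simp
  have hexpadd : ∀ a b, exp (I * (φ (a + b) : ℂ)) = exp (I * (φ a : ℂ)) * exp (I * (φ b : ℂ)) := by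
    intro a b
    rw [← Complex.exp_add, map_add]
    congr 1
    push_cast
    ring
  let K : V × V → ℂ := fun p => ψ (p.1 + p.2) * (g p.1 * h p.2)
  have hgh : Summable fun p : V × V => ‖g p.1‖ * ‖h p.2‖ := hg.mul_of_nonneg hh (fun _ => norm_nonneg _) (fun _ => norm_nonneg _)
  have hKn : ∀ p, ‖K p‖ ≤ ‖g p.1‖ * ‖h p.2‖ := by
    intro p
    simp only [K]
    rw [norm_mul, norm_mul]
    exact mul_le_of_le_one_left (by positivity) (hψ1 _)
  have hK : Summable K := Summable.of_norm_bounded hgh hKn
  -- value of the sum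
  have hval : ∑' p, K p = ψ (τ j) * (c j : ℂ) := by
    let e : V × V ≃ V × V :=
      { toFun := fun q => (q.2, q.1 - q.2)
        invFun := fun p => (p.1 + p.2, p.1)
        left_inv := fun q => by simp
        right_inv := fun p => by simp }
    rw [← e.tsum_eq K]
    have hKe : Summable fun q : V × V => K (e q) := (e.summable_iff (f := K)).mpr hK
    rw [hKe.tsum_prod]
    have h1 : ∀ v, ∑' w, K (e (v, w)) = ψ v * ∑' i, if v = τ i then (c i : ℂ) else 0 := by
      intro v
      rw [← hconv v, ← tsum_mul_left]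
      refine tsum_congr fun w => ?_
      show ψ (w + (v - w)) * (g w * h (v - w)) = _
      rw [add_sub_cancel]
    simp only [h1]
    rw [tsum_eq_single (τ j)]
    · congr 1
      rw [tsum_eq_single j]
      · rw [if_pos rfl]
      · intro i hi
        rw [if_neg]
        intro h2
        exact hi (tau_inj hτpos hτ h2).symm
    · intro v hv
      by_cases hvi : ∃ i, v = τ i
      · obtain ⟨i, rfl⟩ := hvi
        have : ψ (τ i) = 0 := by
          simp only [ψ]
          rw [if_neg]
          intro h2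
          apply hv
          rw [tau_coset hτpos hτ h2]
        rw [this, zero_mul]
      · push Not at hvi
        have : (∑' i, if v = τ i then (c i : ℂ) else 0) = 0 := by
          simp [hvi]
        rw [this, mul_zero]
  have hval' : ‖∑' p, K p‖ = c j := by
    rw [hval, norm_mul]
    have : ψ (τ j) = exp (I * (φ (τ j) : ℂ)) := by
      simp only [ψ]
      rw [if_pos]
      rw [sub_self]
      intro N
      rw [abs_zero, smul_zero]; exact hτpos j
    rw [this, hexp, one_mul, Complex.norm_real, Real.norm_eq_abs, abs_of_pos (hc j)]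
  -- decomposition
  let gC : V → ℂ := restr (τ j) g
  let hC : V → ℂ := restr (τ j) h
  let gN : V → ℂ := fun v => if Small (τ j) v then 0 else g v
  let hN : V → ℂ := fun v => if Small (τ j) v then 0 else h v
  have hgC : Summable fun v => ‖gC v‖ := by
    refine Summable.of_nonneg_of_le (fun _ => norm_nonneg _) (fun v => ?_) hg
    simp only [gC, restr]
    split_ifs
    · exact le_rfl
    · simp
  have hhC : Summable fun v => ‖hC v‖ := by
    refine Summable.of_nonneg_of_le (fun _ => norm_nonneg _) (fun v => ?_) hh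
    simp only [hC, restr]
    split_ifs
    · exact le_rfl
    · simp
  let sg : V → ℂ := fun v => if Small (τ j) (v - τ j) then exp (I * (φ v : ℂ)) * gN v else 0
  let sh : V → ℂ := fun v => if Small (τ j) (v - τ j) then exp (I * (φ v : ℂ)) * hN v else 0
  have hsg : ∀ v, ‖sg v‖ ≤ mass (τ j) g v := by
    intro v
    simp only [sg, gN]
    by_cases h1 : Small (τ j) (v - τ j)
    · rw [if_pos h1]
      by_cases h2 : Small (τ j) v
      · rw [if_pos h2]; simp [mass_nonneg]
      · rw [if_neg h2, norm_mul, hexp, one_mul]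
        by_cases h3 : v ≤ 0
        · rw [hgpos v h3]; simp [mass_nonneg]
        · unfold mass
          rw [if_pos (mid_of_coset (hτpos j) h1 (not_le.mp h3))]
    · rw [if_neg h1]; simp [mass_nonneg]
  have hsh : ∀ v, ‖sh v‖ ≤ mass (τ j) h v := by
    intro v
    simp only [sh, hN]
    by_cases h1 : Small (τ j) (v - τ j)
    · rw [if_pos h1]
      by_cases h2 : Small (τ j) v
      · rw [if_pos h2]; simp [mass_nonneg]
      · rw [if_neg h2, norm_mul, hexp, one_mul]
        by_cases h3 : v ≤ 0
        · rw [hhpos v h3]; simp [mass_nonneg]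
        · unfold mass
          rw [if_pos (mid_of_coset (hτpos j) h1 (not_le.mp h3))]
    · rw [if_neg h1]; simp [mass_nonneg]
  have hsgs : Summable fun v => ‖sg v‖ :=
    Summable.of_nonneg_of_le (fun _ => norm_nonneg _) hsg (mass_summable _ hg)
  have hshs : Summable fun v => ‖sh v‖ :=
    Summable.of_nonneg_of_le (fun _ => norm_nonneg _) hsh (mass_summable _ hh)
  let eg : V → ℂ := fun v => gC v * exp (I * (φ v : ℂ))
  let eh : V → ℂ := fun v => hC v * exp (I * (φ v : ℂ))
  have hegs : Summable fun v => ‖eg v‖ := by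
    refine hgC.congr fun v => ?_
    simp only [eg]
    rw [norm_mul, hexp, mul_one]
  have hehs : Summable fun v => ‖eh v‖ := by
    refine hhC.congr fun v => ?_
    simp only [eh]
    rw [norm_mul, hexp, mul_one]
  let KN : V × V → ℂ := fun p => ψ (p.1 + p.2) * (gN p.1 * hN p.2)
  have hdec : ∀ p, K p = eg p.1 * sh p.2 + sg p.1 * eh p.2 + KN p := by
    rintro ⟨a, b⟩
    simp only [K, KN, eg, sh, sg, eh, gC, hC, gN, hN, ψ, restr]
    by_cases ha : Small (τ j) a <;> by_cases hb : Small (τ j) b
    · have h1 : ¬ Small (τ j) (a + b - τ j) := by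
        intro h2
        have h3 := small_sub (small_add ha hb) h2
        rw [sub_sub_cancel] at h3
        exact small_self (hτpos j) h3
      simp [ha, hb, h1]
    · have h1 : Small (τ j) (a + b - τ j) ↔ Small (τ j) (b - τ j) := by
        constructor
        · intro h2
          have h3 := small_sub h2 ha
          rwa [add_sub_assoc, add_sub_cancel_left] at h3
        · intro h2
          have h3 := small_add ha h2
          rwa [← add_sub_assoc] at h3
      by_cases h2 : Small (τ j) (b - τ j)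
      · simp only [ha, hb, h1, h2, if_true, if_false, hexpadd]
        ring
      · simp only [ha, hb, h1, h2, if_true, if_false]
        ring
    · have h1 : Small (τ j) (a + b - τ j) ↔ Small (τ j) (a - τ j) := by
        constructor
        · intro h2
          have h3 := small_sub h2 hb
          have h4 : a + b - τ j - b = a - τ j := by abel
          rwa [h4] at h3
        · intro h2
          have h3 := small_add h2 hb
          have h4 : a - τ j + b = a + b - τ j := by abel
          rwa [h4] at h3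
      by_cases h2 : Small (τ j) (a - τ j)
      · simp only [ha, hb, h1, h2, if_true, if_false, hexpadd]
        ring
      · simp only [ha, hb, h1, h2, if_true, if_false]
        ring
    · simp only [ha, hb, if_false]
      split_ifs <;> ring
  have hKNn : ∀ p, ‖KN p‖ ≤ mass (τ j) g p.1 * mass (τ j) h p.2 := by
    rintro ⟨a, b⟩
    simp only [KN, ψ, gN, hN]
    have hnn : 0 ≤ mass (τ j) g a * mass (τ j) h b := mul_nonneg (mass_nonneg _ _ _) (mass_nonneg _ _ _)
    by_cases h1 : Small (τ j) (a + b - τ j)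
    · by_cases ha : Small (τ j) a
      · simp [ha, hnn]
      by_cases hb : Small (τ j) b
      · simp [hb, hnn]
      rw [if_pos h1, if_neg ha, if_neg hb, norm_mul, hexp, one_mul, norm_mul]
      by_cases ha0 : a ≤ 0
      · rw [hgpos a ha0]; simpa using hnn
      by_cases hb0 : b ≤ 0
      · rw [hhpos b hb0]; simpa using hnn
      rw [not_le] at ha0 hb0
      have m1 : Mid (τ j) a := ⟨ha0, le_of_coset h1 hb0, ha⟩
      have m2 : Mid (τ j) b := ⟨hb0, le_of_coset (by rwa [add_comm b a]) ha0, hb⟩
      unfold mass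
      rw [if_pos m1, if_pos m2]
    · rw [if_neg h1]; simpa using hnn
  have hmm : Summable fun p : V × V => mass (τ j) g p.1 * mass (τ j) h p.2 :=
    (mass_summable _ hg).mul_of_nonneg (mass_summable _ hh) (mass_nonneg _ _) (mass_nonneg _ _)
  have hKN : Summable KN := Summable.of_norm_bounded hmm hKNn
  have s1 : Summable fun p : V × V => eg p.1 * sh p.2 := summable_mul_of_summable_norm hegs hshs
  have s2 : Summable fun p : V × V => sg p.1 * eh p.2 := summable_mul_of_summable_norm hsgs hehs
  have hsum : ∑' p, K p = hat gC φ * (∑' v, sh v) + (∑' v, sg v) * hat hC φ + ∑' p, KN p := by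
    simp only [hdec]
    rw [(s1.add s2).tsum_add hKN, s1.tsum_add s2, ← tsum_mul_tsum_of_summable_norm hegs hshs,
      ← tsum_mul_tsum_of_summable_norm hsgs hehs]
    rfl
  have b1 : ‖∑' v, sh v‖ ≤ β :=
    (norm_tsum_le_tsum_norm hshs).trans (Summable.tsum_le_tsum hsh hshs (mass_summable _ hh))
  have b2 : ‖∑' v, sg v‖ ≤ α :=
    (norm_tsum_le_tsum_norm hsgs).trans (Summable.tsum_le_tsum hsg hsgs (mass_summable _ hg))
  have b3 : ‖∑' p, KN p‖ ≤ α * β := by
    refine (norm_tsum_le_tsum_norm hKN.norm).trans ?_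
    refine (Summable.tsum_le_tsum hKNn hKN.norm hmm).trans ?_
    rw [hα, hβ, Summable.tsum_mul_tsum (mass_summable _ hg) (mass_summable _ hh) hmm]
  have hfin : c j ≤ ‖hat gC φ‖ * β + α * ‖hat hC φ‖ + α * β := by
    rw [← hval', hsum]
    refine (norm_add₃_le).trans ?_
    rw [norm_mul, norm_mul]
    gcongr
  -- final inequality
  have hcj := hc j
  have hs := hsmall j hjn
  have hMB : 0 < M / (4 * B) := by positivity
  rcases (add_nonneg hα0 hβ0).eq_or_lt with h0 | h0
  · have hα1 : α = 0 := by linarith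
    have hβ1 : β = 0 := by linarith
    rw [hα1, hβ1] at hfin
    simp only [mul_zero, zero_mul, add_zero] at hfin
    linarith
  · have h1 : ‖hat gC φ‖ * β + α * ‖hat hC φ‖ < M / (4 * B) * (α + β) := by
      rcases hα0.eq_or_lt with ha | ha
      · rw [← ha] at h0 ⊢
        rw [zero_add] at h0
        rw [zero_mul, add_zero, zero_add]
        exact mul_lt_mul_of_pos_right hcg h0
      · have e1 : α * ‖hat hC φ‖ < α * (M / (4 * B)) := mul_lt_mul_of_pos_left hch ha
        have e2 : ‖hat gC φ‖ * β ≤ M / (4 * B) * β := mul_le_mul_of_nonneg_right hcg.le hβ0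
        nlinarith
    have h2 : α * β ≤ (α + β) ^ 2 / 4 := by nlinarith [sq_nonneg (α - β)]
    have h3 : M / (4 * B) * (α + β) ≤ M / (4 * B) * (2 * B / M * c j) := by gcongr
    have h4 : M / (4 * B) * (2 * B / M * c j) = c j / 2 := by field_simp; ring
    have h5 : (α + β) ^ 2 / 4 ≤ (2 * B / M * c j) ^ 2 / 4 := by gcongr
    have h6 : (2 * B / M * c j) ^ 2 / 4 = (B ^ 2 / M ^ 2 * c j) * c j := by field_simp; ring
    have h7 : B ^ 2 / M ^ 2 * c j ≤ 1 / 2 := by
      calc B ^ 2 / M ^ 2 * c j ≤ B ^ 2 / M ^ 2 * (M ^ 2 / (2 * B ^ 2)) := by gcongr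
        _ = 1 / 2 := by field_simp
    nlinarith

end J549
end Pool.Agent.Helper976.Fac
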