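import Pool.Agent.Helper976.Fac.Defs

set_option autoImplicit false
open scoped BigOperators Topology
open Complex

namespace Pool.Agent.Helper976.Fac
namespace J550

section aux
variable {V : Type*} [AddCommGroup V] [LinearOrder V] [IsOrderedAddMonoid V]

lemma smono {τ v w : V} (h : Small τ v) (hw : |w| ≤ |v|) : Small τ w := fun N =>
  lt_of_le_of_lt (nsmul_le_nsmul_right hw N) (h N)

lemma sadd {τ v w : V} (hv : Small τ v) (hw : Small τ w) : Small τ (v + w) := by
  rcases le_total |v| |w| with h | h
  · intro N
    have h1 : |v + w| ≤ 2 • |w| := by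
      rw [two_nsmul]
      exact (abs_add_le v w).trans (add_le_add_left h _)
    calc N • |v + w| ≤ N • (2 • |w|) := nsmul_le_nsmul_right h1 N
      _ = (2 * N) • |w| := by rw [← mul_nsmul]
      _ < τ := hw _
  · intro N
    have h1 : |v + w| ≤ 2 • |v| := by
      rw [two_nsmul]
      exact (abs_add_le v w).trans (add_le_add_right h _)
    calc N • |v + w| ≤ N • (2 • |v|) := nsmul_le_nsmul_right h1 N
      _ = (2 * N) • |v| := by rw [← mul_nsmul]
      _ < τ := hv _

end aux

open Classical in
/-- PRODUCT below a scale. -/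
theorem prod_restr {V : Type*} [AddCommGroup V] [LinearOrder V] [IsOrderedAddMonoid V]
    (g h : V → ℂ) (hg : Summable fun v => ‖g v‖) (hh : Summable fun v => ‖h v‖)
    (hgpos : ∀ v, v ≤ 0 → g v = 0) (hhpos : ∀ v, v ≤ 0 → h v = 0)
    (c : ℕ → ℝ) (hc : ∀ i, 0 < c i) (hcs : Summable c)
    (τ : ℕ → V) (hτpos : ∀ i, 0 < τ i) (hτ : ∀ i, ∀ N : ℕ, N • τ (i + 1) < τ i)
    (hconv : ∀ v, ∑' w, g w * h (v - w) = ∑' i, if v = τ i then (c i : ℂ) else 0)
    (j : ℕ) :
    (∀ v, ∑' w, restr (τ j) g w * restr (τ j) h (v - w) =
        ∑' i, if v = τ (j + 1 + i) then (c (j + 1 + i) : ℂ) else 0) ∧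
    ∀ φ : V →+ ℝ, hat (restr (τ j) g) φ * hat (restr (τ j) h) φ =
      ∑' i, (c (j + 1 + i) : ℂ) * exp (I * (φ (τ (j + 1 + i)) : ℂ)) := by
  have hanti : StrictAnti τ := by
    apply strictAnti_nat_of_succ_lt
    intro n
    have := hτ n 1
    rwa [one_nsmul] at this
  have hsmall : ∀ i, Small (τ j) (τ (j + 1 + i)) := by
    intro i N
    rw [abs_of_pos (hτpos _)]
    have h1 : τ (j + 1 + i) ≤ τ (j + 1) := hanti.antitone (by omega)
    exact lt_of_le_of_lt (nsmul_le_nsmul_right h1 N) (hτ j N)
  have hnot : ∀ i, i ≤ j → ¬ Small (τ j) (τ i) := by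
    intro i hi h
    have h1 := h 1
    rw [one_nsmul, abs_of_pos (hτpos _)] at h1
    exact absurd (hanti.antitone hi) (not_le.mpr h1)
  have part1 : ∀ v, ∑' w, restr (τ j) g w * restr (τ j) h (v - w) =
        ∑' i, if v = τ (j + 1 + i) then (c (j + 1 + i) : ℂ) else 0 := by
    intro v
    by_cases hv : Small (τ j) v
    · have e1 : ∀ w, restr (τ j) g w * restr (τ j) h (v - w) = g w * h (v - w) := by
        intro w
        by_cases hw : 0 < w
        · by_cases hvw : 0 < v - w
          · have h0v : 0 < v := by
              have := add_pos hvw hw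
              rwa [sub_add_cancel] at this
            have s1 : Small (τ j) w := smono hv (by
              rw [abs_of_pos hw, abs_of_pos h0v]
              exact (sub_pos.mp hvw).le)
            have s2 : Small (τ j) (v - w) := smono hv (by
              rw [abs_of_pos hvw, abs_of_pos h0v]
              exact sub_le_self v hw.le)
            simp only [restr, if_pos s1, if_pos s2]
          · have : h (v - w) = 0 := hhpos _ (not_lt.mp hvw)
            simp [restr, this]
        · have : g w = 0 := hgpos _ (not_lt.mp hw)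
          simp [restr, this]
      rw [tsum_congr e1, hconv]
      have hinj : Function.Injective (fun i : ℕ => j + 1 + i) := fun a b hab => by
        simpa using hab
      have := hinj.tsum_eq (f := fun i => if v = τ i then (c i : ℂ) else 0) (by
        intro i hi
        rw [Function.mem_support] at hi
        have h1 : v = τ i := by
          by_contra hne
          exact hi (if_neg hne)
        have h2 : ¬ i ≤ j := fun hij => hnot i hij (h1 ▸ hv)
        exact ⟨i - (j + 1), by simp only; omega⟩)
      exact this.symm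
    · have e1 : ∀ w, restr (τ j) g w * restr (τ j) h (v - w) = 0 := by
        intro w
        by_cases s1 : Small (τ j) w
        · by_cases s2 : Small (τ j) (v - w)
          · exfalso
            apply hv
            have := sadd s2 s1
            rwa [sub_add_cancel] at this
          · simp [restr, s2]
        · simp [restr, s1]
      rw [tsum_congr e1, tsum_zero]
      symm
      have e2 : ∀ i, (if v = τ (j + 1 + i) then (c (j + 1 + i) : ℂ) else 0) = 0 := by
        intro i
        rw [if_neg]
        rintro rfl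
        exact hv (hsmall i)
      rw [tsum_congr e2, tsum_zero]
  refine ⟨part1, ?_⟩
  intro φ
  have hnormexp : ∀ v, ‖exp (I * (φ v : ℂ))‖ = 1 := by
    intro v
    rw [mul_comm, Complex.norm_exp_ofReal_mul_I]
  have hG : Summable fun v => ‖restr (τ j) g v * exp (I * (φ v : ℂ))‖ := by
    refine Summable.of_nonneg_of_le (fun v => norm_nonneg _) ?_ hg
    intro v
    rw [norm_mul, hnormexp, mul_one]
    unfold restr
    split_ifs
    · exact le_rfl
    · simp
  have hH : Summable fun v => ‖restr (τ j) h v * exp (I * (φ v : ℂ))‖ := by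
    refine Summable.of_nonneg_of_le (fun v => norm_nonneg _) ?_ hh
    intro v
    rw [norm_mul, hnormexp, mul_one]
    unfold restr
    split_ifs
    · exact le_rfl
    · simp
  unfold hat
  rw [tsum_mul_tsum_of_summable_norm hG hH]
  let e : V × V ≃ V × V :=
    { toFun := fun p => (p.2, p.1 - p.2)
      invFun := fun p => (p.1 + p.2, p.1)
      left_inv := fun p => by simp
      right_inv := fun p => by simp }
  have hsum := summable_mul_of_summable_norm hG hH
  rw [← e.tsum_eq]
  have hsum' := (e.summable_iff).mpr hsum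
  refine (Summable.tsum_prod hsum').trans ?_
  simp only [Function.comp_apply]
  have e3 : ∀ v w : V, restr (τ j) g (e (v, w)).1 * exp (I * (φ (e (v, w)).1 : ℂ)) *
      (restr (τ j) h (e (v, w)).2 * exp (I * (φ (e (v, w)).2 : ℂ))) =
      exp (I * (φ v : ℂ)) * (restr (τ j) g w * restr (τ j) h (v - w)) := by
    intro v w
    have e4 : exp (I * (φ v : ℂ)) = exp (I * (φ w : ℂ)) * exp (I * (φ (v - w) : ℂ)) := by
      rw [← Complex.exp_add, ← mul_add, ← Complex.ofReal_add, ← map_add]
      congr 3
      rw [add_sub_cancel]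
    change restr (τ j) g w * exp (I * (φ w : ℂ)) *
      (restr (τ j) h (v - w) * exp (I * (φ (v - w) : ℂ))) = _
    rw [e4]
    ring
  have e5 : ∀ v : V, ∑' w, restr (τ j) g (e (v, w)).1 * exp (I * (φ (e (v, w)).1 : ℂ)) *
      (restr (τ j) h (e (v, w)).2 * exp (I * (φ (e (v, w)).2 : ℂ))) =
      exp (I * (φ v : ℂ)) * ∑' i, (if v = τ (j + 1 + i) then (c (j + 1 + i) : ℂ) else 0) := by
    intro v
    rw [tsum_congr (e3 v), tsum_mul_left, part1]
  rw [tsum_congr e5]
  have hinj : Function.Injective (fun i : ℕ => τ (j + 1 + i)) := fun a b hab => by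
    have := hanti.injective hab
    omega
  have h6 := hinj.tsum_eq (f := fun v => exp (I * (φ v : ℂ)) *
      ∑' i, (if v = τ (j + 1 + i) then (c (j + 1 + i) : ℂ) else 0)) (by
    intro v hv
    rw [Function.mem_support] at hv
    by_contra hcon
    apply hv
    have e2 : ∀ i, (if v = τ (j + 1 + i) then (c (j + 1 + i) : ℂ) else 0) = 0 := by
      intro i
      rw [if_neg]
      rintro rfl
      exact hcon ⟨i, rfl⟩
    rw [tsum_congr e2, tsum_zero, mul_zero])
  rw [← h6]
  apply tsum_congr
  intro i
  have h7 : ∑' i', (if τ (j + 1 + i) = τ (j + 1 + i') then (c (j + 1 + i') : ℂ) else 0) =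
      c (j + 1 + i) := by
    rw [tsum_eq_single i]
    · simp
    · intro i' hi'
      rw [if_neg]
      intro hcon
      exact hi' (hinj hcon).symm
  rw [h7, mul_comm]

end J550
end Pool.Agent.Helper976.Fac
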