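import Pool.Agent.Helper976.Fac.Defs

set_option autoImplicit false
open scoped BigOperators Topology
open Complex

namespace Pool.Agent.Helper976.Fac
namespace J552

theorem root_sum (N : ℕ) (hN : 0 < N) (j : ℤ) (hj : |j| < N) :
    ∑ k ∈ Finset.range N, exp (I * (((2 * Real.pi * k / N) * j : ℝ) : ℂ)) =
      if j = 0 then (N : ℂ) else 0 := by
  have hN' : (N : ℂ) ≠ 0 := by exact_mod_cast hN.ne'
  set ω : ℂ := exp (2 * Real.pi * I * (j / N)) with hω
  have h1 : ∀ k ∈ Finset.range N, exp (I * (((2 * Real.pi * k / N) * j : ℝ) : ℂ)) = ω ^ k := by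
    intro k _
    rw [hω, ← Complex.exp_nat_mul]
    congr 1
    push_cast
    ring
  rw [Finset.sum_congr rfl h1]
  split_ifs with h0
  · have : ω = 1 := by rw [hω, h0]; simp
    rw [this]
    simp
  · have hω1 : ω ≠ 1 := by
      intro h
      rw [hω, Complex.exp_eq_one_iff] at h
      obtain ⟨n, hn⟩ := h
      have h2 : (j : ℂ) / N = n := by
        have hpi : (2 * Real.pi * I : ℂ) ≠ 0 := by simp [Real.pi_ne_zero]
        have : (2 * Real.pi * I : ℂ) * (j / N) = (2 * Real.pi * I) * n := by rw [hn]; ring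
        exact mul_left_cancel₀ hpi this
      rw [div_eq_iff hN'] at h2
      have h3 : j = n * N := by exact_mod_cast h2
      rcases eq_or_ne n 0 with rfl | hn0
      · exact h0 (by rw [h3]; simp)
      · have h4 : 1 ≤ |n| := Int.one_le_abs hn0
        have h5 : (N : ℤ) ≤ |j| := by
          rw [h3, abs_mul, Nat.abs_cast]
          nlinarith [Int.natCast_pos.2 hN]
        omega
    have hωN : ω ^ N = 1 := by
      rw [hω, ← Complex.exp_nat_mul, Complex.exp_eq_one_iff]
      exact ⟨j, by field_simp⟩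
    have := mul_neg_geom_sum ω N
    rw [hωN, sub_self] at this
    rcases mul_eq_zero.1 this with h | h
    · exact absurd (sub_eq_zero.1 h).symm hω1
    · exact h

/-- finite Parseval identity -/
theorem parseval {V : Type*} (S : Finset V) (c : V → ℂ) (m : V → ℤ) (N : ℕ) (hN : 0 < N)
    (hinj : ∀ v ∈ S, ∀ v' ∈ S, m v = m v' → v = v')
    (hlt : ∀ v ∈ S, ∀ v' ∈ S, |m v - m v'| < N) :
    ∑ k ∈ Finset.range N, ‖∑ v ∈ S, c v * exp (I * (((2 * Real.pi * k / N) * m v : ℝ) : ℂ))‖ ^ 2 =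
      N * ∑ v ∈ S, ‖c v‖ ^ 2 := by
  classical
  have key : (∑ k ∈ Finset.range N,
      ((‖∑ v ∈ S, c v * exp (I * (((2 * Real.pi * k / N) * m v : ℝ) : ℂ))‖ ^ 2 : ℝ) : ℂ)) =
      ((N * ∑ v ∈ S, ‖c v‖ ^ 2 : ℝ) : ℂ) := by
    have h1 : ∀ k ∈ Finset.range N,
        ((‖∑ v ∈ S, c v * exp (I * (((2 * Real.pi * k / N) * m v : ℝ) : ℂ))‖ ^ 2 : ℝ) : ℂ) =
        ∑ v ∈ S, ∑ v' ∈ S, c v * (starRingEnd ℂ) (c v') *
          exp (I * (((2 * Real.pi * k / N) * ((m v - m v' : ℤ) : ℝ) : ℝ) : ℂ)) := by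
      intro k _
      push_cast
      rw [← Complex.mul_conj', map_sum, Finset.sum_mul_sum]
      refine Finset.sum_congr rfl fun v _ => Finset.sum_congr rfl fun v' _ => ?_
      rw [map_mul, ← Complex.exp_conj]
      have : (starRingEnd ℂ) (I * (2 * Real.pi * k / N * (m v'))) =
          -(I * (2 * Real.pi * k / N * (m v'))) := by
        simp only [map_mul, map_div₀, Complex.conj_I, Complex.conj_ofReal, map_natCast, map_ofNat,
          map_intCast]
        ring
      rw [this, mul_mul_mul_comm, ← Complex.exp_add]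
      congr 2
      ring
    rw [Finset.sum_congr rfl h1, Finset.sum_comm]
    have h2 : ∀ v ∈ S, ∑ k ∈ Finset.range N, ∑ v' ∈ S, c v * (starRingEnd ℂ) (c v') *
          exp (I * (((2 * Real.pi * k / N) * ((m v - m v' : ℤ) : ℝ) : ℝ) : ℂ)) =
          N * (c v * (starRingEnd ℂ) (c v)) := by
      intro v hv
      rw [Finset.sum_comm]
      have h3 : ∀ v' ∈ S, ∑ k ∈ Finset.range N, c v * (starRingEnd ℂ) (c v') *
          exp (I * (((2 * Real.pi * k / N) * ((m v - m v' : ℤ) : ℝ) : ℝ) : ℂ)) =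
          if v' = v then N * (c v * (starRingEnd ℂ) (c v)) else 0 := by
        intro v' hv'
        rw [← Finset.mul_sum, root_sum N hN _ (hlt v hv v' hv')]
        by_cases h : v' = v
        · subst h
          simp
          ring
        · rw [if_neg h, if_neg, mul_zero]
          intro h0
          exact h (hinj v hv v' hv' (sub_eq_zero.1 h0)).symm
      rw [Finset.sum_congr rfl h3, Finset.sum_ite_eq' S v, if_pos hv]
    rw [Finset.sum_congr rfl h2, ← Finset.mul_sum]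
    push_cast
    congr 1
    refine Finset.sum_congr rfl fun v _ => ?_
    rw [Complex.mul_conj']
  exact_mod_cast key

/-- an additive functional which is integer valued and injective on a finite set -/
theorem exists_int_functional {V : Type*} [AddCommGroup V] [Module ℚ V] (S : Finset V) :
    ∃ (φ : V →+ ℝ) (m : V → ℤ), (∀ v ∈ S, φ v = m v) ∧
      (∀ v ∈ S, ∀ v' ∈ S, m v = m v' → v = v') := by
  classical
  set P : Finset (V × V) := (S ×ˢ S).filter (fun p => p.1 ≠ p.2) with hP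
  obtain ⟨f, hf⟩ := Module.exists_dual_forall_apply_ne_zero (K := ℚ) (M := V) (ι := P)
    (fun p => p.1.1 - p.1.2) (fun p => sub_ne_zero.2 (Finset.mem_filter.1 p.2).2)
  set D : ℕ := ∏ v ∈ S, (f v).den with hD
  have hD0 : (D : ℚ) ≠ 0 := by
    rw [hD]
    push_cast
    exact Finset.prod_ne_zero_iff.2 fun v _ => by exact_mod_cast (f v).den_nz
  refine ⟨(algebraMap ℚ ℝ : ℚ →+ ℝ).comp ((D : ℚ) • f).toAddMonoidHom,
    fun v => ((D : ℚ) * f v).num, ?_, ?_⟩
  · intro v hv
    have h1 : (((D : ℚ) * f v).num : ℚ) = (D : ℚ) * f v := by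
      have : ∃ z : ℤ, (z : ℚ) = (D : ℚ) * f v := by
        refine ⟨(∏ w ∈ S.erase v, (f w).den : ℕ) * (f v).num, ?_⟩
        rw [hD, ← Finset.mul_prod_erase S _ hv]
        push_cast
        have := Rat.mul_den_eq_num (f v)
        linear_combination (-(∏ w ∈ S.erase v, ((f w).den : ℚ))) * this
      obtain ⟨z, hz⟩ := this
      rw [← hz]
      simp
    change ((((D : ℚ) • f) v : ℚ) : ℝ) = _
    have h2 : (((D : ℚ) • f) v : ℚ) = (D : ℚ) * f v := rfl
    rw [h2, ← h1]
    simp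
  · intro v hv v' hv' h
    by_contra hne
    have h1 : ∀ v ∈ S, (((D : ℚ) * f v).num : ℚ) = (D : ℚ) * f v := by
      intro v hv
      have : ∃ z : ℤ, (z : ℚ) = (D : ℚ) * f v := by
        refine ⟨(∏ w ∈ S.erase v, (f w).den : ℕ) * (f v).num, ?_⟩
        rw [hD, ← Finset.mul_prod_erase S _ hv]
        push_cast
        have := Rat.mul_den_eq_num (f v)
        linear_combination (-(∏ w ∈ S.erase v, ((f w).den : ℚ))) * this
      obtain ⟨z, hz⟩ := this
      rw [← hz]
      simp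
    have h2 : (D : ℚ) * f v = (D : ℚ) * f v' := by
      rw [← h1 v hv, ← h1 v' hv']
      exact_mod_cast h
    have h3 := mul_left_cancel₀ hD0 h2
    apply hf ⟨(v, v'), by simp [hP, hv, hv', hne]⟩
    simp only
    rw [map_sub, h3, sub_self]


/-- the finite case -/
theorem finite_core {V : Type*} [AddCommGroup V] [Module ℚ V] (F G S : Finset V) (h u : V → ℂ)
    (hS : ∀ w ∈ F, ∀ g ∈ G, w + g ∈ S) (δ : ℝ) (hδ : 0 ≤ δ)
    (hlow : ∀ φ : V →+ ℝ, δ ≤ ‖∑ w ∈ F, h w * exp (I * (φ w : ℂ))‖)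
    (hu : ∀ v, v ∉ G → u v = 0) :
    δ ^ 2 * ∑ g ∈ G, ‖u g‖ ^ 2 ≤ ∑ v ∈ S, ‖∑ w ∈ F, h w * u (v - w)‖ ^ 2 := by
  classical
  obtain ⟨φ, m, hm, hinj⟩ := exists_int_functional (S ∪ F ∪ G)
  set T := S ∪ F ∪ G with hT
  obtain ⟨N, hN⟩ : ∃ N : ℕ, ∀ v ∈ T, ∀ v' ∈ T, |m v - m v'| < N := by
    refine ⟨∑ p ∈ T ×ˢ T, (m p.1 - m p.2).natAbs + 1, fun v hv v' hv' => ?_⟩
    have h1 : (m v - m v').natAbs ≤ ∑ p ∈ T ×ˢ T, (m p.1 - m p.2).natAbs :=
      Finset.single_le_sum (f := fun p : V × V => (m p.1 - m p.2).natAbs)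
        (fun _ _ => Nat.zero_le _) (Finset.mk_mem_product hv hv')
    rw [Int.abs_eq_natAbs]
    omega
  have hNpos : 0 < N + 1 := Nat.succ_pos N
  set M := N + 1 with hM
  have hlt : ∀ v ∈ T, ∀ v' ∈ T, |m v - m v'| < M := fun v hv v' hv' => by
    have := hN v hv v' hv'
    omega
  have hFT : F ⊆ T := fun x hx => by simp [hT, hx]
  have hGT : G ⊆ T := fun x hx => by simp [hT, hx]
  have hST : S ⊆ T := fun x hx => by simp [hT, hx]
  set c : V → ℂ := fun v => ∑ w ∈ F, h w * u (v - w) with hc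
  -- the characters
  have hψ : ∀ k : ℕ, ∃ ψ : V →+ ℝ, ∀ v ∈ T, ψ v = (2 * Real.pi * k / M) * m v := by
    intro k
    refine ⟨(AddMonoidHom.mulLeft (2 * Real.pi * k / M)).comp φ, fun v hv => ?_⟩
    change (2 * Real.pi * k / M) * φ v = _
    rw [hm v hv]
  -- product formula
  have hprod : ∀ k : ℕ, ∑ v ∈ S, c v * exp (I * (((2 * Real.pi * k / M) * m v : ℝ) : ℂ)) =
      (∑ w ∈ F, h w * exp (I * (((2 * Real.pi * k / M) * m w : ℝ) : ℂ))) *
      (∑ g ∈ G, u g * exp (I * (((2 * Real.pi * k / M) * m g : ℝ) : ℂ))) := by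
    intro k
    obtain ⟨ψ, hψ⟩ := hψ k
    have e1 : ∑ v ∈ S, c v * exp (I * (((2 * Real.pi * k / M) * m v : ℝ) : ℂ)) =
        ∑ v ∈ S, ∑ w ∈ F, h w * u (v - w) * exp (I * (ψ v : ℂ)) := by
      refine Finset.sum_congr rfl fun v hv => ?_
      rw [hψ v (hST hv), hc, Finset.sum_mul]
    have e2 : ∑ w ∈ F, h w * exp (I * (((2 * Real.pi * k / M) * m w : ℝ) : ℂ)) =
        ∑ w ∈ F, h w * exp (I * (ψ w : ℂ)) :=
      Finset.sum_congr rfl fun w hw => by rw [hψ w (hFT hw)]
    have e3 : ∑ g ∈ G, u g * exp (I * (((2 * Real.pi * k / M) * m g : ℝ) : ℂ)) =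
        ∑ g ∈ G, u g * exp (I * (ψ g : ℂ)) :=
      Finset.sum_congr rfl fun w hw => by rw [hψ w (hGT hw)]
    rw [e1, e2, e3, Finset.sum_comm, Finset.sum_mul]
    refine Finset.sum_congr rfl fun w hw => ?_
    rw [Finset.mul_sum]
    -- sum over v in S equals sum over g in G
    have e4 : ∑ v ∈ S, h w * u (v - w) * exp (I * (ψ v : ℂ)) =
        ∑ v ∈ G.image (fun g => w + g), h w * u (v - w) * exp (I * (ψ v : ℂ)) := by
      symm
      apply Finset.sum_subset
      · intro x hx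
        obtain ⟨g, hg, rfl⟩ := Finset.mem_image.1 hx
        exact hS w hw g hg
      · intro x _ hx
        rw [hu, mul_zero, zero_mul]
        intro hxg
        apply hx
        exact Finset.mem_image.2 ⟨x - w, hxg, by abel⟩
    rw [e4, Finset.sum_image (fun a _ b _ hab => add_left_cancel hab)]
    refine Finset.sum_congr rfl fun g _ => ?_
    rw [add_sub_cancel_left, map_add]
    push_cast
    rw [mul_add, Complex.exp_add]
    ring
  have P1 := parseval S c m M hNpos (fun v hv v' hv' => hinj v (hST hv) v' (hST hv'))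
    (fun v hv v' hv' => hlt v (hST hv) v' (hST hv'))
  have P2 := parseval G u m M hNpos (fun v hv v' hv' => hinj v (hGT hv) v' (hGT hv'))
    (fun v hv v' hv' => hlt v (hGT hv) v' (hGT hv'))
  have hk : ∀ k ∈ Finset.range M,
      δ ^ 2 * ‖∑ g ∈ G, u g * exp (I * (((2 * Real.pi * k / M) * m g : ℝ) : ℂ))‖ ^ 2 ≤
      ‖∑ v ∈ S, c v * exp (I * (((2 * Real.pi * k / M) * m v : ℝ) : ℂ))‖ ^ 2 := by
    intro k _
    rw [hprod k, norm_mul, mul_pow]
    apply mul_le_mul_of_nonneg_right _ (by positivity)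
    apply pow_le_pow_left₀ hδ
    obtain ⟨ψ, hψ⟩ := hψ k
    have e2 : ∑ w ∈ F, h w * exp (I * (((2 * Real.pi * k / M) * m w : ℝ) : ℂ)) =
        ∑ w ∈ F, h w * exp (I * (ψ w : ℂ)) :=
      Finset.sum_congr rfl fun w hw => by rw [hψ w (hFT hw)]
    rw [e2]
    exact hlow ψ
  have hsum := Finset.sum_le_sum hk
  rw [← Finset.mul_sum, P1, P2] at hsum
  have hMp : (0 : ℝ) < M := by exact_mod_cast hNpos
  have : (M : ℝ) * (δ ^ 2 * ∑ g ∈ G, ‖u g‖ ^ 2) ≤ M * ∑ v ∈ S, ‖c v‖ ^ 2 := by linarith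
  exact le_of_mul_le_mul_left this hMp

/-- `l²(V)` -/
noncomputable abbrev L2 (V : Type*) := lp (fun _ : V => ℂ) 2

theorem L2_summable {V : Type*} (f : L2 V) : Summable fun v => ‖f v‖ ^ 2 := by
  have := (lp.memℓp f).summable (by norm_num)
  simpa using this

theorem L2_norm {V : Type*} (f : L2 V) : ‖f‖ ^ 2 = ∑' v, ‖f v‖ ^ 2 := by
  have := lp.norm_rpow_eq_tsum (p := 2) (by norm_num) f
  simpa using this

/-- an element of `l²` -/
noncomputable def mkL2 {V : Type*} (u : V → ℂ) (hu : Summable fun v => ‖u v‖ ^ 2) : L2 V :=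
  ⟨u, memℓp_gen (by simpa using hu)⟩

theorem mkL2_apply {V : Type*} (u : V → ℂ) (hu : Summable fun v => ‖u v‖ ^ 2) (v : V) :
    mkL2 u hu v = u v := rfl

/-- translation -/
noncomputable def T {V : Type*} [AddCommGroup V] (w : V) : L2 V →L[ℂ] L2 V :=
  LinearMap.mkContinuous
    { toFun := fun f => mkL2 (fun v => f (v - w))
        ((Equiv.subRight w).summable_iff.2 (L2_summable f))
      map_add' := fun f g => by ext v; rfl
      map_smul' := fun c f => by ext v; rfl } 1 (by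
      intro f
      rw [one_mul]
      apply le_of_sq_le_sq _ (norm_nonneg _)
      rw [L2_norm, L2_norm]
      apply le_of_eq
      exact (Equiv.subRight w).tsum_eq (fun v => ‖f v‖ ^ 2))


theorem T_apply {V : Type*} [AddCommGroup V] (w : V) (f : L2 V) (v : V) : T w f v = f (v - w) := rfl

theorem T_norm {V : Type*} [AddCommGroup V] (w : V) : ‖(T w : L2 V →L[ℂ] L2 V)‖ ≤ 1 :=
  LinearMap.mkContinuous_norm_le _ zero_le_one _

theorem hat_finset {V : Type*} [AddCommGroup V] (h : V → ℂ) (hh : Summable fun v => ‖h v‖)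
    (F : Finset V) (φ : V →+ ℝ) :
    ‖hat h φ‖ - ∑' v : {x // x ∉ F}, ‖h v‖ ≤ ‖∑ w ∈ F, h w * exp (I * (φ w : ℂ))‖ := by
  have hn : ∀ v, ‖h v * exp (I * (φ v : ℂ))‖ = ‖h v‖ := by
    intro v
    rw [norm_mul, mul_comm I, Complex.norm_exp_ofReal_mul_I, mul_one]
  have hs : Summable fun v => h v * exp (I * (φ v : ℂ)) := by
    apply Summable.of_norm
    simpa only [hn] using hh
  have h1 := hs.sum_add_tsum_subtype_compl F
  have h2 : ‖∑' v : {x // x ∉ F}, h v * exp (I * (φ v : ℂ))‖ ≤ ∑' v : {x // x ∉ F}, ‖h v‖ := by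
    have h3 : Summable fun v : {x // x ∉ F} => ‖h v‖ := hh.subtype _
    have h4 : Summable fun v : {x // x ∉ F} => ‖h v * exp (I * (φ v : ℂ))‖ := by
      simpa only [hn] using h3
    refine (norm_tsum_le_tsum_norm h4).trans (le_of_eq ?_)
    simp only [hn]
  unfold hat
  rw [← h1]
  have := norm_add_le (∑ w ∈ F, h w * exp (I * (φ w : ℂ)))
    (∑' v : {x // x ∉ F}, h v * exp (I * (φ v : ℂ)))
  linarith

/-- (O1) lower bound in l2. -/
theorem l2_lower {V : Type*} [AddCommGroup V] [Module ℚ V] (h : V → ℂ)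
    (hh : Summable fun v => ‖h v‖) (d : ℝ) (hd : 0 < d)
    (hlow : ∀ φ : V →+ ℝ, d ≤ ‖hat h φ‖) (u : V → ℂ) (hu : Summable fun v => ‖u v‖ ^ 2) :
    Summable (fun v => ‖∑' w, h w * u (v - w)‖ ^ 2) ∧
      d ^ 2 * ∑' v, ‖u v‖ ^ 2 ≤ ∑' v, ‖∑' w, h w * u (v - w)‖ ^ 2 := by
  classical
  have hsum : Summable fun w => h w • (T w : L2 V →L[ℂ] L2 V) := by
    apply Summable.of_norm_bounded hh
    intro w
    rw [norm_smul]
    calc ‖h w‖ * ‖(T w : L2 V →L[ℂ] L2 V)‖ ≤ ‖h w‖ * 1 := by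
          gcongr
          exact T_norm w
      _ = _ := mul_one _
  set H : L2 V →L[ℂ] L2 V := ∑' w, h w • (T w : L2 V →L[ℂ] L2 V) with hH
  have hHs : HasSum (fun w => h w • (T w : L2 V →L[ℂ] L2 V)) H := hsum.hasSum
  have hHf : ∀ f : L2 V, HasSum (fun w => h w • (T w f)) (H f) := by
    intro f
    have := (ContinuousLinearMap.apply ℂ (L2 V) f).hasSum hHs
    simpa using this
  have hHv : ∀ (f : L2 V) (v : V), HasSum (fun w => h w * f (v - w)) (H f v) := by
    intro f v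
    have := (lp.evalCLM ℂ (fun _ : V => ℂ) 2 v).hasSum (hHf f)
    exact this
  -- the finite operators
  have hfin : ∀ (F G : Finset V) (f : L2 V), (∀ v, v ∉ G → f v = 0) →
      (d - ∑' v : {x // x ∉ F}, ‖h v‖) * ‖f‖ ≤ ‖(∑ w ∈ F, h w • (T w : L2 V →L[ℂ] L2 V)) f‖ := by
    intro F G f hf
    set ε := ∑' v : {x // x ∉ F}, ‖h v‖ with hε
    rcases le_or_gt (d - ε) 0 with hneg | hpos
    · exact (mul_nonpos_of_nonpos_of_nonneg hneg (norm_nonneg _)).trans (norm_nonneg _)
    · set S : Finset V := (F ×ˢ G).image (fun p => p.1 + p.2) with hS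
      have hval : ∀ v, ((∑ w ∈ F, h w • (T w : L2 V →L[ℂ] L2 V)) f) v =
          ∑ w ∈ F, h w * f (v - w) := by
        intro v
        rw [ContinuousLinearMap.sum_apply, lp.coeFn_sum, Finset.sum_apply]
        rfl
      have hcore := finite_core F G S h f
        (fun w hw g hg => Finset.mem_image.2 ⟨(w, g), Finset.mk_mem_product hw hg, rfl⟩)
        (d - ε) hpos.le (fun φ => by
          have := hat_finset h hh F φ
          have := hlow φ
          linarith) hf
      apply le_of_sq_le_sq _ (norm_nonneg _)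
      rw [mul_pow, L2_norm, L2_norm]
      have e1 : ∑' v, ‖f v‖ ^ 2 = ∑ v ∈ G, ‖f v‖ ^ 2 := by
        apply tsum_eq_sum
        intro v hv
        rw [hf v hv]; simp
      rw [e1]
      refine hcore.trans ?_
      simp only [hval]
      apply Summable.sum_le_tsum
      · intro _ _; positivity
      · have := L2_summable ((∑ w ∈ F, h w • (T w : L2 V →L[ℂ] L2 V)) f)
        simpa only [hval] using this
  have hfull : ∀ f : L2 V, d * ‖f‖ ≤ ‖H f‖ := by
    intro f
    -- truncation in f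
    have hstep : ∀ (G : Finset V) (f : L2 V), (∀ v, v ∉ G → f v = 0) → d * ‖f‖ ≤ ‖H f‖ := by
      intro G f hf
      have t1 : Filter.Tendsto (fun F : Finset V =>
          (d - ∑' v : {x // x ∉ F}, ‖h v‖) * ‖f‖) Filter.atTop (𝓝 ((d - 0) * ‖f‖)) := by
        apply Filter.Tendsto.mul_const
        apply Filter.Tendsto.const_sub
        exact tendsto_tsum_compl_atTop_zero (fun v => ‖h v‖)
      have t2 : Filter.Tendsto (fun F : Finset V =>
          ‖(∑ w ∈ F, h w • (T w : L2 V →L[ℂ] L2 V)) f‖) Filter.atTop (𝓝 ‖H f‖) := by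
        have t3 : Filter.Tendsto (fun F : Finset V => ∑ w ∈ F, h w • (T w : L2 V →L[ℂ] L2 V))
          Filter.atTop (𝓝 H) := hHs
        have := ((ContinuousLinearMap.apply ℂ (L2 V) f).continuous.tendsto H).comp t3
        exact this.norm
      rw [sub_zero] at t1
      exact le_of_tendsto_of_tendsto' t1 t2 (fun F => hfin F G f hf)
    have hs := lp.hasSum_single (E := fun _ : V => ℂ) (p := 2) (by norm_num) f
    have t1 : Filter.Tendsto (fun G : Finset V => ∑ i ∈ G, lp.single 2 i (f i))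
      Filter.atTop (𝓝 f) := hs
    have t2 : Filter.Tendsto (fun G : Finset V => d * ‖∑ i ∈ G, lp.single 2 i (f i)‖)
      Filter.atTop (𝓝 (d * ‖f‖)) := t1.norm.const_mul d
    have t3 : Filter.Tendsto (fun G : Finset V => ‖H (∑ i ∈ G, lp.single 2 i (f i))‖)
      Filter.atTop (𝓝 ‖H f‖) := ((H.continuous.tendsto f).comp t1).norm
    refine le_of_tendsto_of_tendsto' t2 t3 (fun G => hstep G _ ?_)
    intro v hv
    rw [lp.coeFn_sum, Finset.sum_apply]
    apply Finset.sum_eq_zero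
    intro i hi
    rw [lp.single_apply_ne]
    rintro rfl
    exact hv hi
  set f := mkL2 u hu with hf
  have hval : ∀ v, ∑' w, h w * u (v - w) = H f v := fun v => (hHv f v).tsum_eq
  simp only [hval]
  refine ⟨L2_summable _, ?_⟩
  rw [← L2_norm (H f)]
  have h1 : ∑' v, ‖u v‖ ^ 2 = ‖f‖ ^ 2 := (L2_norm f).symm
  rw [h1, ← mul_pow]
  exact pow_le_pow_left₀ (by positivity) (hfull f) 2

end J552
end Pool.Agent.Helper976.Fac
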