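import Pool.Agent.Helper976.Fac.Defs
import Pool.Agent.Helper976.Fac.J552

set_option autoImplicit false
open scoped BigOperators Topology
open Complex

namespace Pool.Agent.Helper976.Fac
namespace J553
open J552

/-! ### the l2 space and convolution operators -/

noncomputable section

theorem two_toReal : (2 : ENNReal).toReal = 2 := by simp

theorem memlp2_iff {V : Type*} (u : V → ℂ) :
    Memℓp u 2 ↔ Summable (fun v => ‖u v‖ ^ 2) := by
  rw [memℓp_gen_iff (by simp)]
  simp only [two_toReal, Real.rpow_ofNat]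

theorem norm_sq2 {V : Type*} (u : lp (fun _ : V => ℂ) 2) :
    ‖u‖ ^ 2 = ∑' v, ‖u v‖ ^ 2 := by
  have := lp.norm_rpow_eq_tsum (p := 2) (by simp) u
  simpa only [two_toReal, Real.rpow_ofNat] using this

theorem summable_shift {V : Type*} [AddCommGroup V] (w : V) {f : V → ℝ} (hf : Summable f) :
    Summable (fun v => f (v - w)) :=
  (Equiv.subRight w).summable_iff.2 hf

theorem tsum_shift {V : Type*} [AddCommGroup V] (w : V) (f : V → ℝ) :
    ∑' v, f (v - w) = ∑' v, f v :=
  (Equiv.subRight w).tsum_eq f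

def shiftL {V : Type*} [AddCommGroup V] (w : V) :
    lp (fun _ : V => ℂ) 2 →ₗᵢ[ℂ] lp (fun _ : V => ℂ) 2 where
  toFun u := ⟨fun v => u (v - w), (memlp2_iff _).2
    (summable_shift w ((memlp2_iff _).1 (lp.memℓp u)))⟩
  map_add' u u' := by
    ext v
    simp
  map_smul' c u := by
    ext v
    simp
  norm_map' u := by
    have h : ∀ a b : ℝ, 0 ≤ a → 0 ≤ b → a ^ 2 = b ^ 2 → a = b := fun a b ha hb hab =>
      (pow_left_inj₀ ha hb two_ne_zero).1 hab
    refine h _ _ (norm_nonneg _) (norm_nonneg _) ?_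
    rw [norm_sq2, norm_sq2]
    exact tsum_shift w fun v => ‖u v‖ ^ 2

theorem shiftL_apply {V : Type*} [AddCommGroup V] (w : V) (u : lp (fun _ : V => ℂ) 2) (v : V) :
    (shiftL w u) v = u (v - w) := rfl

def shiftC {V : Type*} [AddCommGroup V] (w : V) :
    lp (fun _ : V => ℂ) 2 →L[ℂ] lp (fun _ : V => ℂ) 2 := (shiftL w).toContinuousLinearMap

theorem norm_shiftC_le {V : Type*} [AddCommGroup V] (w : V) : ‖shiftC w‖ ≤ 1 :=
  (shiftL w).norm_toContinuousLinearMap_le

def convOp {V : Type*} [AddCommGroup V] (h : V → ℂ) :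
    lp (fun _ : V => ℂ) 2 →L[ℂ] lp (fun _ : V => ℂ) 2 := ∑' w, h w • shiftC w

theorem summable_convOp {V : Type*} [AddCommGroup V] (h : V → ℂ)
    (hh : Summable fun v => ‖h v‖) : Summable fun w => h w • shiftC w := by
  refine Summable.of_norm_bounded hh fun w => ?_
  rw [norm_smul]
  calc ‖h w‖ * ‖shiftC w‖ ≤ ‖h w‖ * 1 := by
        gcongr
        exact norm_shiftC_le w
    _ = ‖h w‖ := mul_one _

theorem convOp_apply {V : Type*} [AddCommGroup V] (h : V → ℂ)
    (hh : Summable fun v => ‖h v‖) (u : lp (fun _ : V => ℂ) 2) (v : V) :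
    (convOp h u) v = ∑' w, h w * u (v - w) := by
  have h1 := (summable_convOp h hh).hasSum
  have h2 : HasSum (fun w => (h w • shiftC w) u) (convOp h u) :=
    h1.mapL (ContinuousLinearMap.apply ℂ _ u)
  have h3 : HasSum (fun w => ((h w • shiftC w) u) v) ((convOp h u) v) :=
    h2.mapL (lp.evalCLM ℂ (fun _ : V => ℂ) 2 v)
  exact h3.tsum_eq.symm

theorem convOp_lower {V : Type*} [AddCommGroup V] [Module ℚ V] (h : V → ℂ)
    (hh : Summable fun v => ‖h v‖) (d : ℝ) (hd : 0 < d)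
    (hlow : ∀ φ : V →+ ℝ, d ≤ ‖hat h φ‖) (u : lp (fun _ : V => ℂ) 2) :
    d * ‖u‖ ≤ ‖convOp h u‖ := by
  have h1 := (l2_lower h hh d hd hlow u ((memlp2_iff _).1 (lp.memℓp u))).2
  have h2 : (d * ‖u‖) ^ 2 ≤ ‖convOp h u‖ ^ 2 := by
    rw [mul_pow, norm_sq2, norm_sq2]
    simpa only [convOp_apply h hh] using h1
  exact (pow_le_pow_iff_left₀ (by positivity) (norm_nonneg _) two_ne_zero).1 h2

open Classical in
theorem convOp_single {V : Type*} [AddCommGroup V] (h : V → ℂ)
    (hh : Summable fun v => ‖h v‖) (x v : V) :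
    (convOp h (lp.single 2 x (1 : ℂ))) v = h (v - x) := by
  rw [convOp_apply h hh, tsum_eq_single (v - x)]
  · rw [sub_sub_cancel, lp.single_apply_self, mul_one]
  · intro y hy
    rw [lp.single_apply_ne, mul_zero]
    intro hyx
    exact hy (by rw [← hyx, sub_sub_cancel])

theorem convOp_surjective {V : Type*} [AddCommGroup V] [Module ℚ V] (h : V → ℂ)
    (hh : Summable fun v => ‖h v‖) (d : ℝ) (hd : 0 < d)
    (hlow : ∀ φ : V →+ ℝ, d ≤ ‖hat h φ‖) : Function.Surjective (convOp h) := by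
  classical
  have hlb := convOp_lower h hh d hd hlow
  have hanti : AntilipschitzWith (Real.toNNReal d⁻¹) (convOp h) := by
    apply ContinuousLinearMap.antilipschitz_of_bound
    intro x
    rw [Real.coe_toNNReal _ (by positivity), ← div_eq_inv_mul, le_div_iff₀ hd, mul_comm]
    exact hlb x
  have hcl : IsClosed (Set.range (convOp h)) := hanti.isClosed_range (convOp h).uniformContinuous
  have hcl' : IsClosed ((LinearMap.range (convOp h : lp (fun _ : V => ℂ) 2 →ₗ[ℂ] lp (fun _ : V => ℂ) 2) : Submodule ℂ (lp (fun _ : V => ℂ) 2)) : Set (lp (fun _ : V => ℂ) 2)) := by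
    rw [LinearMap.coe_range]
    exact hcl
  have hbot : (LinearMap.range (convOp h : lp (fun _ : V => ℂ) 2 →ₗ[ℂ] lp (fun _ : V => ℂ) 2))ᗮ = ⊥ := by
    rw [Submodule.eq_bot_iff]
    intro w hw
    have h1 : ∀ x, ∑' v, (starRingEnd ℂ (w v)) * h (v - x) = 0 := by
      intro x
      have h2 := Submodule.inner_left_of_mem_orthogonal (𝕜 := ℂ)
        (LinearMap.mem_range_self (convOp h : lp (fun _ : V => ℂ) 2 →ₗ[ℂ] lp (fun _ : V => ℂ) 2)
          (lp.single 2 x (1 : ℂ))) hw
      rw [lp.inner_eq_tsum] at h2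
      rw [← h2]
      congr 1
      ext v
      rw [RCLike.inner_apply, mul_comm]
      congr 1
      exact (convOp_single h hh x v).symm
    set w' : lp (fun _ : V => ℂ) 2 := ⟨fun v => starRingEnd ℂ (w (-v)), (memlp2_iff _).2 (by
      have := (Equiv.neg V).summable_iff.2 ((memlp2_iff _).1 (lp.memℓp w))
      simpa [Function.comp_def] using this)⟩ with hw'
    have h3 : convOp h w' = 0 := by
      ext v
      rw [convOp_apply h hh]
      show ∑' y, h y * starRingEnd ℂ (w (-(v - y))) = 0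
      rw [← h1 (-v)]
      have := (Equiv.addLeft (-v)).tsum_eq (fun y => starRingEnd ℂ (w y) * h (y - -v))
      rw [← this]
      congr 1
      ext y
      have e1 : -(v - y) = -v + y := by abel
      have e2 : -v + y - -v = y := by abel
      simp only [Equiv.coe_addLeft, e1, e2]
      rw [mul_comm]
    have h4 : w' = 0 := by
      have := hlb w'
      rw [h3, norm_zero] at this
      have h5 : ‖w'‖ ≤ 0 := by
        by_contra hcon
        push Not at hcon
        nlinarith [mul_pos hd hcon]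
      exact norm_le_zero_iff.1 h5
    ext v
    have h6 : w' (-v) = 0 := by rw [h4]; rfl
    have h7 : starRingEnd ℂ (w (- -v)) = 0 := h6
    rw [neg_neg] at h7
    simpa using h7
  have htop : LinearMap.range (convOp h : lp (fun _ : V => ℂ) 2 →ₗ[ℂ] lp (fun _ : V => ℂ) 2) = ⊤ := by
    have hcomp : CompleteSpace (LinearMap.range (convOp h : lp (fun _ : V => ℂ) 2 →ₗ[ℂ] lp (fun _ : V => ℂ) 2)) :=
      hcl'.completeSpace_coe
    exact Submodule.orthogonal_eq_bot_iff.1 hbot
  intro y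
  have : y ∈ LinearMap.range (convOp h : lp (fun _ : V => ℂ) 2 →ₗ[ℂ] lp (fun _ : V => ℂ) 2) := by
    rw [htop]; trivial
  obtain ⟨x, hx⟩ := this
  exact ⟨x, hx⟩

theorem hat_hz {V : Type*} [AddCommGroup V] (F : Finset V) (h : V → ℂ)
    (hF : ∀ v, v ∉ F → h v = 0) (L : V →+ ℝ) (z : ℂ) (φ : V →+ ℝ) :
    hat (fun v => h v * exp (-z * (L v : ℂ))) φ =
      ∑ v ∈ F, h v * exp (I * (φ v : ℂ) - z * (L v : ℂ)) := by
  unfold hat
  rw [tsum_eq_sum (s := F) (fun v hv => by
    show h v * _ * _ = 0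
    rw [hF v hv, zero_mul, zero_mul])]
  refine Finset.sum_congr rfl fun v _ => ?_
  rw [mul_assoc, ← exp_add]
  congr 2
  ring

theorem convOp_fin {V : Type*} [AddCommGroup V] (F : Finset V) (h : V → ℂ)
    (hF : ∀ v, v ∉ F → h v = 0) : convOp h = ∑ w ∈ F, h w • shiftC w := by
  unfold convOp
  exact tsum_eq_sum (s := F) (fun v hv => by rw [hF v hv, zero_smul])

theorem sum_hz {V : Type*} [AddCommGroup V] (F : Finset V) (h : V → ℂ)
    (hF : ∀ v, v ∉ F → h v = 0) (L : V →+ ℝ) (z : ℂ) :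
    Summable fun v => ‖h v * exp (-z * (L v : ℂ))‖ :=
  summable_of_ne_finset_zero (s := F) (fun v hv => by rw [hF v hv, zero_mul, norm_zero])


end

open Classical in
/-- (O2) TARGET: the l2 inverse. -/
theorem l2_inverse {V : Type*} [AddCommGroup V] [Module ℚ V] (h : V → ℂ)
    (hh : Summable fun v => ‖h v‖) (d : ℝ) (hd : 0 < d)
    (hlow : ∀ φ : V →+ ℝ, d ≤ ‖hat h φ‖) :
    ∃ k : V → ℂ, Summable (fun v => ‖k v‖ ^ 2) ∧
      ∀ v, ∑' w, h w * k (v - w) = if v = 0 then 1 else 0 := by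
  classical
  obtain ⟨K, hK⟩ := convOp_surjective h hh d hd hlow (lp.single 2 0 (1 : ℂ))
  refine ⟨K, (memlp2_iff _).1 (lp.memℓp K), fun v => ?_⟩
  rw [← convOp_apply h hh, hK]
  by_cases hv : v = 0
  · subst hv
    rw [if_pos rfl, lp.single_apply_self]
  · rw [if_neg hv, lp.single_apply_ne _ _ _ hv]

open Classical in
/-- (O3) TARGET: monotonicity of the l2 norm of the inverse (finite support), by the
Phragmen-Lindelof principle for `z ↦ T_{h^(z)}⁻¹ δ₀`. -/
theorem l2_mono {V : Type*} [AddCommGroup V] [Module ℚ V] (F : Finset V) (h : V → ℂ)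
    (hF : ∀ v, v ∉ F → h v = 0) (L : V →+ ℝ) (hL : ∀ v ∈ F, 0 ≤ L v) (d : ℝ) (hd : 0 < d)
    (hlow : ∀ (φ : V →+ ℝ) (z : ℂ), 0 ≤ z.re →
      d ≤ ‖∑ v ∈ F, h v * exp (I * (φ v : ℂ) - z * (L v : ℂ))‖)
    (k : V → ℂ) (hk : Summable fun v => ‖k v‖ ^ 2)
    (hk1 : ∀ v, ∑' w, h w * k (v - w) = if v = 0 then 1 else 0) :
    ∃ k' : V → ℂ, Summable (fun v => ‖k' v‖ ^ 2) ∧
      (∀ v, ∑' w, (h w * exp (-(L w : ℂ))) * k' (v - w) = if v = 0 then 1 else 0) ∧
      ∑' v, ‖k' v‖ ^ 2 ≤ ∑' v, ‖k v‖ ^ 2 := by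
  classical
  set T : ℂ → (lp (fun _ : V => ℂ) 2 →L[ℂ] lp (fun _ : V => ℂ) 2) :=
    fun z => convOp (fun v => h v * exp (-z * (L v : ℂ))) with hT
  have hsum := sum_hz F h hF L
  have hlow' : ∀ z : ℂ, 0 ≤ z.re → ∀ φ : V →+ ℝ,
      d ≤ ‖hat (fun v => h v * exp (-z * (L v : ℂ))) φ‖ := by
    intro z hz φ
    rw [hat_hz F h hF L z φ]
    exact hlow φ z hz
  have hlb : ∀ z : ℂ, 0 ≤ z.re → ∀ u, d * ‖u‖ ≤ ‖T z u‖ := fun z hz u =>
    convOp_lower _ (hsum z) d hd (hlow' z hz) u
  have hinj : ∀ z : ℂ, 0 ≤ z.re → Function.Injective (T z) := by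
    intro z hz
    rw [injective_iff_map_eq_zero]
    intro u hu
    have h1 := hlb z hz u
    rw [hu, norm_zero] at h1
    have h5 : ‖u‖ ≤ 0 := by
      by_contra hcon
      push Not at hcon
      nlinarith [mul_pos hd hcon]
    exact norm_le_zero_iff.1 h5
  have hunit : ∀ z : ℂ, 0 ≤ z.re → IsUnit (T z) := fun z hz =>
    ContinuousLinearMap.isUnit_iff_bijective.2
      ⟨hinj z hz, convOp_surjective _ (hsum z) d hd (hlow' z hz)⟩
  have hTdiff : Differentiable ℂ T := by
    have e : T = fun z => ∑ w ∈ F, (h w * exp (-z * (L w : ℂ))) • shiftC w := by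
      funext z
      exact convOp_fin F _ (fun v hv => by rw [hF v hv, zero_mul])
    rw [e]
    refine Differentiable.fun_sum fun w _ => ?_
    refine Differentiable.smul_const ?_ _
    fun_prop
  set δ : lp (fun _ : V => ℂ) 2 := lp.single 2 0 (1 : ℂ) with hδ
  have hδv : ∀ v : V, δ v = if v = 0 then 1 else 0 := by
    intro v
    by_cases hv : v = 0
    · subst hv
      rw [if_pos rfl, hδ, lp.single_apply_self]
    · rw [if_neg hv, hδ, lp.single_apply_ne _ _ _ hv]
  set Z : ℂ → lp (fun _ : V => ℂ) 2 := fun z => Ring.inverse (T z) δ with hZ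
  have hTZ : ∀ z : ℂ, 0 ≤ z.re → T z (Z z) = δ := by
    intro z hz
    have := Ring.mul_inverse_cancel (T z) (hunit z hz)
    have h2 := congrArg (fun S : (lp (fun _ : V => ℂ) 2 →L[ℂ] lp (fun _ : V => ℂ) 2) => S δ) this
    exact h2
  have hZdiff : ∀ z : ℂ, 0 ≤ z.re → DifferentiableAt ℂ Z z := by
    intro z hz
    have h1 : DifferentiableAt ℂ (fun z => Ring.inverse (T z)) z :=
      (differentiableAt_inverse (𝕜 := ℂ) (hunit z hz)).comp z (hTdiff z)
    exact h1.clm_apply (differentiableAt_const _)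
  have hZbd : ∀ z : ℂ, 0 ≤ z.re → ‖Z z‖ ≤ d⁻¹ * ‖δ‖ := by
    intro z hz
    have h1 := hlb z hz (Z z)
    rw [hTZ z hz] at h1
    rw [← div_eq_inv_mul, le_div_iff₀ hd, mul_comm]
    exact h1
  set K : lp (fun _ : V => ℂ) 2 := ⟨k, (memlp2_iff _).2 hk⟩ with hKdef
  have hKn : ‖K‖ ^ 2 = ∑' v, ‖k v‖ ^ 2 := norm_sq2 K
  have him : ∀ y : ℝ, ‖Z (y * I)‖ ≤ ‖K‖ := by
    intro y
    have hre : 0 ≤ ((y : ℂ) * I).re := by simp
    have hnorm : ∀ v, ‖exp (-((y : ℂ) * I) * (L v : ℂ)) * k v‖ = ‖k v‖ := by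
      intro v
      rw [norm_mul, Complex.norm_exp]
      simp
    set Ky : lp (fun _ : V => ℂ) 2 := ⟨fun v => exp (-((y : ℂ) * I) * (L v : ℂ)) * k v,
      (memlp2_iff _).2 (by simpa only [hnorm] using hk)⟩ with hKy
    have h1 : T (y * I) Ky = δ := by
      ext v
      rw [hT]
      show (convOp (fun v => h v * exp (-((y : ℂ) * I) * (L v : ℂ))) Ky) v = δ v
      rw [convOp_apply _ (hsum _), hδv v]
      have e1 : ∀ w, h w * exp (-((y : ℂ) * I) * (L w : ℂ)) * Ky (v - w) =
          exp (-((y : ℂ) * I) * (L v : ℂ)) * (h w * k (v - w)) := by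
        intro w
        show h w * exp (-((y : ℂ) * I) * (L w : ℂ)) *
          (exp (-((y : ℂ) * I) * (L (v - w) : ℂ)) * k (v - w)) = _
        have e2 : exp (-((y : ℂ) * I) * (L v : ℂ)) =
            exp (-((y : ℂ) * I) * (L w : ℂ)) * exp (-((y : ℂ) * I) * (L (v - w) : ℂ)) := by
          rw [← exp_add, map_sub]
          congr 1
          push_cast
          ring
        rw [e2]
        ring
      rw [tsum_congr e1, tsum_mul_left, hk1 v]
      by_cases hv : v = 0
      · subst hv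
        simp
      · rw [if_neg hv, mul_zero]
    have h2 : Z (y * I) = Ky := hinj _ hre (by rw [hTZ _ hre, h1])
    rw [h2]
    refine (pow_le_pow_iff_left₀ (norm_nonneg _) (norm_nonneg _) two_ne_zero).1 ?_
    rw [hKn, norm_sq2]
    exact (tsum_congr fun v => by rw [← hnorm v]).le
  have hPL : ‖Z 1‖ ≤ ‖K‖ := by
    apply PhragmenLindelof.right_half_plane_of_bounded_on_real (f := Z) (C := ‖K‖) (z := 1)
    · apply DifferentiableOn.diffContOnCl
      intro z hz
      rw [Complex.closure_setOfPred_lt_re] at hz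
      exact (hZdiff z hz).differentiableWithinAt
    · refine ⟨1, by norm_num, 0, ?_⟩
      apply Asymptotics.IsBigO.of_bound (d⁻¹ * ‖δ‖)
      refine Filter.eventually_inf_principal.2 (Filter.Eventually.of_forall fun z hz => ?_)
      simp only [zero_mul, Real.exp_zero, norm_one, mul_one]
      exact hZbd z (le_of_lt hz)
    · refine ⟨d⁻¹ * ‖δ‖, ?_⟩
      rw [Filter.eventually_map]
      filter_upwards [Filter.eventually_ge_atTop 0] with x hx
      exact hZbd x (by simpa using hx)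
    · exact him
    · simp
  refine ⟨Z 1, (memlp2_iff _).1 (lp.memℓp (Z 1)), fun v => ?_, ?_⟩
  · have h1 := hTZ 1 (by simp)
    have h2 : (T 1 (Z 1)) v = δ v := by rw [h1]
    rw [hδv v] at h2
    rw [← h2]
    show _ = (convOp (fun v => h v * exp (-1 * (L v : ℂ))) (Z 1)) v
    rw [convOp_apply _ (hsum 1)]
    simp only [neg_mul, one_mul]
  · rw [← hKn, ← norm_sq2]
    exact (pow_le_pow_iff_left₀ (norm_nonneg _) (norm_nonneg _) two_ne_zero).2 hPL

end J553
end Pool.Agent.Helper976.Fac
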