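import Pool.Agent.Helper976.Fac.Defs

set_option autoImplicit false
open scoped BigOperators Topology
open Filter

namespace Pool.Agent.Helper976.Fac
namespace J554

/-- a representative -/
noncomputable def rep (v : GV) : ℕ → ℚ := Quotient.out v

theorem out_coe (v : GV) : ((rep v : ℕ → ℚ) : GV) = v := Quotient.out_eq v

theorem star_def (h : ℕ → ℚ → ℂ) (v : GV) :
    star h v = limUnder (hyperfilter ℕ : Filter ℕ) (fun n => h n (rep v n)) := rfl

theorem star_tendsto (h : ℕ → ℚ → ℂ) (C : ℝ) (hC : ∀ n q, ‖h n q‖ ≤ C) (a : ℕ → ℚ) :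
    Tendsto (fun n => h n (a n)) (hyperfilter ℕ : Filter ℕ) (𝓝 (star h (a : GV))) := by
  have h1 : rep (a : GV) =ᶠ[(hyperfilter ℕ : Filter ℕ)] a :=
    Germ.coe_eq.mp (out_coe (a : GV))
  have h2 : ∃ z, Tendsto (fun n => h n (rep (a : GV) n))
      (hyperfilter ℕ : Filter ℕ) (𝓝 z) := by
    obtain ⟨z, _, hz⟩ := (isCompact_closedBall (0 : ℂ) C).ultrafilter_le_nhds
      ((hyperfilter ℕ).map (fun n => h n (rep (a : GV) n))) (by
        rw [Ultrafilter.coe_map, le_principal_iff, mem_map]
        apply univ_mem'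
        intro n
        simp [hC])
    exact ⟨z, hz⟩
  have h3 := tendsto_nhds_limUnder h2
  refine Tendsto.congr' ?_ h3
  filter_upwards [h1] with n hn
  rw [hn]

theorem star_general (h : ℕ → ℚ → ℂ) (Φ : ℂ → ℝ) (hΦ : Continuous Φ) (hΦ0 : ∀ z, 0 ≤ Φ z)
    (C : ℝ) (hC : ∀ n q, ‖h n q‖ ≤ C) (B : ℝ) (hs : ∀ n, Summable fun q => Φ (h n q))
    (hB : ∀ n, ∑' q, Φ (h n q) ≤ B) :
    Summable (fun v => Φ (star h v)) ∧ ∑' v, Φ (star h v) ≤ B := by
  classical
  have key : ∀ F : Finset GV, ∑ v ∈ F, Φ (star h v) ≤ B := by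
    intro F
    have h1 : Tendsto (fun n => ∑ v ∈ F, Φ (h n (rep v n)))
        (hyperfilter ℕ : Filter ℕ) (𝓝 (∑ v ∈ F, Φ (star h v))) := by
      apply tendsto_finsetSum
      intro v _
      have := star_tendsto h C hC (rep v)
      rw [out_coe] at this
      exact (hΦ.tendsto _).comp this
    have h2 : ∀ᶠ n in (hyperfilter ℕ : Filter ℕ), ∀ v ∈ F, ∀ w ∈ F, v ≠ w →
        rep v n ≠ rep w n := by
      rw [Filter.eventually_all_finset]
      intro v _
      rw [Filter.eventually_all_finset]
      intro w _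
      by_cases hvw : v = w
      · simp [hvw]
      · have : ∀ᶠ n in (hyperfilter ℕ : Filter ℕ), ¬ (rep v n = rep w n) := by
          rw [Ultrafilter.eventually_not]
          intro hcon
          apply hvw
          rw [← out_coe v, ← out_coe w]
          exact Germ.coe_eq.mpr hcon
        filter_upwards [this] with n hn _
        exact hn
    refine le_of_tendsto h1 ?_
    filter_upwards [h2] with n hn
    have h3 : ∑ v ∈ F, Φ (h n (rep v n)) =
        ∑ q ∈ F.image (fun v => rep v n), Φ (h n q) := by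
      rw [Finset.sum_image]
      intro v hv w hw hvw
      by_contra hne
      exact hn v hv w hw hne hvw
    rw [h3]
    exact ((hs n).sum_le_tsum _ (fun q _ => hΦ0 _)).trans (hB n)
  have hsum : Summable (fun v => Φ (star h v)) := summable_of_sum_le (fun v => hΦ0 _) key
  exact ⟨hsum, hsum.tsum_le_of_sum_le key⟩

theorem star_l1 (h : ℕ → ℚ → ℂ) (B : ℝ) (hs : ∀ n, Summable fun q => ‖h n q‖)
    (hB : ∀ n, ∑' q, ‖h n q‖ ≤ B) :
    Summable (fun v => ‖star h v‖) ∧ ∑' v, ‖star h v‖ ≤ B := by
  apply star_general h (fun z => ‖z‖) continuous_norm (fun z => norm_nonneg z) B ?_ B hs hB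
  intro n q
  exact ((hs n).le_tsum q (fun _ _ => norm_nonneg _)).trans (hB n)

theorem star_l2 (u : ℕ → ℚ → ℂ) (W : ℝ) (hs : ∀ n, Summable fun q => ‖u n q‖ ^ 2)
    (hW : ∀ n, ∑' q, ‖u n q‖ ^ 2 ≤ W ^ 2) :
    Summable (fun v => ‖star u v‖ ^ 2) ∧ ∑' v, ‖star u v‖ ^ 2 ≤ W ^ 2 := by
  apply star_general u (fun z => ‖z‖ ^ 2) (by fun_prop) (fun z => by positivity) |W| ?_ (W ^ 2) hs hW
  intro n q
  have h1 := ((hs n).le_tsum q (fun _ _ => by positivity)).trans (hW n)
  exact abs_le_of_sq_le_sq' (by simpa using h1) (abs_nonneg W) |>.2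

theorem star_lift (F : Finset GV) (u : GV → ℂ) (hu : ∀ v, v ∉ F → u v = 0) :
    ∃ u' : ℕ → ℚ → ℂ, (∀ n, (Function.support (u' n)).Finite) ∧
      (∀ n, ∑' q, ‖u' n q‖ ≤ ∑ v ∈ F, ‖u v‖) ∧ star u' = u := by
  classical
  let u' : ℕ → ℚ → ℂ := fun n q => ∑ w ∈ F, if q = rep w n then u w else 0
  have hsupp : ∀ n, Function.support (u' n) ⊆
      ((F.image (fun w => rep w n) : Finset ℚ) : Set ℚ) := by
    intro n q hq
    by_contra hcon
    apply hq
    change ∑ w ∈ F, (if q = rep w n then u w else 0) = 0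
    apply Finset.sum_eq_zero
    intro w hw
    rw [if_neg]
    rintro rfl
    apply hcon
    rw [Finset.mem_coe, Finset.mem_image]
    exact ⟨w, hw, rfl⟩
  refine ⟨u', fun n => (Finset.finite_toSet _).subset (hsupp n), ?_, ?_⟩
  · intro n
    have h1 : ∑' q, ‖u' n q‖ = ∑ q ∈ F.image (fun w => rep w n), ‖u' n q‖ := by
      apply tsum_eq_sum
      intro q hq
      have : u' n q = 0 := by
        by_contra hne
        exact hq (Finset.mem_coe.mp (hsupp n hne))
      rw [this, norm_zero]
    rw [h1]
    calc ∑ q ∈ F.image (fun w => rep w n), ‖u' n q‖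
        ≤ ∑ q ∈ F.image (fun w => rep w n), ∑ w ∈ F,
          (if q = rep w n then ‖u w‖ else 0) := by
          apply Finset.sum_le_sum
          intro q _
          refine (norm_sum_le _ _).trans ?_
          apply Finset.sum_le_sum
          intro w _
          split_ifs
          · exact le_rfl
          · simp
      _ = ∑ w ∈ F, ∑ q ∈ F.image (fun w => rep w n),
          (if q = rep w n then ‖u w‖ else 0) := Finset.sum_comm
      _ ≤ ∑ w ∈ F, ‖u w‖ := by
          apply Finset.sum_le_sum
          intro w _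
          rw [Finset.sum_ite_eq']
          split_ifs
          · exact le_rfl
          · exact norm_nonneg _
  · funext v
    have h2 : ∀ᶠ n in (hyperfilter ℕ : Filter ℕ), ∀ w ∈ F, v ≠ w →
        rep v n ≠ rep w n := by
      rw [Filter.eventually_all_finset]
      intro w _
      by_cases hvw : v = w
      · simp [hvw]
      · have : ∀ᶠ n in (hyperfilter ℕ : Filter ℕ), ¬ (rep v n = rep w n) := by
          rw [Ultrafilter.eventually_not]
          intro hcon
          apply hvw
          rw [← out_coe v, ← out_coe w]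
          exact Germ.coe_eq.mpr hcon
        filter_upwards [this] with n hn _
        exact hn
    have h3 : ∀ᶠ n in (hyperfilter ℕ : Filter ℕ), u' n (rep v n) = u v := by
      filter_upwards [h2] with n hn
      change ∑ w ∈ F, (if rep v n = rep w n then u w else 0) = u v
      by_cases hv : v ∈ F
      · rw [Finset.sum_eq_single v]
        · simp
        · intro w hw hwv
          rw [if_neg (hn w hw hwv.symm)]
        · intro h; exact absurd hv h
      · rw [hu v hv]
        apply Finset.sum_eq_zero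
        intro w hw
        rw [if_neg]
        exact hn w hw (fun h => hv (h ▸ hw))
    have h4 : Tendsto (fun n => u' n (rep v n)) (hyperfilter ℕ : Filter ℕ)
        (𝓝 (u v)) := by
      refine Tendsto.congr' ?_ tendsto_const_nhds
      filter_upwards [h3] with n hn
      exact hn.symm
    rw [star_def]
    exact h4.limUnder_eq

end J554
end Pool.Agent.Helper976.Fac
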