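import Pool.Agent.Helper976.Fac.Defs
import Pool.Agent.Helper976.Fac.J554

set_option autoImplicit false
open scoped BigOperators Topology
open Filter

namespace Pool.Agent.Helper976.Fac
namespace J555
open J554

lemma coe_out (v : GV) : ((Quotient.out v : ℕ → ℚ) : GV) = v := Quotient.out_eq v

lemma norm_le_of_l1 {ι : Type*} (x : ι → ℂ) (B : ℝ) (hx : Summable fun r => ‖x r‖)
    (hB : ∑' r, ‖x r‖ ≤ B) (r : ι) : ‖x r‖ ≤ B :=
  le_trans (hx.le_tsum r (fun j _ => norm_nonneg _)) hB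

lemma norm_le_of_l2 {ι : Type*} (y : ι → ℂ) (W : ℝ) (hy : Summable fun r => ‖y r‖ ^ 2)
    (hW : ∑' r, ‖y r‖ ^ 2 ≤ W ^ 2) (r : ι) : ‖y r‖ ≤ |W| := by
  have h1 : ‖y r‖ ^ 2 ≤ W ^ 2 := le_trans (hy.le_tsum r (fun j _ => by positivity)) hW
  have := sq_le_sq.mp h1
  rwa [abs_norm] at this

lemma tail_bound {ι : Type*} (x y : ι → ℂ) (B W : ℝ) (hx : Summable fun r => ‖x r‖)
    (hB : ∑' r, ‖x r‖ ≤ B) (hy : Summable fun r => ‖y r‖ ^ 2) (hW : ∑' r, ‖y r‖ ^ 2 ≤ W ^ 2)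
    (F : Finset ι) (s : ℝ) (hs : 0 < s) (hF : ∀ r, r ∉ F → ‖x r‖ ≤ 2 * s ^ 2) :
    ‖∑' r, x r * y r - ∑ r ∈ F, x r * y r‖ ≤ s * B + s / 2 * W ^ 2 := by
  classical
  have hsum : Summable (fun r => x r * y r) := by
    apply Summable.of_norm_bounded (g := fun r => ‖x r‖ * |W|) (hx.mul_right _)
    intro r
    rw [norm_mul]
    exact mul_le_mul_of_nonneg_left (norm_le_of_l2 y W hy hW r) (norm_nonneg _)
  set z : ι → ℂ := fun r => if r ∈ F then 0 else x r * y r with hz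
  have hb : Summable (fun r => s * ‖x r‖ + s / 2 * ‖y r‖ ^ 2) :=
    (hx.mul_left _).add (hy.mul_left _)
  have hzb : ∀ r, ‖z r‖ ≤ s * ‖x r‖ + s / 2 * ‖y r‖ ^ 2 := by
    intro r
    simp only [hz]
    split_ifs with h
    · rw [norm_zero]; positivity
    · rw [norm_mul]
      have h1 := hF r h
      have h2 : ‖x r‖ * ‖x r‖ ≤ 2 * s ^ 2 * ‖x r‖ := mul_le_mul_of_nonneg_right h1 (norm_nonneg _)
      have h3 : 0 ≤ (‖x r‖ - s * ‖y r‖) ^ 2 := sq_nonneg _
      have h4 : 2 * s * (‖x r‖ * ‖y r‖) ≤ 2 * s * (s * ‖x r‖ + s / 2 * ‖y r‖ ^ 2) := by nlinarith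
      exact le_of_mul_le_mul_left h4 (by positivity)
  have hzs : Summable z := Summable.of_norm_bounded hb hzb
  have hw : Summable (fun r => if r ∈ F then x r * y r else 0) :=
    summable_of_ne_finset_zero (s := F) (fun r hr => by simp [hr])
  have hsplit : ∑' r, x r * y r = ∑' r, z r + ∑ r ∈ F, x r * y r := by
    have h1 : ∑' r, (if r ∈ F then x r * y r else 0) = ∑ r ∈ F, x r * y r := by
      rw [tsum_eq_sum (s := F) (fun r hr => by simp [hr])]
      exact Finset.sum_congr rfl (fun r hr => by simp [hr])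
    rw [← h1, ← hzs.tsum_add hw]
    congr 1
    funext r
    simp only [hz]
    split_ifs <;> simp
  rw [hsplit, add_sub_cancel_right]
  calc ‖∑' r, z r‖ ≤ ∑' r, (s * ‖x r‖ + s / 2 * ‖y r‖ ^ 2) :=
        tsum_of_norm_bounded hb.hasSum hzb
    _ = s * ∑' r, ‖x r‖ + s / 2 * ∑' r, ‖y r‖ ^ 2 := by
        rw [(hx.mul_left _).tsum_add (hy.mul_left _), tsum_mul_left, tsum_mul_left]
    _ ≤ s * B + s / 2 * W ^ 2 := by
        have h1 := mul_le_mul_of_nonneg_left hB hs.le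
        have h2 := mul_le_mul_of_nonneg_left hW (by positivity : 0 ≤ s / 2)
        linarith

lemma exists_F (g : ℕ → ℚ → ℂ) (B : ℝ) (hgs : ∀ n, Summable fun q => ‖g n q‖)
    (hgB : ∀ n, ∑' q, ‖g n q‖ ≤ B) (ε : ℝ) (hε : 0 < ε) :
    ∃ F : Finset GV, (∀ w, w ∉ F → ‖star g w‖ < ε) ∧
      ∀ᶠ n in (hyperfilter ℕ : Filter ℕ),
        Set.InjOn (fun w : GV => (Quotient.out w : ℕ → ℚ) n) (F : Set GV) ∧
        ∀ q, (∀ w ∈ F, q ≠ (Quotient.out w : ℕ → ℚ) n) → ‖g n q‖ < 2 * ε := by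
  classical
  have hbd : ∀ n q, ‖g n q‖ ≤ B := fun n q => norm_le_of_l1 _ B (hgs n) (hgB n) q
  have hl1 := (star_l1 g B hgs hgB).1
  obtain ⟨F, hF⟩ : ∃ F : Finset GV, ∀ w, w ∈ F ↔ ε ≤ ‖star g w‖ := by
    have hfin : {w : GV | ¬ ‖star g w‖ < ε}.Finite := by
      have := hl1.tendsto_cofinite_zero.eventually (gt_mem_nhds hε)
      exact this
    refine ⟨hfin.toFinset, fun w => ?_⟩
    rw [Set.Finite.mem_toFinset]
    exact not_lt
  refine ⟨F, fun w hw => ?_, ?_⟩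
  · rw [hF] at hw
    exact not_le.mp hw
  have hinj : ∀ᶠ n in (hyperfilter ℕ : Filter ℕ), ∀ w ∈ F, ∀ w' ∈ F,
      w ≠ w' → (Quotient.out w : ℕ → ℚ) n ≠ (Quotient.out w' : ℕ → ℚ) n := by
    rw [Filter.eventually_all_finset]
    intro w _
    rw [Filter.eventually_all_finset]
    intro w' _
    by_cases hww : w = w'
    · filter_upwards with n h
      exact absurd hww h
    · have : ¬ ∀ᶠ n in (hyperfilter ℕ : Filter ℕ),
          (Quotient.out w : ℕ → ℚ) n = (Quotient.out w' : ℕ → ℚ) n := by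
        intro h
        apply hww
        rw [← coe_out w, ← coe_out w']
        exact Filter.Germ.coe_eq.mpr h
      rw [← Ultrafilter.eventually_not] at this
      filter_upwards [this] with n hn _
      exact hn
  have hsmall : ∀ᶠ n in (hyperfilter ℕ : Filter ℕ),
      ∀ q, (∀ w ∈ F, q ≠ (Quotient.out w : ℕ → ℚ) n) → ‖g n q‖ < 2 * ε := by
    by_contra hcon
    rw [← Ultrafilter.eventually_not] at hcon
    push Not at hcon
    let q : ℕ → ℚ := fun n => if h : ∃ q, (∀ w ∈ F, q ≠ (Quotient.out w : ℕ → ℚ) n) ∧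
      2 * ε ≤ ‖g n q‖ then h.choose else 0
    have hq : ∀ᶠ n in (hyperfilter ℕ : Filter ℕ),
        (∀ w ∈ F, q n ≠ (Quotient.out w : ℕ → ℚ) n) ∧ 2 * ε ≤ ‖g n (q n)‖ := by
      filter_upwards [hcon] with n hn
      have h : ∃ q, (∀ w ∈ F, q ≠ (Quotient.out w : ℕ → ℚ) n) ∧
        2 * ε ≤ ‖g n q‖ := hn
      simp only [q]
      rw [dif_pos h]
      exact h.choose_spec
    have hlim := (star_tendsto g B hbd q).norm
    have hge : 2 * ε ≤ ‖star g (q : GV)‖ :=
      ge_of_tendsto hlim (hq.mono (fun n hn => hn.2))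
    have hmem : (q : GV) ∈ F := by
      rw [hF]
      linarith
    have heq : (Quotient.out (q : GV) : ℕ → ℚ) =ᶠ[(hyperfilter ℕ : Filter ℕ)] q :=
      Filter.Germ.coe_eq.mp (coe_out (q : GV))
    obtain ⟨n, hn1, hn2⟩ := (hq.and heq).exists
    exact hn1.1 _ hmem hn2.symm
  filter_upwards [hinj, hsmall] with n h1 h2
  refine ⟨fun w hw w' hw' h => ?_, h2⟩
  by_contra hne
  exact h1 w hw w' hw' hne h

lemma eps_zero (x B W : ℝ) (hB0 : 0 ≤ B) (hx : 0 ≤ x)
    (h : ∀ s : ℝ, 0 < s → x ≤ 2 * (s * B + s / 2 * W ^ 2)) : x = 0 := by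
  refine le_antisymm ?_ hx
  refine le_of_forall_pos_le_add (fun η hη => ?_)
  have h0 := h (η / (2 * B + W ^ 2 + 1)) (by positivity)
  refine le_trans h0 ?_
  rw [zero_add]
  have h1 : 0 < 2 * B + W ^ 2 + 1 := by positivity
  have h2 : 2 * (η / (2 * B + W ^ 2 + 1) * B + η / (2 * B + W ^ 2 + 1) / 2 * W ^ 2)
      = η * ((2 * B + W ^ 2) / (2 * B + W ^ 2 + 1)) := by
    field_simp
  rw [h2]
  have h3 : (2 * B + W ^ 2) / (2 * B + W ^ 2 + 1) ≤ 1 := by
    rw [div_le_one h1]; linarith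
  nlinarith

/-- TARGET -/
theorem star_conv (g u : ℕ → ℚ → ℂ) (B W : ℝ)
    (hgs : ∀ n, Summable fun q => ‖g n q‖) (hgB : ∀ n, ∑' q, ‖g n q‖ ≤ B)
    (hus : ∀ n, Summable fun q => ‖u n q‖ ^ 2) (huW : ∀ n, ∑' q, ‖u n q‖ ^ 2 ≤ W ^ 2) (v : GV) :
    star (fun n q => ∑' r, g n r * u n (q - r)) v = ∑' w, star g w * star u (v - w) := by
  classical
  have hbg : ∀ n q, ‖g n q‖ ≤ B := fun n q => norm_le_of_l1 _ B (hgs n) (hgB n) q
  have hbu : ∀ n q, ‖u n q‖ ≤ |W| := fun n q => norm_le_of_l2 _ W (hus n) (huW n) q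
  have hB0 : 0 ≤ B := le_trans (norm_nonneg _) (hbg 0 0)
  have hgl := star_l1 g B hgs hgB
  have hul := star_l2 u W hus huW
  -- shifted l2 bounds
  have hushift : ∀ n q, Summable (fun r => ‖u n (q - r)‖ ^ 2) ∧
      ∑' r, ‖u n (q - r)‖ ^ 2 ≤ W ^ 2 := by
    intro n q
    refine ⟨(Equiv.subLeft q).summable_iff.mpr (hus n), ?_⟩
    have h1 := (Equiv.subLeft q).tsum_eq (fun r => ‖u n r‖ ^ 2)
    simp only [Equiv.subLeft_apply] at h1
    rw [h1]
    exact huW n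
  have hustar : Summable (fun w => ‖star u (v - w)‖ ^ 2) ∧
      ∑' w, ‖star u (v - w)‖ ^ 2 ≤ W ^ 2 := by
    refine ⟨(Equiv.subLeft v).summable_iff.mpr hul.1, ?_⟩
    have h1 := (Equiv.subLeft v).tsum_eq (fun r => ‖star u r‖ ^ 2)
    simp only [Equiv.subLeft_apply] at h1
    rw [h1]
    exact hul.2
  set c : ℕ → ℚ → ℂ := fun n q => ∑' r, g n r * u n (q - r) with hc
  have hcb : ∀ n q, ‖c n q‖ ≤ B * |W| := by
    intro n q
    have hb : Summable (fun r => ‖g n r‖ * |W|) := (hgs n).mul_right _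
    calc ‖c n q‖ ≤ ∑' r, ‖g n r‖ * |W| := by
          refine tsum_of_norm_bounded hb.hasSum (fun r => ?_)
          rw [norm_mul]
          exact mul_le_mul_of_nonneg_left (hbu n _) (norm_nonneg _)
      _ = (∑' r, ‖g n r‖) * |W| := tsum_mul_right
      _ ≤ B * |W| := mul_le_mul_of_nonneg_right (hgB n) (abs_nonneg _)
  induction v using Filter.Germ.inductionOn with
  | _ a =>
  have hlimc := star_tendsto c (B * |W|) hcb a
  -- main estimate
  have main : ∀ s : ℝ, 0 < s → ‖star c (a : GV) - ∑' w, star g w * star u ((a : GV) - w)‖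
      ≤ 2 * (s * B + s / 2 * W ^ 2) := by
    intro s hs
    obtain ⟨F, hF1, hF2⟩ := exists_F g B hgs hgB (s ^ 2) (by positivity)
    -- the limit of the main terms
    have hlim : Tendsto (fun n => c n (a n) - ∑ w ∈ F, g n ((Quotient.out w : ℕ → ℚ) n) *
        u n (a n - (Quotient.out w : ℕ → ℚ) n)) (hyperfilter ℕ : Filter ℕ)
        (𝓝 (star c (a : GV) - ∑ w ∈ F, star g w * star u ((a : GV) - w))) := by
      refine hlimc.sub (tendsto_finsetSum _ (fun w _ => ?_))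
      have h1 := star_tendsto g B hbg (Quotient.out w : ℕ → ℚ)
      rw [coe_out] at h1
      have h2 := star_tendsto u |W| hbu (a - (Quotient.out w : ℕ → ℚ))
      have h3 : ((a - (Quotient.out w : ℕ → ℚ) : ℕ → ℚ) : GV) = (a : GV) - w := by
        conv_rhs => rw [← coe_out w]
        rfl
      rw [h3] at h2
      exact h1.mul h2
    have hle : ‖star c (a : GV) - ∑ w ∈ F, star g w * star u ((a : GV) - w)‖
        ≤ s * B + s / 2 * W ^ 2 := by
      refine le_of_tendsto hlim.norm ?_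
      filter_upwards [hF2] with n hn
      obtain ⟨hinj, hsm⟩ := hn
      have h1 := tail_bound (g n) (fun r => u n (a n - r)) B W (hgs n) (hgB n)
        (hushift n (a n)).1 (hushift n (a n)).2
        (F.image (fun w : GV => (Quotient.out w : ℕ → ℚ) n)) s hs (by
          intro r hr
          refine (hsm r (fun w hw h => hr ?_)).le
          rw [Finset.mem_image]
          exact ⟨w, hw, h.symm⟩)
      rw [Finset.sum_image hinj] at h1
      exact h1
    have hle2 := tail_bound (star g) (fun w => star u ((a : GV) - w)) B W hgl.1 hgl.2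
      hustar.1 hustar.2 F s hs (fun r hr => by
        have := hF1 r hr
        nlinarith [sq_nonneg s])
    have h3 := norm_sub_le (star c (a : GV) - ∑ w ∈ F, star g w * star u ((a : GV) - w))
      (∑' w, star g w * star u ((a : GV) - w) - ∑ w ∈ F, star g w * star u ((a : GV) - w))
    rw [sub_sub_sub_cancel_right] at h3
    linarith
  exact sub_eq_zero.mp (norm_eq_zero.mp (eps_zero _ B W hB0 (norm_nonneg _) main))

/-- TARGET -/
theorem star_l2_limit (w : ℕ → ℚ → ℂ) (B : ℝ) (hs : ∀ n, Summable fun q => ‖w n q‖)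
    (hB : ∀ n, ∑' q, ‖w n q‖ ≤ B) (ρ : ℝ) (hρ : ∑' v, ‖star w v‖ ^ 2 < ρ) :
    ∀ᶠ n in (hyperfilter ℕ : Filter ℕ), ∑' q, ‖w n q‖ ^ 2 < ρ := by
  classical
  have hbd : ∀ n q, ‖w n q‖ ≤ B := fun n q => norm_le_of_l1 _ B (hs n) (hB n) q
  have hB0 : 0 ≤ B := le_trans (norm_nonneg _) (hbd 0 0)
  have hl := star_l1 w B hs hB
  have hstarb : ∀ v, ‖star w v‖ ≤ B := fun v => norm_le_of_l1 _ B hl.1 hl.2 v
  have hsum2 : Summable (fun v => ‖star w v‖ ^ 2) := by
    refine Summable.of_nonneg_of_le (fun v => by positivity) (fun v => ?_) (hl.1.mul_left B)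
    rw [sq]
    exact mul_le_mul_of_nonneg_right (hstarb v) (norm_nonneg _)
  set σ := ∑' v, ‖star w v‖ ^ 2 with hσ
  obtain ⟨ε, hε, hε2⟩ : ∃ ε > 0, σ + 2 * ε * B < ρ := by
    refine ⟨(ρ - σ) / (2 * B + 1) / 2, by
      have : 0 < ρ - σ := by linarith
      positivity, ?_⟩
    have h1 : 0 < 2 * B + 1 := by positivity
    have h0 : 0 < ρ - σ := by linarith
    have h2 : 2 * ((ρ - σ) / (2 * B + 1) / 2) * B = (ρ - σ) * (B / (2 * B + 1)) := by
      field_simp
    rw [h2]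
    have h3 : B / (2 * B + 1) < 1 := by
      rw [div_lt_one h1]; linarith
    nlinarith
  obtain ⟨F, hF1, hF2⟩ := exists_F w B hs hB ε hε
  have hlim : Tendsto (fun n => ∑ v ∈ F, ‖w n ((Quotient.out v : ℕ → ℚ) n)‖ ^ 2)
      (hyperfilter ℕ : Filter ℕ) (𝓝 (∑ v ∈ F, ‖star w v‖ ^ 2)) := by
    refine tendsto_finsetSum _ (fun v _ => ?_)
    have h1 := star_tendsto w B hbd (Quotient.out v : ℕ → ℚ)
    rw [coe_out] at h1
    exact (h1.norm).pow 2
  have hFle : ∑ v ∈ F, ‖star w v‖ ^ 2 < ρ - 2 * ε * B := by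
    have := hsum2.sum_le_tsum F (fun v _ => by positivity)
    linarith
  filter_upwards [hF2, hlim.eventually (gt_mem_nhds hFle)] with n hn hn2
  obtain ⟨hinj, hsm⟩ := hn
  set Fn := F.image (fun v : GV => (Quotient.out v : ℕ → ℚ) n) with hFn
  have hSn : ∑ q ∈ Fn, ‖w n q‖ ^ 2 = ∑ v ∈ F, ‖w n ((Quotient.out v : ℕ → ℚ) n)‖ ^ 2 := by
    rw [hFn, Finset.sum_image hinj]
  have hbsum : Summable (fun q => (if q ∈ Fn then ‖w n q‖ ^ 2 else 0) + 2 * ε * ‖w n q‖) :=
    (summable_of_ne_finset_zero (s := Fn) (fun r hr => by simp [hr])).add ((hs n).mul_left _)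
  have hle : ∀ q, ‖w n q‖ ^ 2 ≤ (if q ∈ Fn then ‖w n q‖ ^ 2 else 0) + 2 * ε * ‖w n q‖ := by
    intro q
    split_ifs with h
    · have : 0 ≤ 2 * ε * ‖w n q‖ := by positivity
      linarith
    · have h1 := (hsm q (fun v hv h' => h (by
        rw [hFn, Finset.mem_image]; exact ⟨v, hv, h'.symm⟩))).le
      rw [zero_add, sq]
      exact mul_le_mul_of_nonneg_right h1 (norm_nonneg _)
  calc ∑' q, ‖w n q‖ ^ 2
      ≤ ∑' q, ((if q ∈ Fn then ‖w n q‖ ^ 2 else 0) + 2 * ε * ‖w n q‖) :=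
        (Summable.of_nonneg_of_le (fun q => by positivity) hle hbsum).tsum_le_tsum hle hbsum
    _ = ∑ q ∈ Fn, ‖w n q‖ ^ 2 + 2 * ε * ∑' q, ‖w n q‖ := by
        rw [(summable_of_ne_finset_zero (s := Fn) (fun r hr => by simp [hr])).tsum_add
          ((hs n).mul_left _), tsum_mul_left]
        congr 1
        rw [tsum_eq_sum (s := Fn) (fun r hr => by simp [hr])]
        exact Finset.sum_congr rfl (fun r hr => by simp [hr])
    _ < ρ := by
        rw [hSn]
        have := mul_le_mul_of_nonneg_left (hB n) (by positivity : 0 ≤ 2 * ε)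
        linarith

end J555
end Pool.Agent.Helper976.Fac
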