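import Pool.Agent.Helper976.Fac.Lemmas

set_option autoImplicit false
open scoped BigOperators Topology
open Filter Complex

namespace Pool.Agent.Helper976.Fac
namespace J663

end J663
end Pool.Agent.Helper976.Fac


namespace Pool.Agent.Helper976.Fac
namespace J663

set_option linter.unusedSectionVars false

section L2

variable {V : Type*} [AddCommGroup V]

noncomputable abbrev E2 (V : Type*) := lp (fun _ : V => ℂ) 2

theorem memE (u : V → ℂ) : Memℓp u 2 ↔ Summable fun v => ‖u v‖ ^ 2 := by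
  rw [memℓp_gen_iff (by norm_num)]
  simp

theorem normE (u : E2 V) : ‖u‖ ^ 2 = ∑' v, ‖u v‖ ^ 2 := by
  have := lp.norm_rpow_eq_tsum (p := 2) (by norm_num) u
  simpa using this

/-- Translation. -/
noncomputable def tr (w : V) (u : E2 V) : E2 V :=
  ⟨fun v => u (v - w), by
    have h := (memE (u : V → ℂ)).1 u.2
    exact (memE _).2 ((Equiv.subRight w).summable_iff.2 h)⟩

theorem tr_apply (w : V) (u : E2 V) (v : V) : tr w u v = u (v - w) := rfl

theorem norm_tr (w : V) (u : E2 V) : ‖tr w u‖ = ‖u‖ := by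
  have h : ‖tr w u‖ ^ 2 = ‖u‖ ^ 2 := by
    rw [normE, normE]
    exact (Equiv.subRight w).tsum_eq (fun v => ‖u v‖ ^ 2)
  exact (pow_left_inj₀ (norm_nonneg _) (norm_nonneg _) two_ne_zero).1 h

/-- Evaluation at a coordinate. -/
noncomputable def ev (v : V) : E2 V →L[ℂ] ℂ :=
  LinearMap.mkContinuous
    { toFun := fun u => u v
      map_add' := fun _ _ => rfl
      map_smul' := fun _ _ => rfl } 1 (fun u => by
        rw [one_mul]
        exact lp.norm_apply_le_norm (by norm_num) u v)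

theorem ev_apply (v : V) (u : E2 V) : ev v u = u v := rfl

/-- Convolution of an absolutely summable function with a square summable one. -/
noncomputable def cv (f : V → ℂ) (u : E2 V) : E2 V := ∑' w, f w • tr w u

theorem cv_summable {f : V → ℂ} (hf : Summable fun v => ‖f v‖) (u : E2 V) :
    Summable fun w => f w • tr w u := by
  apply Summable.of_norm
  simp only [norm_smul, norm_tr]
  exact hf.mul_right _

theorem cv_apply {f : V → ℂ} (hf : Summable fun v => ‖f v‖) (u : E2 V) (v : V) :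
    cv f u v = ∑' w, f w * u (v - w) := by
  have h := (ev v).map_tsum (cv_summable hf u)
  exact h

theorem norm_cv_le {f : V → ℂ} (hf : Summable fun v => ‖f v‖) (u : E2 V) :
    ‖cv f u‖ ≤ (∑' w, ‖f w‖) * ‖u‖ := by
  unfold cv
  refine (norm_tsum_le_tsum_norm ?_).trans ?_
  · simp only [norm_smul, norm_tr]
    exact hf.mul_right _
  · simp only [norm_smul, norm_tr]
    rw [tsum_mul_right]

theorem cv_sub_left {f g : V → ℂ} (hf : Summable fun v => ‖f v‖) (hg : Summable fun v => ‖g v‖)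
    (u : E2 V) : cv (fun v => f v - g v) u = cv f u - cv g u := by
  unfold cv
  rw [← (cv_summable hf u).tsum_sub (cv_summable hg u)]
  simp only [sub_smul]

theorem tr_sub (w : V) (u u' : E2 V) : tr w (u - u') = tr w u - tr w u' := rfl

theorem cv_sub_right {f : V → ℂ} (hf : Summable fun v => ‖f v‖) (u u' : E2 V) :
    cv f (u - u') = cv f u - cv f u' := by
  unfold cv
  rw [← (cv_summable hf u).tsum_sub (cv_summable hf u')]
  simp only [tr_sub, smul_sub]

theorem l2_lower' [Module ℚ V] (h : V → ℂ)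
    (hh : Summable fun v => ‖h v‖) (d : ℝ) (hd : 0 < d)
    (hlow : ∀ φ : V →+ ℝ, d ≤ ‖hat h φ‖) (u : E2 V) : d * ‖u‖ ≤ ‖cv h u‖ := by
  obtain ⟨-, h2⟩ := l2_lower h hh d hd hlow u ((memE _).1 u.2)
  have h3 : ∑' v, ‖∑' w, h w * u (v - w)‖ ^ 2 = ‖cv h u‖ ^ 2 := by
    rw [normE]
    exact tsum_congr fun v => by rw [cv_apply hh]
  rw [h3, ← normE] at h2
  refine (pow_le_pow_iff_left₀ (by positivity) (norm_nonneg _) two_ne_zero).1 ?_
  rw [mul_pow]
  exact h2

end L2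

section Cut

variable {V : Type*}

open Classical in
/-- Restriction to a finite set. -/
noncomputable def cut (F : Finset V) (f : V → ℂ) : V → ℂ := fun v => if v ∈ F then f v else 0

theorem cut_norm_summable (F : Finset V) (f : V → ℂ) : Summable fun v => ‖cut F f v‖ := by
  classical
  apply summable_of_ne_finset_zero (s := F)
  intro v hv
  simp [cut, hv]

theorem cut_tsum_norm (F : Finset V) (f : V → ℂ) : ∑' v, ‖cut F f v‖ = ∑ v ∈ F, ‖f v‖ := by
  classical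
  rw [tsum_eq_sum (s := F)]
  · exact Finset.sum_congr rfl fun v hv => by simp [cut, hv]
  · intro v hv
    simp [cut, hv]

theorem tail_norm_summable (F : Finset V) {f : V → ℂ} (hf : Summable fun v => ‖f v‖) :
    Summable fun v => ‖f v - cut F f v‖ := by
  classical
  refine Summable.of_nonneg_of_le (fun v => norm_nonneg _) (fun v => ?_) hf
  unfold cut
  split_ifs
  · simp
  · simp

theorem tail_tsum (F : Finset V) {f : V → ℂ} (hf : Summable fun v => ‖f v‖) :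
    ∑' v, ‖f v - cut F f v‖ = ∑' v, ‖f v‖ - ∑ v ∈ F, ‖f v‖ := by
  classical
  rw [← cut_tsum_norm, ← hf.tsum_sub (cut_norm_summable F f)]
  refine tsum_congr fun v => ?_
  unfold cut
  split_ifs
  · simp
  · simp

theorem exists_cut [LinearOrder V] [Zero V] {f : V → ℂ} (hf : Summable fun v => ‖f v‖)
    (hpos : ∀ v, v ≤ 0 → f v = 0) {ε : ℝ} (hε : 0 < ε) :
    ∃ F0 : Finset V, ∀ F : Finset V, (∀ v ∈ F0, 0 < v → v ∈ F) →
      ∑' v, ‖f v - cut F f v‖ ≤ ε := by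
  classical
  obtain ⟨F0, hF0⟩ := (hf.hasSum.eventually (lt_mem_nhds (show ∑' v, ‖f v‖ - ε < ∑' v, ‖f v‖ by
    linarith))).exists
  refine ⟨F0, fun F hF => ?_⟩
  rw [tail_tsum F hf]
  have h1 : ∑ v ∈ F0, ‖f v‖ = ∑ v ∈ F0.filter (0 < ·), ‖f v‖ := by
    symm
    apply Finset.sum_filter_of_ne
    intro v _ hv
    by_contra hcon
    exact hv (by rw [hpos v (not_lt.1 hcon)]; simp)
  have h2 : ∑ v ∈ F0.filter (0 < ·), ‖f v‖ ≤ ∑ v ∈ F, ‖f v‖ := by
    apply Finset.sum_le_sum_of_subset_of_nonneg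
    · intro v hv
      rw [Finset.mem_filter] at hv
      exact hF v hv.1 hv.2
    · intros; exact norm_nonneg _
  linarith

end Cut

section Pair

variable {V : Type*} [AddCommGroup V]

theorem pair_summable {ψ : V → ℂ} (hψ : ∀ x, ‖ψ x‖ ≤ 1) {g h : V → ℂ}
    (hg : Summable fun v => ‖g v‖) (hh : Summable fun v => ‖h v‖) :
    Summable fun p : V × V => ‖ψ (p.1 + p.2) * (g p.1 * h p.2)‖ := by
  refine Summable.of_nonneg_of_le (fun _ => norm_nonneg _) (fun p => ?_)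
    (hg.mul_of_nonneg hh (fun _ => norm_nonneg _) (fun _ => norm_nonneg _))
  rw [norm_mul, norm_mul]
  exact mul_le_of_le_one_left (by positivity) (hψ _)

theorem pair_bound {ψ : V → ℂ} (hψ : ∀ x, ‖ψ x‖ ≤ 1) {g h : V → ℂ}
    (hg : Summable fun v => ‖g v‖) (hh : Summable fun v => ‖h v‖) :
    ‖∑' p : V × V, ψ (p.1 + p.2) * (g p.1 * h p.2)‖ ≤ (∑' v, ‖g v‖) * ∑' v, ‖h v‖ := by
  have h1 := hg.mul_of_nonneg hh (fun _ => norm_nonneg _) (fun _ => norm_nonneg _)
  rw [hg.tsum_mul_tsum hh h1]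
  refine (norm_tsum_le_tsum_norm (pair_summable hψ hg hh)).trans ?_
  refine (pair_summable hψ hg hh).tsum_le_tsum (fun p => ?_) h1
  rw [norm_mul, norm_mul]
  exact mul_le_of_le_one_left (by positivity) (hψ _)

/-- The pairing identity. -/
theorem pair_eq {ψ : V → ℂ} (hψ : ∀ x, ‖ψ x‖ ≤ 1) {g h : V → ℂ}
    (hg : Summable fun v => ‖g v‖) (hh : Summable fun v => ‖h v‖) :
    ∑' x, ψ x * ∑' w, g w * h (x - w) = ∑' p : V × V, ψ (p.1 + p.2) * (g p.1 * h p.2) := by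
  let e : V × V ≃ V × V :=
    { toFun := fun p => (p.2, p.1 - p.2)
      invFun := fun p => (p.1 + p.2, p.1)
      left_inv := fun p => by simp
      right_inv := fun p => by simp }
  have hs := (pair_summable hψ hg hh).of_norm
  rw [← e.tsum_eq]
  have hs' := e.summable_iff.2 hs
  have h2 : ∑' p, (fun p : V × V => ψ (p.1 + p.2) * (g p.1 * h p.2)) (e p) =
      ∑' x, ∑' w, (fun p : V × V => ψ (p.1 + p.2) * (g p.1 * h p.2)) (e (x, w)) :=
    hs'.tsum_prod
  refine Eq.trans ?_ h2.symm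
  refine tsum_congr fun x => ?_
  rw [← tsum_mul_left]
  refine tsum_congr fun w => ?_
  show ψ x * (g w * h (x - w)) = ψ (w + (x - w)) * (g w * h (x - w))
  rw [add_sub_cancel]

theorem pair_cut {ψ : V → ℂ} (F : Finset V) (g h : V → ℂ) :
    ∑' p : V × V, ψ (p.1 + p.2) * (cut F g p.1 * cut F h p.2) =
      ∑ a ∈ F, ∑ b ∈ F, ψ (a + b) * (g a * h b) := by
  classical
  rw [tsum_eq_sum (s := F ×ˢ F), Finset.sum_product]
  · refine Finset.sum_congr rfl fun a ha => Finset.sum_congr rfl fun b hb => ?_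
    simp [cut, ha, hb]
  · rintro ⟨a, b⟩ hab
    rw [Finset.mem_product, not_and_or] at hab
    rcases hab with hab | hab <;> simp only at hab <;> simp [cut, hab]

theorem pair_diff {ψ : V → ℂ} (hψ : ∀ x, ‖ψ x‖ ≤ 1) {g h : V → ℂ}
    (hg : Summable fun v => ‖g v‖) (hh : Summable fun v => ‖h v‖) (F : Finset V) {B ε : ℝ}
    (hgB : ∑' v, ‖g v‖ ≤ B) (hhB : ∑' v, ‖h v‖ ≤ B) (hB : 0 < B) (hε : 0 < ε)
    (h1 : ∑' v, ‖g v - cut F g v‖ ≤ ε) (h2 : ∑' v, ‖h v - cut F h v‖ ≤ ε) :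
    ‖∑' p : V × V, ψ (p.1 + p.2) * (g p.1 * h p.2) -
      ∑ a ∈ F, ∑ b ∈ F, ψ (a + b) * (g a * h b)‖ ≤ 2 * B * ε := by
  rw [← pair_cut]
  have e1 := (pair_summable hψ hg hh).of_norm
  have e2 := (pair_summable hψ (cut_norm_summable F g) (cut_norm_summable F h)).of_norm
  have e3 := (pair_summable hψ (tail_norm_summable F hg) hh).of_norm
  have e4 := (pair_summable hψ (cut_norm_summable F g) (tail_norm_summable F hh)).of_norm
  have e5 := pair_bound hψ (tail_norm_summable F hg) hh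
  have e6 := pair_bound hψ (cut_norm_summable F g) (tail_norm_summable F hh)
  have e7 : ∑' p : V × V, ψ (p.1 + p.2) * (g p.1 * h p.2) -
      ∑' p : V × V, ψ (p.1 + p.2) * (cut F g p.1 * cut F h p.2) =
      ∑' p : V × V, ψ (p.1 + p.2) * ((g p.1 - cut F g p.1) * h p.2) +
      ∑' p : V × V, ψ (p.1 + p.2) * (cut F g p.1 * (h p.2 - cut F h p.2)) := by
    rw [← e1.tsum_sub e2, ← e3.tsum_add e4]
    refine tsum_congr fun p => ?_
    ring
  have e8 : ∑' v, ‖cut F g v‖ ≤ B := by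
    rw [cut_tsum_norm]
    exact (hg.sum_le_tsum F (fun _ _ => norm_nonneg _)).trans hgB
  have e9 : 0 ≤ ∑' v, ‖cut F g v‖ := tsum_nonneg fun _ => norm_nonneg _
  have e10 : 0 ≤ ∑' v, ‖h v‖ := tsum_nonneg fun _ => norm_nonneg _
  have e11 : 0 ≤ ∑' v, ‖g v - cut F g v‖ := tsum_nonneg fun _ => norm_nonneg _
  have e12 : 0 ≤ ∑' v, ‖h v - cut F h v‖ := tsum_nonneg fun _ => norm_nonneg _
  rw [e7]
  refine (norm_add_le _ _).trans ?_
  have e13 : (∑' v, ‖g v - cut F g v‖) * (∑' v, ‖h v‖) ≤ ε * B := by gcongr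
  have e14 : (∑' v, ‖cut F g v‖) * (∑' v, ‖h v - cut F h v‖) ≤ B * ε := by gcongr
  linarith

end Pair

/-- The lower bound for the sum of masses. -/
theorem mass_low {c : ℕ → ℝ} (hc : ∀ i, 0 < c i) (hcs : Summable c) {b : ℕ → ℂ}
    (hb : ∀ i, ‖b i‖ ≤ 1) {a p : ℕ} (hap : a ≤ p) (hb1 : ∀ i, a ≤ i → i < p → b i = 1) {ε : ℝ}
    (hp : ∑' i, c i - ∑ i ∈ Finset.range p, c i ≤ ε) :
    ∑' i, c (i + a) - ∑ i ∈ Finset.range a, c i - 2 * ε ≤ ‖∑' i, b i * (c i : ℂ)‖ := by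
  classical
  have hs1 : Summable fun i => ‖b i * (c i : ℂ)‖ := by
    refine Summable.of_nonneg_of_le (fun _ => norm_nonneg _) (fun i => ?_) hcs
    rw [norm_mul, Complex.norm_real, Real.norm_of_nonneg (hc i).le]
    exact mul_le_of_le_one_left (hc i).le (hb i)
  have hcC : Summable fun i => (c i : ℂ) := by exact_mod_cast (Complex.summable_ofReal.2 hcs)
  have h1 : ∑' i, b i * (c i : ℂ) = ∑' i, (c i : ℂ) - ∑' i, (1 - b i) * (c i : ℂ) := by
    have : Summable fun i => (1 - b i) * (c i : ℂ) := by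
      have := hcC.sub hs1.of_norm
      refine this.congr fun i => by ring
    rw [← hcC.tsum_sub this]
    exact tsum_congr fun i => by ring
  have hfin : Summable fun i => if i ∈ Finset.Ico a p then c i else 0 := by
    apply summable_of_ne_finset_zero (s := Finset.Ico a p)
    intro i hi
    rw [if_neg hi]
  have hfinsum : ∑' i, (if i ∈ Finset.Ico a p then c i else 0) = ∑ i ∈ Finset.Ico a p, c i := by
    rw [tsum_eq_sum (s := Finset.Ico a p)]
    · exact Finset.sum_congr rfl fun i hi => by rw [if_pos hi]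
    · intro i hi
      rw [if_neg hi]
  have h2 : ‖∑' i, (1 - b i) * (c i : ℂ)‖ ≤ 2 * (∑' i, c i) - 2 * ∑ i ∈ Finset.Ico a p, c i := by
    rw [← hfinsum, ← tsum_mul_left, ← tsum_mul_left,
      ← (hcs.mul_left 2).tsum_sub (hfin.mul_left 2)]
    refine tsum_of_norm_bounded ((hcs.mul_left 2).sub (hfin.mul_left 2)).hasSum fun i => ?_
    rw [norm_mul, Complex.norm_real, Real.norm_of_nonneg (hc i).le]
    split_ifs with hi
    · rw [Finset.mem_Ico] at hi
      rw [hb1 i hi.1 hi.2]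
      simp
    · have : ‖1 - b i‖ ≤ 2 := by
        refine (norm_sub_le _ _).trans ?_
        rw [norm_one]
        linarith [hb i]
      nlinarith [hc i]
  have h3 : ∑ i ∈ Finset.Ico a p, c i = ∑ i ∈ Finset.range p, c i - ∑ i ∈ Finset.range a, c i := by
    rw [Finset.sum_Ico_eq_sub _ hap]
  have h4 : ∑' i, c i = ∑ i ∈ Finset.range a, c i + ∑' i, c (i + a) :=
    (hcs.sum_add_tsum_nat_add a).symm
  have h5 : ‖∑' i, (c i : ℂ)‖ = ∑' i, c i := by
    rw [← Complex.ofReal_tsum, Complex.norm_real, Real.norm_of_nonneg (tsum_nonneg fun i => (hc i).le)]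
  rw [h1]
  have h6 := norm_sub_norm_le (∑' i, (c i : ℂ)) (∑' i, (1 - b i) * (c i : ℂ))
  rw [h5] at h6
  rw [h3] at h2
  linarith

end J663
end Pool.Agent.Helper976.Fac


namespace Pool.Agent.Helper976.Fac
namespace J663

theorem norm_exp_neg_mul_le {z : ℂ} (hz : 0 ≤ z.re) {x : ℝ} (hx : 0 ≤ x) :
    ‖exp (-(z * (x : ℂ)))‖ ≤ 1 := by
  rw [Complex.norm_exp]
  have : (-(z * (x : ℂ))).re = -(z.re * x) := by simp
  rw [this, Real.exp_le_one_iff]
  nlinarith [mul_nonneg hz hx]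

theorem common {V : Type*} [AddCommGroup V] [LinearOrder V] [IsOrderedAddMonoid V]
    (g h : V → ℂ) (hg : Summable fun v => ‖g v‖) (hh : Summable fun v => ‖h v‖)
    (hgpos : ∀ v, v ≤ 0 → g v = 0) (hhpos : ∀ v, v ≤ 0 → h v = 0)
    (B : ℝ) (hB : 0 < B) (hgB : ∑' v, ‖g v‖ ≤ B) (hhB : ∑' v, ‖h v‖ ≤ B)
    (c : ℕ → ℝ) (hc : ∀ i, 0 < c i) (hcs : Summable c)
    (τ : ℕ → V) (hτpos : ∀ i, 0 < τ i) (hτinj : Function.Injective τ)
    (hconv : ∀ v, ∑' w, g w * h (v - w) = ∑' i, Set.indicator {τ i} (fun _ => (c i : ℂ)) v)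
    (ω : V → ℝ) 
    (hL : ∀ F : Finset V, (∀ v ∈ F, 0 < v) → ∀ ε : ℝ, 0 < ε → ∃ L : V →+ ℝ,
      (∀ v ∈ F, 0 ≤ L v) ∧ (∀ v ∈ F, ω v = 1 → L v = 0) ∧
      (∀ v ∈ F, |Real.exp (-(L v)) - ω v| ≤ ε))
    (a : ℕ) (ha : ∀ i, a ≤ i → ω (τ i) = 1)
    (hmass : ∑ i ∈ Finset.range a, c i < ∑' i, c (i + a))
    (d : ℝ) (hlow : ∀ φ : V →+ ℝ, d ≤ ‖hat h φ‖) (ε : ℝ) (hε : 0 < ε) (hεd : ε < d) :
    ∃ (F : Finset V) (L : V →+ ℝ), (∀ v ∈ F, 0 < v) ∧ (∀ v ∈ F, 0 ≤ L v) ∧
      (∀ v ∈ F, |Real.exp (-(L v)) - ω v| ≤ ε) ∧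
      (∑' v, ‖h v - cut F h v‖ ≤ ε) ∧
      ∀ (φ : V →+ ℝ) (z : ℂ), 0 ≤ z.re →
        d - ε ≤ ‖∑ v ∈ F, h v * exp (I * (φ v : ℂ) - z * (L v : ℂ))‖ := by
  classical
  set κ0 := ∑' i, c (i + a) - ∑ i ∈ Finset.range a, c i with hκ0
  have hκ0p : 0 < κ0 := by rw [hκ0]; linarith
  set ε1 := min ε (κ0 / (2 * (2 * B + 2))) with hε1
  have hε1p : 0 < ε1 := lt_min hε (by positivity)
  have hε1le : ε1 ≤ ε := min_le_left _ _
  have hε1κ : (2 * B + 2) * ε1 < κ0 := by
    have : ε1 ≤ κ0 / (2 * (2 * B + 2)) := min_le_right _ _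
    rw [le_div_iff₀ (by positivity)] at this
    nlinarith
  obtain ⟨F1, hF1⟩ := exists_cut hg hgpos hε1p
  obtain ⟨F2, hF2⟩ := exists_cut hh hhpos hε1p
  obtain ⟨p, hap, hp⟩ : ∃ p, a ≤ p ∧ ∑' i, c i - ∑ i ∈ Finset.range p, c i ≤ ε1 := by
    have h1 := hcs.hasSum.tendsto_sum_nat.eventually
      (lt_mem_nhds (show ∑' i, c i - ε1 < ∑' i, c i by linarith))
    obtain ⟨p, hp1, hp2⟩ := (h1.and (eventually_ge_atTop a)).exists
    exact ⟨p, hp2, by linarith⟩
  set F : Finset V := (F1 ∪ F2 ∪ (Finset.range p).image τ).filter (0 < ·) with hFdef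
  have hFpos : ∀ v ∈ F, 0 < v := fun v hv => (Finset.mem_filter.1 hv).2
  have hFg : ∑' v, ‖g v - cut F g v‖ ≤ ε1 := by
    apply hF1
    intro v hv hv0
    rw [hFdef, Finset.mem_filter]
    exact ⟨by simp [hv], hv0⟩
  have hFh : ∑' v, ‖h v - cut F h v‖ ≤ ε1 := by
    apply hF2
    intro v hv hv0
    rw [hFdef, Finset.mem_filter]
    exact ⟨by simp [hv], hv0⟩
  have hFτ : ∀ i, i < p → τ i ∈ F := by
    intro i hi
    rw [hFdef, Finset.mem_filter]
    refine ⟨?_, hτpos i⟩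
    rw [Finset.mem_union]
    right
    exact Finset.mem_image_of_mem _ (Finset.mem_range.2 hi)
  obtain ⟨L, hL0, hL1, hL2⟩ := hL F hFpos ε1 hε1p
  refine ⟨F, L, hFpos, hL0, fun v hv => (hL2 v hv).trans hε1le, hFh.trans hε1le, ?_⟩
  -- the semicharacter
  set S := AddSubmonoid.closure (F : Set V) with hS
  have hLS : ∀ x ∈ S, 0 ≤ L x := by
    intro x hx
    induction hx using AddSubmonoid.closure_induction with
    | mem x hx => exact hL0 x hx
    | zero => simp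
    | add x y _ _ hx hy => rw [map_add]; exact add_nonneg hx hy
  have hlowF : ∀ φ : V →+ ℝ, d - ε1 ≤ ‖∑ v ∈ F, h v * exp (I * (φ v : ℂ))‖ := by
    intro φ
    have hn : ∀ v, ‖exp (I * (φ v : ℂ))‖ = 1 := fun v => by
      rw [mul_comm]; exact Complex.norm_exp_ofReal_mul_I _
    have h1 : ∑ v ∈ F, h v * exp (I * (φ v : ℂ)) = ∑' v, cut F h v * exp (I * (φ v : ℂ)) := by
      rw [tsum_eq_sum (s := F)]
      · exact Finset.sum_congr rfl fun v hv => by simp [cut, hv]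
      · intro v hv; simp [cut, hv]
    have s1 : Summable fun v => h v * exp (I * (φ v : ℂ)) := by
      apply Summable.of_norm
      simp only [norm_mul, hn, mul_one]
      exact hh
    have s2 : Summable fun v => cut F h v * exp (I * (φ v : ℂ)) := by
      apply Summable.of_norm
      simp only [norm_mul, hn, mul_one]
      exact cut_norm_summable F h
    have h2 : ‖hat h φ - ∑ v ∈ F, h v * exp (I * (φ v : ℂ))‖ ≤ ε1 := by
      rw [h1, hat, ← s1.tsum_sub s2]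
      refine le_trans (tsum_of_norm_bounded (tail_norm_summable F hh).hasSum fun v => ?_) hFh
      rw [← sub_mul, norm_mul, hn, mul_one]
    have h3 := hlow φ
    have h4 := norm_sub_norm_le (hat h φ) (∑ v ∈ F, h v * exp (I * (φ v : ℂ)))
    linarith
  have key : ∀ z : ℂ, 0 ≤ z.re →
      (κ0 - (2 * B + 2) * ε1) / B ≤ ‖∑ v ∈ F, h v * exp (-(z * (L v : ℂ)))‖ := by
    intro z hz
    set ψ : V → ℂ := fun x => if x ∈ S then exp (-(z * (L x : ℂ))) else 0 with hψ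
    have hψ1 : ∀ x, ‖ψ x‖ ≤ 1 := by
      intro x
      simp only [hψ]
      split_ifs with hx
      · exact norm_exp_neg_mul_le hz (hLS x hx)
      · simp
    have hFS : ∀ x ∈ F, x ∈ S := fun x hx => AddSubmonoid.subset_closure hx
    have e1 := pair_eq hψ1 hg hh
    have e2 := pair_diff hψ1 hg hh F hgB hhB hB hε1p hFg hFh
    rw [← e1] at e2
    have e3 : ∑ x ∈ F, ∑ y ∈ F, ψ (x + y) * (g x * h y) =
        (∑ v ∈ F, g v * exp (-(z * (L v : ℂ)))) * ∑ v ∈ F, h v * exp (-(z * (L v : ℂ))) := by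
      rw [Finset.sum_mul_sum]
      refine Finset.sum_congr rfl fun x hx => Finset.sum_congr rfl fun y hy => ?_
      have hxy : x + y ∈ S := S.add_mem (hFS x hx) (hFS y hy)
      simp only [hψ]
      rw [if_pos hxy]
      have : -(z * ((L (x + y) : ℝ) : ℂ)) = -(z * (L x : ℂ)) + -(z * (L y : ℂ)) := by
        rw [map_add]; push_cast; ring
      rw [this, Complex.exp_add]
      ring
    rw [e3] at e2
    have hCτ : ∀ j, ∑' i, Set.indicator {τ i} (fun _ => (c i : ℂ)) (τ j) = (c j : ℂ) := by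
      intro j
      rw [tsum_eq_single j]
      · simp
      · intro i hi
        rw [Set.indicator_of_notMem]
        intro hcon
        exact hi (hτinj (Set.mem_singleton_iff.1 hcon).symm)
    have e4 : ∑' x, ψ x * ∑' w, g w * h (x - w) = ∑' i, ψ (τ i) * (c i : ℂ) := by
      have : ∀ x, ψ x * ∑' w, g w * h (x - w) =
          ψ x * ∑' i, Set.indicator {τ i} (fun _ => (c i : ℂ)) x := fun x => by rw [hconv x]
      rw [tsum_congr this, ← hτinj.tsum_eq]
      · exact tsum_congr fun j => by rw [hCτ j]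
      · intro x hx
        by_contra hcon
        apply hx
        have : ∀ i, Set.indicator {τ i} (fun _ => (c i : ℂ)) x = 0 := by
          intro i
          rw [Set.indicator_of_notMem]
          intro h1
          exact hcon ⟨i, (Set.mem_singleton_iff.1 h1).symm⟩
        simp [this]
    have e5 := mass_low hc hcs (b := fun i => ψ (τ i)) (fun i => hψ1 _) hap (by
      intro i hi1 hi2
      simp only [hψ]
      rw [if_pos (hFS _ (hFτ i hi2)), hL1 _ (hFτ i hi2) (ha i hi1)]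
      simp) hp
    rw [e4] at e2
    set G := ∑ v ∈ F, g v * exp (-(z * (L v : ℂ))) with hG
    set H := ∑ v ∈ F, h v * exp (-(z * (L v : ℂ))) with hH
    have e6 := norm_sub_norm_le (∑' i, ψ (τ i) * (c i : ℂ)) (G * H)
    have e7 : κ0 - (2 * B + 2) * ε1 ≤ ‖G * H‖ := by
      have : κ0 - 2 * ε1 ≤ ‖∑' i, ψ (τ i) * (c i : ℂ)‖ := e5
      linarith
    have e8 : ‖G‖ ≤ B := by
      refine le_trans (norm_sum_le _ _) (le_trans ?_ hgB)
      refine le_trans (Finset.sum_le_sum fun v hv => ?_) (hg.sum_le_tsum F fun _ _ => norm_nonneg _)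
      rw [norm_mul]
      exact mul_le_of_le_one_right (norm_nonneg _) (norm_exp_neg_mul_le hz (hL0 v hv))
    rw [norm_mul] at e7
    rw [div_le_iff₀ hB]
    nlinarith [norm_nonneg H]
  intro φ z hz
  have hκ1 : 0 < (κ0 - (2 * B + 2) * ε1) / B := div_pos (by linarith) hB
  have := lemmaB F h L hL0 (d - ε1) (by linarith) hlowF _ hκ1 key φ z hz
  linarith

theorem tail_omega {V : Type*} [AddCommGroup V] [LinearOrder V] [IsOrderedAddMonoid V]
    {h : V → ℂ} (hh : Summable fun v => ‖h v‖) (hhpos : ∀ v, v ≤ 0 → h v = 0)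
    {B : ℝ} (hhB : ∑' v, ‖h v‖ ≤ B) {ω : V → ℝ} (hω0 : ∀ v, 0 < v → 0 ≤ ω v)
    (hω1 : ∀ v, 0 < v → ω v ≤ 1) {F : Finset V} {L : V →+ ℝ} {ε : ℝ} (hε : 0 < ε)
    (hFL : ∀ v ∈ F, |Real.exp (-(L v)) - ω v| ≤ ε)
    (hFh : ∑' v, ‖h v - cut F h v‖ ≤ ε) :
    (Summable fun v => ‖h v * (ω v : ℂ)‖) ∧
    (Summable fun v => ‖cut F h v * exp (-(L v : ℂ))‖) ∧
    (Summable fun v => ‖h v * (ω v : ℂ) - cut F h v * exp (-(L v : ℂ))‖) ∧
    ∑' v, ‖h v * (ω v : ℂ) - cut F h v * exp (-(L v : ℂ))‖ ≤ (B + 1) * ε := by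
  classical
  have hb : ∀ v, ‖h v * (ω v : ℂ)‖ ≤ ‖h v‖ := by
    intro v
    rcases le_or_gt v 0 with hv | hv
    · rw [hhpos v hv]; simp
    · rw [norm_mul, Complex.norm_real, Real.norm_of_nonneg (hω0 v hv)]
      exact mul_le_of_le_one_right (norm_nonneg _) (hω1 v hv)
  have s1 : Summable fun v => ‖h v * (ω v : ℂ)‖ :=
    Summable.of_nonneg_of_le (fun _ => norm_nonneg _) hb hh
  have s2 : Summable fun v => ‖cut F h v * exp (-(L v : ℂ))‖ := by
    apply summable_of_ne_finset_zero (s := F)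
    intro v hv
    simp [cut, hv]
  have hpt : ∀ v, ‖h v * (ω v : ℂ) - cut F h v * exp (-(L v : ℂ))‖ ≤
      ε * ‖h v‖ + ‖h v - cut F h v‖ := by
    intro v
    unfold cut
    split_ifs with hv
    · rw [← mul_sub, norm_mul]
      have h1 : (ω v : ℂ) - exp (-(L v : ℂ)) = ((ω v - Real.exp (-(L v)) : ℝ) : ℂ) := by
        push_cast; rfl
      rw [h1, Complex.norm_real, Real.norm_eq_abs, abs_sub_comm]
      have h2 := hFL v hv
      simp only [sub_self, norm_zero, add_zero]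
      rw [mul_comm]
      exact mul_le_mul_of_nonneg_right h2 (norm_nonneg _)
    · simp only [zero_mul, sub_zero]
      have := hb v
      have := mul_nonneg hε.le (norm_nonneg (h v))
      linarith
  have s3 : Summable fun v => ε * ‖h v‖ + ‖h v - cut F h v‖ :=
    (hh.mul_left ε).add (tail_norm_summable F hh)
  have s4 : Summable fun v => ‖h v * (ω v : ℂ) - cut F h v * exp (-(L v : ℂ))‖ :=
    Summable.of_nonneg_of_le (fun _ => norm_nonneg _) hpt s3
  refine ⟨s1, s2, s4, ?_⟩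
  refine (s4.tsum_le_tsum hpt s3).trans ?_
  rw [(hh.mul_left ε).tsum_add (tail_norm_summable F hh), tsum_mul_left]
  nlinarith

theorem hat_cut_exp {V : Type*} [AddCommGroup V] (F : Finset V) (h : V → ℂ) (L : V →+ ℝ)
    (φ : V →+ ℝ) (z : ℂ) : ∑ v ∈ F, h v * exp (I * (φ v : ℂ) - z * (L v : ℂ)) =
      hat (fun v => cut F h v * exp (-(z * (L v : ℂ)))) φ := by
  classical
  unfold hat
  rw [tsum_eq_sum (s := F)]
  · refine Finset.sum_congr rfl fun v hv => ?_
    have : I * (φ v : ℂ) - z * (L v : ℂ) = -(z * (L v : ℂ)) + I * (φ v : ℂ) := by ring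
    rw [this, Complex.exp_add]
    simp only [cut, if_pos hv]
    ring
  · intro v hv
    simp [cut, hv]

theorem hat_diff {V : Type*} [AddCommGroup V] {f g : V → ℂ} (hf : Summable fun v => ‖f v‖)
    (hg : Summable fun v => ‖g v‖) (hfg : Summable fun v => ‖f v - g v‖) (φ : V →+ ℝ) :
    ‖hat g φ‖ - ∑' v, ‖f v - g v‖ ≤ ‖hat f φ‖ := by
  have hn : ∀ v, ‖exp (I * (φ v : ℂ))‖ = 1 := fun v => by
    rw [mul_comm]; exact Complex.norm_exp_ofReal_mul_I _
  have s1 : Summable fun v => f v * exp (I * (φ v : ℂ)) := by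
    apply Summable.of_norm
    simp only [norm_mul, hn, mul_one]
    exact hf
  have s2 : Summable fun v => g v * exp (I * (φ v : ℂ)) := by
    apply Summable.of_norm
    simp only [norm_mul, hn, mul_one]
    exact hg
  have h2 : ‖hat g φ - hat f φ‖ ≤ ∑' v, ‖f v - g v‖ := by
    rw [hat, hat, ← s2.tsum_sub s1]
    refine tsum_of_norm_bounded hfg.hasSum fun v => ?_
    rw [← sub_mul, norm_mul, hn, mul_one, norm_sub_rev]
  have h4 := norm_sub_norm_le (hat g φ) (hat f φ)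
  linarith

theorem conv_cast {V : Type*} [AddCommGroup V] [DecidableEq V] {τ : ℕ → V} {c : ℕ → ℝ} {v : V} :
    ∑' i, (if v = τ i then (c i : ℂ) else 0) =
      ∑' i, Set.indicator {τ i} (fun _ => (c i : ℂ)) v := by
  refine tsum_congr fun i => ?_
  by_cases h : v = τ i
  · simp [h]
  · rw [if_neg h, Set.indicator_of_notMem]
    simpa using h

open Classical in
/-- TARGET 1 (propagation of the lower bound). -/
theorem propagate_low {V : Type*} [AddCommGroup V] [LinearOrder V] [IsOrderedAddMonoid V]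
    [Module ℚ V] (g h : V → ℂ) (hg : Summable fun v => ‖g v‖) (hh : Summable fun v => ‖h v‖)
    (hgpos : ∀ v, v ≤ 0 → g v = 0) (hhpos : ∀ v, v ≤ 0 → h v = 0)
    (B : ℝ) (hB : 0 < B) (hgB : ∑' v, ‖g v‖ ≤ B) (hhB : ∑' v, ‖h v‖ ≤ B)
    (c : ℕ → ℝ) (hc : ∀ i, 0 < c i) (hcs : Summable c)
    (τ : ℕ → V) (hτpos : ∀ i, 0 < τ i) (hτinj : Function.Injective τ)
    (hconv : ∀ v, ∑' w, g w * h (v - w) = ∑' i, if v = τ i then (c i : ℂ) else 0)
    (ω : V → ℝ) (hω0 : ∀ v, 0 < v → 0 ≤ ω v) (hω1 : ∀ v, 0 < v → ω v ≤ 1)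
    (hL : ∀ F : Finset V, (∀ v ∈ F, 0 < v) → ∀ ε : ℝ, 0 < ε → ∃ L : V →+ ℝ,
      (∀ v ∈ F, 0 ≤ L v) ∧ (∀ v ∈ F, ω v = 1 → L v = 0) ∧
      (∀ v ∈ F, |Real.exp (-(L v)) - ω v| ≤ ε))
    (a : ℕ) (ha : ∀ i, a ≤ i → ω (τ i) = 1)
    (hmass : ∑ i ∈ Finset.range a, c i < ∑' i, c (i + a))
    (d : ℝ) (hd : 0 < d) (hlow : ∀ φ : V →+ ℝ, d ≤ ‖hat h φ‖) :
    (∀ φ : V →+ ℝ, d ≤ ‖hat (fun v => h v * (ω v : ℂ)) φ‖) := by
  intro φ
  refine le_of_forall_pos_le_add fun δ hδ => ?_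
  set ε := min (d / 2) (δ / (B + 2)) with hε
  have hε0 : 0 < ε := lt_min (by linarith) (by positivity)
  have hεd : ε < d := lt_of_le_of_lt (min_le_left _ _) (by linarith)
  have hεδ : (B + 2) * ε ≤ δ := by
    have : ε ≤ δ / (B + 2) := min_le_right _ _
    rwa [le_div_iff₀ (by positivity), mul_comm] at this
  obtain ⟨F, L, -, -, hFL, hFh, hlowF⟩ := common g h hg hh hgpos hhpos B hB hgB hhB c hc hcs τ hτpos
    hτinj (fun v => (hconv v).trans conv_cast) ω hL a ha hmass d hlow ε hε0 hεd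
  obtain ⟨s1, s2, s3, hle⟩ := tail_omega hh hhpos hhB hω0 hω1 hε0 hFL hFh
  have h1 := hlowF φ 1 (by simp)
  rw [hat_cut_exp] at h1
  simp only [one_mul] at h1
  have h2 := hat_diff s1 s2 s3 φ
  linarith

open Classical in
/-- TARGET 2 (the l2 norm of the inverse does not increase). -/
theorem propagate_inv {V : Type*} [AddCommGroup V] [LinearOrder V] [IsOrderedAddMonoid V]
    [Module ℚ V] (g h : V → ℂ) (hg : Summable fun v => ‖g v‖) (hh : Summable fun v => ‖h v‖)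
    (hgpos : ∀ v, v ≤ 0 → g v = 0) (hhpos : ∀ v, v ≤ 0 → h v = 0)
    (B : ℝ) (hB : 0 < B) (hgB : ∑' v, ‖g v‖ ≤ B) (hhB : ∑' v, ‖h v‖ ≤ B)
    (c : ℕ → ℝ) (hc : ∀ i, 0 < c i) (hcs : Summable c)
    (τ : ℕ → V) (hτpos : ∀ i, 0 < τ i) (hτinj : Function.Injective τ)
    (hconv : ∀ v, ∑' w, g w * h (v - w) = ∑' i, if v = τ i then (c i : ℂ) else 0)
    (ω : V → ℝ) (hω0 : ∀ v, 0 < v → 0 ≤ ω v) (hω1 : ∀ v, 0 < v → ω v ≤ 1)
    (hL : ∀ F : Finset V, (∀ v ∈ F, 0 < v) → ∀ ε : ℝ, 0 < ε → ∃ L : V →+ ℝ,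
      (∀ v ∈ F, 0 ≤ L v) ∧ (∀ v ∈ F, ω v = 1 → L v = 0) ∧
      (∀ v ∈ F, |Real.exp (-(L v)) - ω v| ≤ ε))
    (a : ℕ) (ha : ∀ i, a ≤ i → ω (τ i) = 1)
    (hmass : ∑ i ∈ Finset.range a, c i < ∑' i, c (i + a))
    (d : ℝ) (hd : 0 < d) (hlow : ∀ φ : V →+ ℝ, d ≤ ‖hat h φ‖)
    (k k' : V → ℂ) (hk : Summable fun v => ‖k v‖ ^ 2) (hk' : Summable fun v => ‖k' v‖ ^ 2)
    (hk1 : ∀ v, ∑' w, h w * k (v - w) = if v = 0 then 1 else 0)
    (hk1' : ∀ v, ∑' w, (h w * (ω w : ℂ)) * k' (v - w) = if v = 0 then 1 else 0) :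
    ∑' v, ‖k' v‖ ^ 2 ≤ ∑' v, ‖k v‖ ^ 2 := by
  have hlow' := propagate_low g h hg hh hgpos hhpos B hB hgB hhB c hc hcs τ hτpos hτinj hconv ω
    hω0 hω1 hL a ha hmass d hd hlow
  set uk : E2 V := ⟨k, (memE k).2 hk⟩ with huk
  set uk' : E2 V := ⟨k', (memE k').2 hk'⟩ with huk'
  have hbound : ∀ ε : ℝ, 0 < ε → ε < d → ‖uk'‖ ≤
      (1 + (B + 1) * ε / d) * ((1 + ε / (d - ε)) * ‖uk‖) := by
    intro ε hε0 hεd
    obtain ⟨F, L, -, hFL0, hFL, hFh, hlowF⟩ := common g h hg hh hgpos hhpos B hB hgB hhB c hc hcs τ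
      hτpos hτinj (fun v => (hconv v).trans conv_cast) ω hL a ha hmass d hlow ε hε0 hεd
    obtain ⟨s1, s2, s3, hle⟩ := tail_omega hh hhpos hhB hω0 hω1 hε0 hFL hFh
    have hcut0 : ∀ v, v ∉ F → cut F h v = 0 := fun v hv => by simp [cut, hv]
    have hlowcut : ∀ (φ : V →+ ℝ) (z : ℂ), 0 ≤ z.re →
        d - ε ≤ ‖∑ v ∈ F, cut F h v * exp (I * (φ v : ℂ) - z * (L v : ℂ))‖ := by
      intro φ z hz
      have : ∑ v ∈ F, cut F h v * exp (I * (φ v : ℂ) - z * (L v : ℂ)) =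
          ∑ v ∈ F, h v * exp (I * (φ v : ℂ) - z * (L v : ℂ)) :=
        Finset.sum_congr rfl fun v hv => by simp [cut, hv]
      rw [this]
      exact hlowF φ z hz
    have hlowhat : ∀ φ : V →+ ℝ, d - ε ≤ ‖hat (cut F h) φ‖ := by
      intro φ
      have h1 := hlowF φ 0 (by simp)
      rw [hat_cut_exp] at h1
      simpa using h1
    have hcs' := cut_norm_summable F h
    obtain ⟨k1, hk1s, hk1e⟩ := l2_inverse (cut F h) hcs' (d - ε) (by linarith) hlowhat
    set u1 : E2 V := ⟨k1, (memE k1).2 hk1s⟩ with hu1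
    obtain ⟨k2, hk2s, hk2e, hk2le⟩ := l2_mono F (cut F h) hcut0 L hFL0 (d - ε) (by linarith)
      hlowcut k1 hk1s hk1e
    set u2 : E2 V := ⟨k2, (memE k2).2 hk2s⟩ with hu2
    have n2 : ‖u2‖ ≤ ‖u1‖ := by
      refine (pow_le_pow_iff_left₀ (norm_nonneg _) (norm_nonneg _) two_ne_zero).1 ?_
      rw [normE, normE]
      exact hk2le
    -- first comparison
    have c1 : cv (cut F h) u1 = cv h uk := by
      ext v
      rw [cv_apply hcs', cv_apply hh]
      refine (hk1e v).trans (Eq.trans ?_ (hk1 v).symm)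
      split_ifs <;> rfl
    have c2 : (d - ε) * ‖u1 - uk‖ ≤ ε * ‖uk‖ := by
      refine (l2_lower' (cut F h) hcs' (d - ε) (by linarith) hlowhat (u1 - uk)).trans ?_
      rw [cv_sub_right hcs', c1, ← cv_sub_left hh hcs']
      refine (norm_cv_le (tail_norm_summable F hh) uk).trans ?_
      gcongr
    have c3 : ‖u1‖ ≤ (1 + ε / (d - ε)) * ‖uk‖ := by
      have h1 : ‖u1 - uk‖ ≤ ε / (d - ε) * ‖uk‖ := by
        rw [div_mul_eq_mul_div, le_div_iff₀ (by linarith)]
        linarith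
      have h2 := norm_sub_norm_le u1 uk
      linarith
    -- second comparison
    have c4 : cv (fun v => cut F h v * exp (-(L v : ℂ))) u2 = cv (fun v => h v * (ω v : ℂ)) uk' := by
      ext v
      rw [cv_apply s2, cv_apply s1]
      refine (hk2e v).trans (Eq.trans ?_ (hk1' v).symm)
      split_ifs <;> rfl
    have c5 : d * ‖u2 - uk'‖ ≤ ((B + 1) * ε) * ‖u2‖ := by
      refine (l2_lower' _ s1 d hd hlow' (u2 - uk')).trans ?_
      rw [cv_sub_right s1, ← c4, ← cv_sub_left s1 s2]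
      refine (norm_cv_le s3 u2).trans ?_
      gcongr
    have c6 : ‖uk'‖ ≤ (1 + (B + 1) * ε / d) * ‖u2‖ := by
      have h1 : ‖u2 - uk'‖ ≤ (B + 1) * ε / d * ‖u2‖ := by
        rw [div_mul_eq_mul_div, le_div_iff₀ hd]
        linarith
      have h2 := norm_sub_norm_le uk' u2
      rw [norm_sub_rev] at h2
      linarith
    have h7 : 0 ≤ (B + 1) * ε / d := by positivity
    exact c6.trans (mul_le_mul_of_nonneg_left (n2.trans c3) (by linarith))
  have hfin : ‖uk'‖ ≤ ‖uk‖ := by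
    have ht : Tendsto (fun ε : ℝ => (1 + (B + 1) * ε / d) * ((1 + ε / (d - ε)) * ‖uk‖))
        (𝓝[>] 0) (𝓝 ((1 + (B + 1) * 0 / d) * ((1 + 0 / (d - 0)) * ‖uk‖))) := by
      apply tendsto_nhdsWithin_of_tendsto_nhds
      have hd' : d - (0 : ℝ) ≠ 0 := by simpa using hd.ne'
      have t0 : Tendsto (fun ε : ℝ => ε) (𝓝 0) (𝓝 0) := tendsto_id
      refine Tendsto.mul ?_ (Tendsto.mul ?_ tendsto_const_nhds)
      · exact tendsto_const_nhds.add ((tendsto_const_nhds.mul t0).div_const d)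
      · exact tendsto_const_nhds.add (t0.div (tendsto_const_nhds.sub t0) hd')
    simp only [mul_zero, zero_div, add_zero, one_mul] at ht
    refine ge_of_tendsto ht ?_
    filter_upwards [Ioo_mem_nhdsGT hd] with ε hε
    exact hbound ε hε.1 hε.2
  have h1 := normE uk
  have h2 := normE uk'
  calc ∑' v, ‖k' v‖ ^ 2 = ‖uk'‖ ^ 2 := h2.symm
    _ ≤ ‖uk‖ ^ 2 := by gcongr
    _ = _ := h1

end J663
end Pool.Agent.Helper976.Fac
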