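import Pool.Agent.Helper976.Fac.Lemmas
import Pool.Agent.Helper976.Fac.J663

set_option autoImplicit false
open scoped BigOperators Topology
open Filter Complex

namespace Pool.Agent.Helper976.Fac
namespace J688
open J663 (propagate_low propagate_inv)

theorem archi_linInd {V : Type*} [AddCommGroup V] [LinearOrder V] [IsOrderedAddMonoid V]
    [Module ℚ V] (τ : ℕ → V) (hτpos : ∀ i, 0 < τ i) (hτ : ∀ i, ∀ N : ℕ, N • τ (i + 1) < τ i) :
    LinearIndependent ℚ τ := by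
  rw [← LinearIndependent.iff_fractionRing ℤ ℚ, linearIndependent_iff']
  have hanti : StrictAnti τ := strictAnti_nat_of_succ_lt fun i => by simpa using hτ i 1
  intro s g hsum
  by_contra hcon
  push Not at hcon
  classical
  set s' := s.filter (fun i => g i ≠ 0) with hs'
  have hne : s'.Nonempty := by
    obtain ⟨i, hi, hgi⟩ := hcon
    exact ⟨i, by simp [hs', hi, hgi]⟩
  set i0 := s'.min' hne with hi0
  have hi0m : i0 ∈ s' := Finset.min'_mem _ _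
  have hsum' : ∑ i ∈ s', g i • τ i = 0 := by
    rw [← hsum, hs', Finset.sum_filter]
    apply Finset.sum_congr rfl
    intro i _
    by_cases h : g i = 0 <;> simp [h]
  rw [← Finset.add_sum_erase _ _ hi0m] at hsum'
  have h1 : g i0 • τ i0 = -∑ i ∈ s'.erase i0, g i • τ i := eq_neg_of_add_eq_zero_left hsum'
  have h2 : τ i0 ≤ |g i0 • τ i0| := by
    rw [abs_zsmul, abs_of_pos (hτpos i0)]
    have h3 : (1 : ℤ) ≤ |g i0| := Int.one_le_abs (Finset.mem_filter.1 hi0m).2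
    calc τ i0 = (1 : ℤ) • τ i0 := (one_zsmul _).symm
      _ ≤ |g i0| • τ i0 := zsmul_le_zsmul_left (hτpos i0).le h3
  have h4 : |g i0 • τ i0| ≤ (∑ i ∈ s'.erase i0, (g i).natAbs) • τ (i0 + 1) := by
    rw [h1, abs_neg]
    refine (Finset.abs_sum_le_sum_abs _ _).trans ?_
    rw [← Finset.sum_nsmul_assoc]
    apply Finset.sum_le_sum
    intro i hi
    rw [abs_zsmul, abs_of_pos (hτpos i)]
    have h5 : i0 + 1 ≤ i := by
      have h6 : i ≠ i0 := Finset.ne_of_mem_erase hi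
      have h7 : i0 ≤ i := Finset.min'_le _ _ (Finset.mem_of_mem_erase hi)
      omega
    have h8 : τ i ≤ τ (i0 + 1) := hanti.antitone h5
    rw [Int.abs_eq_natAbs, natCast_zsmul]
    exact nsmul_le_nsmul_right h8 _
  exact absurd (h2.trans h4) (not_le.2 (hτ i0 _))

theorem restr_norm_le {V : Type*} [AddCommGroup V] [LinearOrder V] (τ : V) (k : V → ℂ) (v : V) :
    ‖restr τ k v‖ ≤ ‖k v‖ := by
  unfold restr
  split_ifs <;> simp

theorem hat_norm_le {V : Type*} [AddCommGroup V] (k : V → ℂ) (hk : Summable fun v => ‖k v‖)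
    (φ : V →+ ℝ) : ‖hat k φ‖ ≤ ∑' v, ‖k v‖ := by
  unfold hat
  have h1 : ∀ v, ‖k v * Complex.exp (Complex.I * (φ v : ℂ))‖ = ‖k v‖ := by
    intro v
    rw [norm_mul, mul_comm Complex.I, Complex.norm_exp_ofReal_mul_I, mul_one]
  refine (norm_tsum_le_tsum_norm (by simpa only [h1] using hk)).trans (le_of_eq ?_)
  exact tsum_congr h1

open Classical in
theorem half {V : Type*} [AddCommGroup V] [LinearOrder V] [IsOrderedAddMonoid V]
    [Module ℚ V] (g h : V → ℂ) (hg : Summable fun v => ‖g v‖) (hh : Summable fun v => ‖h v‖)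
    (hgpos : ∀ v, v ≤ 0 → g v = 0) (hhpos : ∀ v, v ≤ 0 → h v = 0)
    (B : ℝ) (hB : 0 < B) (hgB : ∑' v, ‖g v‖ ≤ B) (hhB : ∑' v, ‖h v‖ ≤ B)
    (c : ℕ → ℝ) (hc : ∀ i, 0 < c i) (hcs : Summable c)
    (τ : ℕ → V) (hτpos : ∀ i, 0 < τ i) (hτ : ∀ i, ∀ N : ℕ, N • τ (i + 1) < τ i)
    (ω : V → ℝ) (hω0 : ∀ v, 0 < v → 0 ≤ ω v) (hω1 : ∀ v, 0 < v → ω v ≤ 1)
    (hL : ∀ F : Finset V, (∀ v ∈ F, 0 < v) → ∀ ε : ℝ, 0 < ε → ∃ L : V →+ ℝ,
      (∀ v ∈ F, 0 ≤ L v) ∧ (∀ v ∈ F, ω v = 1 → L v = 0) ∧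
      (∀ v ∈ F, |Real.exp (-(L v)) - ω v| ≤ ε))
    (n : ℕ) (hωτ : ∀ i, n ≤ i → ω (τ i) = 1)
    (hωbig : ∀ j < n, ∀ v, 0 < v → ¬ Small (τ j) v → ω v = 0)
    (M : ℝ) (hM : M = ∑ i ∈ Finset.range n, c i) (hM0 : 0 < M) (hMB : M ≤ 8 * B ^ 2)
    (hmass : M < ∑' i, c (i + n)) (j : ℕ) (hj : j < n)
    (hconv : ∀ v, ∑' w, restr (τ j) g w * restr (τ j) h (v - w) =
        ∑' i, if v = τ (j + 1 + i) then (c (j + 1 + i) : ℂ) else 0)
    (hprod : ∀ φ : V →+ ℝ, hat (restr (τ j) g) φ * hat (restr (τ j) h) φ =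
      ∑' i, (c (j + 1 + i) : ℂ) * exp (I * (φ (τ (j + 1 + i)) : ℂ)))
    (hb : ∀ φ : V →+ ℝ, ‖∑' i, (c (j + 1 + i) : ℂ) * exp (I * (φ (τ (j + 1 + i)) : ℂ))‖
      < (M / (4 * B)) ^ 2 / 2 → M / (4 * B) ≤ ‖hat (restr (τ j) h) φ‖) :
    (∀ φ : V →+ ℝ, (M / (4 * B)) ^ 2 / (2 * B) ≤ ‖hat (fun v => h v * (ω v : ℂ)) φ‖) := by
  have hanti : StrictAnti τ := strictAnti_nat_of_succ_lt fun i => by simpa using hτ i 1
  have hgC : Summable fun v => ‖restr (τ j) g v‖ :=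
    Summable.of_nonneg_of_le (fun v => norm_nonneg _) (fun v => restr_norm_le _ _ _) hg
  have hhC : Summable fun v => ‖restr (τ j) h v‖ :=
    Summable.of_nonneg_of_le (fun v => norm_nonneg _) (fun v => restr_norm_le _ _ _) hh
  have hgCB : ∑' v, ‖restr (τ j) g v‖ ≤ B :=
    (hgC.tsum_le_tsum (fun v => restr_norm_le _ _ _) hg).trans hgB
  have hhCB : ∑' v, ‖restr (τ j) h v‖ ≤ B :=
    (hhC.tsum_le_tsum (fun v => restr_norm_le _ _ _) hh).trans hhB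
  set δ := M / (4 * B) with hδ
  have hδ0 : 0 < δ := by rw [hδ]; positivity
  have hδB : δ ≤ 2 * B := by
    rw [hδ, div_le_iff₀ (by positivity)]
    nlinarith
  have hlow : ∀ φ : V →+ ℝ, δ ^ 2 / (2 * B) ≤ ‖hat (restr (τ j) h) φ‖ := by
    intro φ
    rcases lt_or_ge ‖∑' i, (c (j + 1 + i) : ℂ) * exp (I * (φ (τ (j + 1 + i)) : ℂ))‖ (δ ^ 2 / 2)
      with h1 | h1
    · refine le_trans ?_ (hb φ h1)
      rw [div_le_iff₀ (by positivity)]
      nlinarith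
    · rw [← hprod, norm_mul] at h1
      have h2 := (hat_norm_le _ hgC φ).trans hgCB
      have h3 : δ ^ 2 / 2 ≤ B * ‖hat (restr (τ j) h) φ‖ :=
        h1.trans (mul_le_mul_of_nonneg_right h2 (norm_nonneg _))
      rw [div_le_iff₀ (by positivity)]
      linarith
  have hmass2 : ∑ i ∈ Finset.range (n - (j + 1)), c (j + 1 + i) <
      ∑' i, c (j + 1 + (i + (n - (j + 1)))) := by
    have h1 : ∑ i ∈ Finset.range (n - (j + 1)), c (j + 1 + i) ≤ M := by
      rw [hM]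
      have h2 : n = (j + 1) + (n - (j + 1)) := by omega
      conv_rhs => rw [h2]
      rw [Finset.sum_range_add]
      have : 0 ≤ ∑ x ∈ Finset.range (j + 1), c x := Finset.sum_nonneg fun i _ => (hc i).le
      linarith
    have h3 : ∑' i, c (j + 1 + (i + (n - (j + 1)))) = ∑' i, c (i + n) := by
      refine tsum_congr fun i => ?_
      congr 1
      omega
    rw [h3]
    exact lt_of_le_of_lt h1 hmass
  have hfin := propagate_low (restr (τ j) g) (restr (τ j) h) hgC hhC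
    (fun v hv => by unfold restr; split_ifs <;> simp [hgpos v hv])
    (fun v hv => by unfold restr; split_ifs <;> simp [hhpos v hv])
    B hB hgCB hhCB (fun i => c (j + 1 + i)) (fun i => hc _)
    (hcs.comp_injective (add_right_injective (j + 1)))
    (fun i => τ (j + 1 + i)) (fun i => hτpos _)
    (fun a b hab => by have := hanti.injective hab; omega)
    hconv ω hω0 hω1 hL (n - (j + 1)) (fun i hi => hωτ _ (by omega)) hmass2
    (δ ^ 2 / (2 * B)) (by positivity) hlow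
  have heq : (fun v => restr (τ j) h v * (ω v : ℂ)) = fun v => h v * (ω v : ℂ) := by
    funext v
    rcases le_or_gt v 0 with hv | hv
    · unfold restr; split_ifs <;> simp [hhpos v hv]
    · unfold restr
      split_ifs with hS
      · rfl
      · rw [hωbig j hj v hv hS]; simp
  rw [heq] at hfin
  exact hfin

open Classical in
/-- TARGET -/
theorem ideal_T1 {V : Type*} [AddCommGroup V] [LinearOrder V] [IsOrderedAddMonoid V]
    [Module ℚ V] (g h : V → ℂ) (hg : Summable fun v => ‖g v‖) (hh : Summable fun v => ‖h v‖)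
    (hgpos : ∀ v, v ≤ 0 → g v = 0) (hhpos : ∀ v, v ≤ 0 → h v = 0)
    (B : ℝ) (hB : 0 < B) (hgB : ∑' v, ‖g v‖ ≤ B) (hhB : ∑' v, ‖h v‖ ≤ B)
    (c : ℕ → ℝ) (hc : ∀ i, 0 < c i) (hanti : Antitone c) (hcs : Summable c)
    (τ : ℕ → V) (hτpos : ∀ i, 0 < τ i) (hτ : ∀ i, ∀ N : ℕ, N • τ (i + 1) < τ i)
    (hconv : ∀ v, ∑' w, g w * h (v - w) = ∑' i, if v = τ i then (c i : ℂ) else 0)
    (ω : V → ℝ) (hω0 : ∀ v, 0 < v → 0 ≤ ω v) (hω1 : ∀ v, 0 < v → ω v ≤ 1)
    (hL : ∀ F : Finset V, (∀ v ∈ F, 0 < v) → ∀ ε : ℝ, 0 < ε → ∃ L : V →+ ℝ,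
      (∀ v ∈ F, 0 ≤ L v) ∧ (∀ v ∈ F, ω v = 1 → L v = 0) ∧
      (∀ v ∈ F, |Real.exp (-(L v)) - ω v| ≤ ε))
    (n : ℕ) (hωτ : ∀ i, n ≤ i → ω (τ i) = 1)
    (hωbig : ∀ j < n, ∀ v, 0 < v → ¬ Small (τ j) v → ω v = 0)
    (M : ℝ) (hM : M = ∑ i ∈ Finset.range n, c i) (hM0 : 0 < M) (hMB : M ≤ 8 * B ^ 2)
    (hmass : M < ∑' i, c (i + n))
    (hsm1 : c 0 ≤ M ^ 2 / (2 * B ^ 2))
    (σ : ℝ) (hσ0 : 0 ≤ σ) (hσ : ∑' i, c i ^ 2 ≤ σ ^ 2)
    (hsm2 : 4 * c 0 + 2 * σ < (M / (4 * B)) ^ 2 / 2) :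
    (∀ φ : V →+ ℝ, (M / (4 * B)) ^ 2 / (2 * B) ≤ ‖hat (fun v => h v * (ω v : ℂ)) φ‖) ∨
    (∀ φ : V →+ ℝ, (M / (4 * B)) ^ 2 / (2 * B) ≤ ‖hat (fun v => g v * (ω v : ℂ)) φ‖) := by
  have hanti' : StrictAnti τ := strictAnti_nat_of_succ_lt fun i => by simpa using hτ i 1
  obtain ⟨j, hj, hmax⟩ := unimod g h hg hh hgpos hhpos B hB hgB hhB c hc hcs τ hτpos hτ hconv n M
    hM hM0 (fun i _ => (hanti (Nat.zero_le i)).trans hsm1)
  obtain ⟨hconvR, hprodR⟩ := prod_restr g h hg hh hgpos hhpos c hc hcs τ hτpos hτ hconv j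
  have hgC : Summable fun v => ‖restr (τ j) g v‖ :=
    Summable.of_nonneg_of_le (fun v => norm_nonneg _) (fun v => restr_norm_le _ _ _) hg
  have hhC : Summable fun v => ‖restr (τ j) h v‖ :=
    Summable.of_nonneg_of_le (fun v => norm_nonneg _) (fun v => restr_norm_le _ _ _) hh
  have hind : LinearIndependent ℚ (fun i => τ (j + 1 + i)) :=
    archi_linInd _ (fun i => hτpos _) (fun i N => hτ (j + 1 + i) N)
  have hc2s : Summable fun i => c i ^ 2 := by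
    refine Summable.of_nonneg_of_le (fun i => sq_nonneg _) (fun i => ?_) (hcs.mul_left (c 0))
    rw [sq]
    exact mul_le_mul_of_nonneg_right (hanti (Nat.zero_le i)) (hc i).le
  have hσ2 : ∑' i, c (j + 1 + i) ^ 2 ≤ σ ^ 2 := by
    refine le_trans ?_ hσ
    rw [← hc2s.sum_add_tsum_nat_add (j + 1)]
    have h1 : 0 ≤ ∑ i ∈ Finset.range (j + 1), c i ^ 2 := Finset.sum_nonneg fun i _ => sq_nonneg _
    have h2 : ∑' i, c (j + 1 + i) ^ 2 = ∑' i, c (i + (j + 1)) ^ 2 := by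
      refine tsum_congr fun i => ?_
      rw [add_comm]
    linarith
  rcases connectivity (restr (τ j) g) (restr (τ j) h) hgC hhC (fun i => c (j + 1 + i))
    (fun i => (hc _).le) (hcs.comp_injective (add_right_injective (j + 1)))
    (fun i => τ (j + 1 + i)) hind (M / (4 * B)) (c 0) σ (by positivity)
    (fun i => hanti (Nat.zero_le _)) hσ0 hσ2 hsm2 hprodR hmax with hb | hb
  · right
    refine half h g hh hg hhpos hgpos B hB hhB hgB c hc hcs τ hτpos hτ ω hω0 hω1 hL n hωτ hωbig M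
      hM hM0 hMB hmass j hj ?_ ?_ hb
    · intro v
      rw [← hconvR v, ← (Equiv.subLeft v).tsum_eq]
      refine tsum_congr fun w => ?_
      simp only [Equiv.subLeft_apply, sub_sub_cancel]
      rw [mul_comm]
    · intro φ
      rw [← hprodR φ, mul_comm]
  · left
    exact half g h hg hh hgpos hhpos B hB hgB hhB c hc hcs τ hτpos hτ ω hω0 hω1 hL n hωτ hωbig M
      hM hM0 hMB hmass j hj hconvR hprodR hb

end J688
end Pool.Agent.Helper976.Fac
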