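import Pool.Agent.Helper976.Fac.Lemmas
import Pool.Agent.Helper976.Fac.J663

set_option autoImplicit false
open scoped BigOperators Topology
open Filter Complex

namespace Pool.Agent.Helper976.Fac
namespace J689
open J663 (propagate_low propagate_inv)

section L2tools

variable {V : Type*} [AddCommGroup V]

/-- square summable functions as a Hilbert space -/
noncomputable abbrev E2 (V : Type*) := lp (fun _ : V => ℂ) 2

lemma mem2 (u : V → ℂ) (hu : Summable fun v => ‖u v‖ ^ 2) : Memℓp u 2 := by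
  apply memℓp_gen
  simpa using hu

/-- bundling -/
noncomputable def toE (u : V → ℂ) (hu : Summable fun v => ‖u v‖ ^ 2) : E2 V := ⟨u, mem2 u hu⟩

lemma toE_apply (u : V → ℂ) (hu : Summable fun v => ‖u v‖ ^ 2) (v : V) : toE u hu v = u v := rfl

lemma hasSum_sq (f : E2 V) : HasSum (fun v => ‖f v‖ ^ 2) (‖f‖ ^ 2) := by
  have h := lp.hasSum_norm (p := 2) (by norm_num) f
  simpa using h

lemma norm_toE (u : V → ℂ) (hu : Summable fun v => ‖u v‖ ^ 2) :
    ‖toE u hu‖ ^ 2 = ∑' v, ‖u v‖ ^ 2 := (hasSum_sq (toE u hu)).tsum_eq.symm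

/-- translation -/
noncomputable def tr (w : V) (f : E2 V) : E2 V :=
  toE (fun v => f (v - w)) ((Equiv.subRight w).summable_iff.2 (hasSum_sq f).summable)

lemma tr_apply (w : V) (f : E2 V) (v : V) : tr w f v = f (v - w) := rfl

lemma norm_tr (w : V) (f : E2 V) : ‖tr w f‖ = ‖f‖ := by
  have h1 : ‖tr w f‖ ^ 2 = ‖f‖ ^ 2 := by
    have h2 := (hasSum_sq (tr w f)).tsum_eq
    have h3 := (hasSum_sq f).tsum_eq
    have h4 := (Equiv.subRight w).tsum_eq (fun v => ‖f v‖ ^ 2)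
    rw [← h2, ← h3, ← h4]
    rfl
  exact (sq_eq_sq₀ (norm_nonneg _) (norm_nonneg _)).1 h1

/-- convolution -/
noncomputable def cv (h : V → ℂ) (f : E2 V) : E2 V := ∑' w, h w • tr w f

lemma summable_cv {h : V → ℂ} (hh : Summable fun v => ‖h v‖) (f : E2 V) :
    Summable fun w => h w • tr w f := by
  apply Summable.of_norm
  simp only [norm_smul, norm_tr]
  exact hh.mul_right _

lemma hasSum_cv {h : V → ℂ} (hh : Summable fun v => ‖h v‖) (f : E2 V) (v : V) :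
    HasSum (fun w => h w * f (v - w)) (cv h f v) := by
  have h1 := (summable_cv hh f).hasSum
  have h2 := h1.mapL (lp.evalCLM ℂ (fun _ : V => ℂ) 2 v)
  exact h2

lemma cv_apply {h : V → ℂ} (hh : Summable fun v => ‖h v‖) (f : E2 V) (v : V) :
    cv h f v = ∑' w, h w * f (v - w) := (hasSum_cv hh f v).tsum_eq.symm

lemma norm_cv_le {h : V → ℂ} (hh : Summable fun v => ‖h v‖) (f : E2 V) :
    ‖cv h f‖ ≤ (∑' v, ‖h v‖) * ‖f‖ := by
  have h1 : Summable fun w => ‖h w • tr w f‖ := by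
    simp only [norm_smul, norm_tr]
    exact hh.mul_right _
  calc ‖cv h f‖ ≤ ∑' w, ‖h w • tr w f‖ := norm_tsum_le_tsum_norm h1
    _ = ∑' w, ‖h w‖ * ‖f‖ := by simp only [norm_smul, norm_tr]
    _ = _ := tsum_mul_right

lemma cv_sub {h : V → ℂ} (hh : Summable fun v => ‖h v‖) (f g : E2 V) :
    cv h (f - g) = cv h f - cv h g := by
  ext v
  have h1 := (hasSum_cv hh f v).sub (hasSum_cv hh g v)
  have h2 := hasSum_cv hh (f - g) v
  refine h2.unique ?_
  have h3 : (fun w => h w * (f - g) (v - w)) = fun w => h w * f (v - w) - h w * g (v - w) := by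
    funext w
    rw [lp.coeFn_sub, Pi.sub_apply, mul_sub]
  have h4 : (cv h f - cv h g) v = cv h f v - cv h g v := by
    rw [lp.coeFn_sub, Pi.sub_apply]
  rw [h3, h4]
  exact h1

open Classical in
/-- the unit -/
noncomputable def de (V : Type*) [AddCommGroup V] : E2 V := lp.single 2 (0 : V) (1 : ℂ)

lemma de_apply (v : V) [Decidable (v = 0)] : de V v = if v = 0 then (1 : ℂ) else 0 := by
  classical
  simp only [de, lp.single_apply, Pi.single_apply]
  congr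

lemma norm_de : ‖de V‖ = 1 := by
  classical
  simp [de]

lemma trunc [DecidableEq V] {h : V → ℂ} (hh : Summable fun v => ‖h v‖) (k : E2 V) (hk : cv h k = de V)
    (ρ ε : ℝ) (hρ : ‖k‖ < ρ) (hε : 0 < ε) :
    ∃ (F : Finset V) (u : V → ℂ), (∀ v, v ∉ F → u v = 0) ∧ ∑' v, ‖u v‖ ^ 2 < ρ ^ 2 ∧
      ∑' v, ‖(if v = 0 then (1 : ℂ) else 0) - ∑' w, h w * u (v - w)‖ ^ 2 < ε ^ 2 := by
  set H : ℝ := ∑' v, ‖h v‖ with hH
  have hH0 : 0 ≤ H := tsum_nonneg fun _ => norm_nonneg _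
  have h1 : HasSum (fun i : V => lp.single 2 i (k i)) k := lp.hasSum_single (by norm_num) k
  set η : ℝ := min (ε / (H + 1)) (ρ - ‖k‖) with hη
  have hη0 : 0 < η := by
    apply lt_min
    · positivity
    · linarith
  rw [HasSum, Metric.tendsto_nhds] at h1
  obtain ⟨F, hF⟩ := (h1 η hη0).exists
  set kF : E2 V := ∑ i ∈ F, lp.single 2 i (k i) with hkF
  rw [dist_eq_norm] at hF
  have hkFapp : ∀ v, kF v = if v ∈ F then k v else 0 := by
    intro v
    rw [hkF, lp.coeFn_sum, Finset.sum_apply]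
    simp [Pi.single_apply]
  refine ⟨F, fun v => kF v, ?_, ?_, ?_⟩
  · intro v hv
    simp only [hkFapp, if_neg hv]
  · rw [(hasSum_sq kF).tsum_eq]
    have h2 : ‖kF‖ < ρ := by
      have h3 : ‖kF‖ ≤ ‖kF - k‖ + ‖k‖ := by
        simpa using norm_add_le (kF - k) k
      have h4 : η ≤ ρ - ‖k‖ := min_le_right _ _
      linarith
    have := norm_nonneg kF
    nlinarith
  · have h2 : ∀ v, (if v = 0 then (1 : ℂ) else 0) - ∑' w, h w * kF (v - w) = (cv h (k - kF)) v := by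
      intro v
      rw [cv_sub hh, hk, ← de_apply, ← cv_apply hh]
      rfl
    simp only [h2]
    rw [(hasSum_sq (cv h (k - kF))).tsum_eq]
    have h3 : ‖cv h (k - kF)‖ < ε := by
      have h4 := norm_cv_le hh (k - kF)
      rw [norm_sub_rev] at hF
      have h5 : η ≤ ε / (H + 1) := min_le_left _ _
      have h6 : H * ‖k - kF‖ ≤ H * η := mul_le_mul_of_nonneg_left hF.le hH0
      have h7 : H * η ≤ H * (ε / (H + 1)) := mul_le_mul_of_nonneg_left h5 hH0
      have h8 : H * (ε / (H + 1)) < ε := by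
        rw [mul_div_assoc', div_lt_iff₀ (by positivity)]
        nlinarith
      linarith
    have := norm_nonneg (cv h (k - kF))
    nlinarith

end L2tools

lemma lower {V : Type*} [AddCommGroup V] [Module ℚ V] {h : V → ℂ}
    (hh : Summable fun v => ‖h v‖) {d : ℝ} (hd : 0 < d)
    (hlow : ∀ φ : V →+ ℝ, d ≤ ‖hat h φ‖) (f : E2 V) : d * ‖f‖ ≤ ‖cv h f‖ := by
  have h1 := (l2_lower h hh d hd hlow f (hasSum_sq f).summable).2
  simp only [← cv_apply hh] at h1
  rw [(hasSum_sq f).tsum_eq, (hasSum_sq (cv h f)).tsum_eq] at h1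
  have h2 : (d * ‖f‖) ^ 2 ≤ ‖cv h f‖ ^ 2 := by rw [mul_pow]; exact h1
  exact (pow_le_pow_iff_left₀ (by positivity) (norm_nonneg _) (by norm_num)).1 h2

lemma inverseE {V : Type*} [AddCommGroup V] [Module ℚ V] {h : V → ℂ}
    (hh : Summable fun v => ‖h v‖) {d : ℝ} (hd : 0 < d)
    (hlow : ∀ φ : V →+ ℝ, d ≤ ‖hat h φ‖) : ∃ k : E2 V, cv h k = de V := by
  classical
  obtain ⟨k, hk1, hk2⟩ := l2_inverse h hh d hd hlow
  refine ⟨toE k hk1, ?_⟩
  ext v
  rw [cv_apply hh, de_apply]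
  refine (hk2 v).trans ?_
  congr

open Classical in
/-- TARGET 1 -/
theorem approx_inverse {V : Type*} [AddCommGroup V] [Module ℚ V] (h : V → ℂ)
    (hh : Summable fun v => ‖h v‖) (d : ℝ) (hd : 0 < d)
    (hlow : ∀ φ : V →+ ℝ, d ≤ ‖hat h φ‖) (ρ ε : ℝ) (hρ : 1 / d < ρ) (hε : 0 < ε) :
    ∃ (F : Finset V) (u : V → ℂ), (∀ v, v ∉ F → u v = 0) ∧ ∑' v, ‖u v‖ ^ 2 < ρ ^ 2 ∧
      ∑' v, ‖(if v = 0 then (1 : ℂ) else 0) - ∑' w, h w * u (v - w)‖ ^ 2 < ε ^ 2 := by
  obtain ⟨k, hk⟩ := inverseE hh hd hlow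
  have h1 := lower hh hd hlow k
  rw [hk, norm_de] at h1
  have h2 : ‖k‖ ≤ 1 / d := by
    rw [le_div_iff₀ hd]; linarith
  exact trunc hh k hk ρ ε (lt_of_le_of_lt h2 hρ) hε

open Classical in
/-- TARGET 2 -/
theorem ideal_T2 {V : Type*} [AddCommGroup V] [LinearOrder V] [IsOrderedAddMonoid V]
    [Module ℚ V] (g h : V → ℂ) (hg : Summable fun v => ‖g v‖) (hh : Summable fun v => ‖h v‖)
    (hgpos : ∀ v, v ≤ 0 → g v = 0) (hhpos : ∀ v, v ≤ 0 → h v = 0)
    (B : ℝ) (hB : 0 < B) (hgB : ∑' v, ‖g v‖ ≤ B) (hhB : ∑' v, ‖h v‖ ≤ B)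
    (c : ℕ → ℝ) (hc : ∀ i, 0 < c i) (hcs : Summable c)
    (τ : ℕ → V) (hτpos : ∀ i, 0 < τ i) (hτinj : Function.Injective τ)
    (hconv : ∀ v, ∑' w, g w * h (v - w) = ∑' i, if v = τ i then (c i : ℂ) else 0)
    (ω : V → ℝ) (hω0 : ∀ v, 0 < v → 0 ≤ ω v) (hω1 : ∀ v, 0 < v → ω v ≤ 1)
    (hL : ∀ F : Finset V, (∀ v ∈ F, 0 < v) → ∀ ε : ℝ, 0 < ε → ∃ L : V →+ ℝ,
      (∀ v ∈ F, 0 ≤ L v) ∧ (∀ v ∈ F, ω v = 1 → L v = 0) ∧
      (∀ v ∈ F, |Real.exp (-(L v)) - ω v| ≤ ε))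
    (n : ℕ) (hωτ : ∀ i, n ≤ i → ω (τ i) = 1)
    (hmass : ∑ i ∈ Finset.range n, c i < ∑' i, c (i + n))
    (d : ℝ) (hd : 0 < d)
    (halt : (∀ φ : V →+ ℝ, d ≤ ‖hat h φ‖) ∨ (∀ φ : V →+ ℝ, d ≤ ‖hat g φ‖))
    (σ : ℝ) (hσ0 : 0 ≤ σ) (hσ : ∑' i, c i ^ 2 ≤ σ ^ 2)
    (u : V → ℂ) (hu : Summable fun v => ‖u v‖ ^ 2) (W : ℝ) (hW0 : 0 ≤ W)
    (hW : ∑' v, ‖u v‖ ^ 2 ≤ W ^ 2) (ε₁ : ℝ) (hε₁ : 0 ≤ ε₁)
    (hinv : ∑' v, ‖(if v = 0 then (1 : ℂ) else 0) - ∑' w, h w * u (v - w)‖ ^ 2 ≤ ε₁ ^ 2)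
    (hwrong : σ * W < d * (1 - ε₁))
    (ρ ε₂ : ℝ) (hρ : W + ε₁ / d < ρ) (hε₂ : 0 < ε₂) :
    ∃ (F : Finset V) (u' : V → ℂ), (∀ v, v ∉ F → u' v = 0) ∧ ∑' v, ‖u' v‖ ^ 2 < ρ ^ 2 ∧
      ∑' v, ‖(if v = 0 then (1 : ℂ) else 0) - ∑' w, (h w * (ω w : ℂ)) * u' (v - w)‖ ^ 2
        < ε₂ ^ 2 := by
  have hH0 : 0 ≤ ∑' v, ‖h v‖ := tsum_nonneg fun _ => norm_nonneg _
  have hh2 : Summable fun v => ‖h v‖ ^ 2 := by
    refine Summable.of_nonneg_of_le (fun _ => by positivity) (fun v => ?_)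
      (hh.mul_left (∑' v, ‖h v‖))
    rw [sq]
    exact mul_le_mul_of_nonneg_right (hh.le_tsum v (fun _ _ => norm_nonneg _)) (norm_nonneg _)
  set uE : E2 V := toE u hu with huE
  have huW : ‖uE‖ ≤ W := by
    have h1 : ‖uE‖ ^ 2 ≤ W ^ 2 := by rw [huE, norm_toE]; exact hW
    exact (pow_le_pow_iff_left₀ (norm_nonneg _) hW0 (by norm_num)).1 h1
  have hdu : ‖de V - cv h uE‖ ≤ ε₁ := by
    have h1 : ‖de V - cv h uE‖ ^ 2 ≤ ε₁ ^ 2 := by
      rw [← (hasSum_sq (de V - cv h uE)).tsum_eq]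
      refine le_trans (le_of_eq ?_) hinv
      congr 1
      funext v
      have h2 : (de V - cv h uE) v = de V v - cv h uE v := by
        rw [lp.coeFn_sub, Pi.sub_apply]
      rw [h2, de_apply, cv_apply hh]
      rfl
    exact (pow_le_pow_iff_left₀ (norm_nonneg _) hε₁ (by norm_num)).1 h1
  have hlow : ∀ φ : V →+ ℝ, d ≤ ‖hat h φ‖ := by
    rcases halt with h0 | h0
    · exact h0
    · exfalso
      have h1 := lower hg hd h0 (toE h hh2)
      have h2 : ‖cv g (toE h hh2)‖ ^ 2 ≤ σ ^ 2 := by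
        refine le_trans (le_of_eq ?_) hσ
        rw [← (hasSum_sq _).tsum_eq]
        have h3 : ∀ v, cv g (toE h hh2) v = ∑' i, if v = τ i then (c i : ℂ) else 0 := by
          intro v
          rw [cv_apply hg]
          exact hconv v
        have h4 : ∀ v, v ∉ Set.range τ → ‖cv g (toE h hh2) v‖ ^ 2 = 0 := by
          intro v hv
          rw [h3]
          have : ∀ i, (if v = τ i then (c i : ℂ) else 0) = 0 := by
            intro i
            rw [if_neg]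
            rintro rfl
            exact hv ⟨i, rfl⟩
          simp [this]
        have h5 : Function.support (fun v => ‖cv g (toE h hh2) v‖ ^ 2) ⊆ Set.range τ := by
          intro v hv
          by_contra hc'
          exact hv (h4 v hc')
        rw [← hτinj.tsum_eq h5]
        congr 1
        ext i
        rw [h3, tsum_eq_single i]
        · simp
        · intro j hj
          rw [if_neg]
          intro h6
          exact hj (hτinj h6).symm
      have h3 : ‖cv g (toE h hh2)‖ ≤ σ :=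
        (pow_le_pow_iff_left₀ (norm_nonneg _) hσ0 (by norm_num)).1 h2
      -- value at zero
      have h4 : ‖cv h uE 0‖ ≤ ‖toE h hh2‖ * ‖uE‖ := by
        have hc1 : Summable fun v => ‖(starRingEnd ℂ) (h v)‖ ^ 2 := by
          simpa using hh2
        have hc2 : Summable fun v => ‖u (0 - v)‖ ^ 2 := by
          have := (Equiv.subLeft (0 : V)).summable_iff.2 hu
          exact this
        have hn1 : ‖toE (fun v => (starRingEnd ℂ) (h v)) hc1‖ = ‖toE h hh2‖ := by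
          have : ‖toE (fun v => (starRingEnd ℂ) (h v)) hc1‖ ^ 2 = ‖toE h hh2‖ ^ 2 := by
            rw [norm_toE, norm_toE]
            simp
          exact (sq_eq_sq₀ (norm_nonneg _) (norm_nonneg _)).1 this
        have hn2 : ‖toE (fun v => u (0 - v)) hc2‖ = ‖uE‖ := by
          have : ‖toE (fun v => u (0 - v)) hc2‖ ^ 2 = ‖uE‖ ^ 2 := by
            rw [norm_toE, huE, norm_toE]
            exact (Equiv.subLeft (0 : V)).tsum_eq (fun v => ‖u v‖ ^ 2)
          exact (sq_eq_sq₀ (norm_nonneg _) (norm_nonneg _)).1 this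
        have hin := norm_inner_le_norm (𝕜 := ℂ) (toE (fun v => (starRingEnd ℂ) (h v)) hc1)
          (toE (fun v => u (0 - v)) hc2)
        rw [hn1, hn2, lp.inner_eq_tsum] at hin
        refine le_trans (le_of_eq ?_) hin
        rw [cv_apply hh]
        congr 2
        funext w
        simp only [toE_apply, huE]
        simp [mul_comm]
      have h5 : 1 - ε₁ ≤ ‖cv h uE 0‖ := by
        have h6 : ‖(de V - cv h uE) 0‖ ≤ ‖de V - cv h uE‖ :=
          lp.norm_apply_le_norm (by norm_num) _ _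
        have h7 : (de V - cv h uE) 0 = 1 - cv h uE 0 := by
          have h2 : (de V - cv h uE) 0 = de V 0 - cv h uE 0 := by
            rw [lp.coeFn_sub, Pi.sub_apply]
          rw [h2, de_apply, if_pos rfl]
        rw [h7] at h6
        have h8 : ‖(1 : ℂ)‖ ≤ ‖1 - cv h uE 0‖ + ‖cv h uE 0‖ := by
          simpa using norm_add_le (1 - cv h uE 0) (cv h uE 0)
        rw [norm_one] at h8
        linarith
      have h6 : ‖toE h hh2‖ * ‖uE‖ ≤ ‖toE h hh2‖ * W :=
        mul_le_mul_of_nonneg_left huW (norm_nonneg _)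
      have h7 : d * (1 - ε₁) ≤ σ * W := by
        have h8 : d * (1 - ε₁) ≤ d * (‖toE h hh2‖ * W) :=
          mul_le_mul_of_nonneg_left (by linarith) hd.le
        have h9 : d * ‖toE h hh2‖ * W ≤ σ * W :=
          mul_le_mul_of_nonneg_right (by linarith) hW0
        linarith
      linarith
  obtain ⟨k, hk⟩ := inverseE hh hd hlow
  have hkρ : ‖k‖ ≤ W + ε₁ / d := by
    have h1 := lower hh hd hlow (k - uE)
    rw [cv_sub hh, hk] at h1
    have h2 : ‖k - uE‖ ≤ ε₁ / d := by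
      rw [le_div_iff₀ hd]
      linarith
    have h3 : ‖k‖ ≤ ‖k - uE‖ + ‖uE‖ := by simpa using norm_add_le (k - uE) uE
    linarith
  have hlow' := propagate_low g h hg hh hgpos hhpos B hB hgB hhB c hc hcs τ hτpos hτinj hconv
    ω hω0 hω1 hL n hωτ hmass d hd hlow
  have hh' : Summable fun v => ‖h v * (ω v : ℂ)‖ := by
    refine Summable.of_nonneg_of_le (fun _ => norm_nonneg _) (fun v => ?_) hh
    rcases le_or_gt v 0 with hv | hv
    · rw [hhpos v hv]; simp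
    · rw [norm_mul]
      have h1 : ‖(ω v : ℂ)‖ ≤ 1 := by
        rw [Complex.norm_real, Real.norm_eq_abs, abs_of_nonneg (hω0 v hv)]
        exact hω1 v hv
      exact mul_le_of_le_one_right (norm_nonneg _) h1
  obtain ⟨k', hk'⟩ := inverseE hh' hd hlow'
  have h9 := propagate_inv g h hg hh hgpos hhpos B hB hgB hhB c hc hcs τ hτpos hτinj hconv
    ω hω0 hω1 hL n hωτ hmass d hd hlow k k' (hasSum_sq k).summable (hasSum_sq k').summable
    (fun v => by rw [← cv_apply hh, hk, de_apply])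
    (fun v => by rw [← cv_apply hh', hk', de_apply])
  rw [(hasSum_sq k).tsum_eq, (hasSum_sq k').tsum_eq] at h9
  have h10 : ‖k'‖ ≤ ‖k‖ := (pow_le_pow_iff_left₀ (norm_nonneg _) (norm_nonneg _) (by norm_num)).1 h9
  exact trunc hh' k' hk' ρ ε₂ (by linarith) hε₂

end J689
end Pool.Agent.Helper976.Fac
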