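import Pool.Agent.Helper976.Fac.Lemmas
import Pool.Agent.Helper976.Fac.J663
import Pool.Agent.Helper976.Fac.J688
import Pool.Agent.Helper976.Fac.J689

set_option autoImplicit false

namespace Pool.Agent.Helper976.Fac

alias ideal_T1 := J688.ideal_T1
alias approx_inverse := J689.approx_inverse
alias ideal_T2 := J689.ideal_T2

end Pool.Agent.Helper976.Fac
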