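import Pool.Agent.Helper976.Fac.Lemmas4

set_option autoImplicit false
open scoped BigOperators Topology
open Filter

namespace Pool.Agent.Helper976.Fac
namespace J804


/-! The lemmas of this section MAY BE USED, they are not targets. -/
section K0
variable (c : ℕ → ℝ) (hc : ∀ i, 0 < c i) (hanti : Antitone c) (hcs : Summable c)
  (a0 : ℕ) (h1 : 1 ≤ a0) (B : ℝ) (t : ℕ → ℕ → ℚ) (g h : ℕ → ℚ → ℂ)
  (hD : ∀ n : ℕ, FData c a0 n B (t n) (g n) (h n))

end K0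

/-- TARGET -/
theorem om_hL (t : ℕ → ℕ → ℚ) (ht : ∀ n j, 0 < t n j) (a : ℕ) (F : Finset GV)
    (hF : ∀ v ∈ F, 0 < v) (ε : ℝ) (hε : 0 < ε) :
    ∃ L : GV →+ ℝ, (∀ v ∈ F, 0 ≤ L v) ∧ (∀ v ∈ F, om t a v = 1 → L v = 0) ∧
      (∀ v ∈ F, |Real.exp (-(L v)) - om t a v| ≤ ε) := by
  refine lemmaL (fun n => cut (t n) a) (fun n => ?_) F hF (om t a)
    (fun x hx => om_tendsto t a x hx) ε hε
  unfold cut
  have h1 : (0:ℝ) < (t n (a - 1) : ℝ) := by exact_mod_cast ht n (a - 1)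
  have h2 : (0:ℝ) < (t n a : ℝ) := by exact_mod_cast ht n a
  positivity

open Classical in
/-- TARGET -/
theorem seq_low (c : ℕ → ℝ) (hc : ∀ i, 0 < c i) (hanti : Antitone c) (hcs : Summable c)
    (a0 a1 : ℕ) (h1 : 1 ≤ a0) (h01 : a0 < a1) (B : ℝ) (hB : 0 < B)
    (M : ℝ) (hM : M = ∑ i ∈ Finset.range (a1 - a0), c (a0 + i)) (hMB : M ≤ 8 * B ^ 2)
    (hmass : M < ∑' i, c (a1 + i)) (hsm1 : c a0 ≤ M ^ 2 / (2 * B ^ 2))
    (σ : ℝ) (hσ0 : 0 ≤ σ) (hσ : ∑' i, c (a0 + i) ^ 2 ≤ σ ^ 2)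
    (hsm2 : 4 * c a0 + 2 * σ < (M / (4 * B)) ^ 2 / 2)
    (t : ℕ → ℕ → ℚ) (g h : ℕ → ℚ → ℂ) (hD : ∀ n : ℕ, FData c a0 n B (t n) (g n) (h n)) :
    (∀ φ : GV →+ ℝ, (M / (4 * B)) ^ 2 / (2 * B) ≤ ‖hat (fun v => star h v * (om t a1 v : ℂ)) φ‖) ∨
    (∀ φ : GV →+ ℝ, (M / (4 * B)) ^ 2 / (2 * B) ≤ ‖hat (fun v => star g v * (om t a1 v : ℂ)) φ‖) := by
  -- pointwise bounds
  have hgb : ∀ n q, ‖g n q‖ ≤ B := fun n q =>
    le_trans ((hD n).gsum.le_tsum q (fun _ _ => norm_nonneg _)) (hD n).gB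
  have hhb : ∀ n q, ‖h n q‖ ≤ B := fun n q =>
    le_trans ((hD n).hsum.le_tsum q (fun _ _ => norm_nonneg _)) (hD n).hB
  have hg0 : ∀ v, v ≤ 0 → star g v = 0 := fun v hv =>
    star_pos g (fun n q hq => (hD n).gpos q hq) B hgb v hv
  have hh0 : ∀ v, v ≤ 0 → star h v = 0 := fun v hv =>
    star_pos h (fun n q hq => (hD n).hpos q hq) B hhb v hv
  obtain ⟨hgs, hgB⟩ := star_l1 g B (fun n => (hD n).gsum) (fun n => (hD n).gB)
  obtain ⟨hhs, hhB⟩ := star_l1 h B (fun n => (hD n).hsum) (fun n => (hD n).hB)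
  -- the damped functions
  have hle : ∀ (k : ℕ → ℚ → ℂ), (∀ v, v ≤ 0 → star k v = 0) → ∀ v,
      ‖star k v * (om t a0 v : ℂ)‖ ≤ ‖star k v‖ := by
    intro k hk v
    rcases le_or_gt v 0 with hv | hv
    · simp [hk v hv]
    · rw [norm_mul, Complex.norm_real, Real.norm_eq_abs, abs_of_nonneg (om_nonneg t a0 v hv)]
      exact mul_le_of_le_one_right (norm_nonneg _) (om_le_one t a0 v hv)
  have hgs' : Summable fun v => ‖star g v * (om t a0 v : ℂ)‖ :=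
    Summable.of_nonneg_of_le (fun _ => norm_nonneg _) (hle g hg0) hgs
  have hhs' : Summable fun v => ‖star h v * (om t a0 v : ℂ)‖ :=
    Summable.of_nonneg_of_le (fun _ => norm_nonneg _) (hle h hh0) hhs
  have hgB' : ∑' v, ‖star g v * (om t a0 v : ℂ)‖ ≤ B :=
    le_trans (hgs'.tsum_le_tsum (hle g hg0) hgs) hgB
  have hhB' : ∑' v, ‖star h v * (om t a0 v : ℂ)‖ ≤ B :=
    le_trans (hhs'.tsum_le_tsum (hle h hh0) hhs) hhB
  have hkill : ∀ (k : ℕ → ℚ → ℂ), (∀ v, v ≤ 0 → star k v = 0) → 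
      (fun v => (star k v * (om t a0 v : ℂ)) * (om t a1 v : ℂ)) =
        fun v => star k v * (om t a1 v : ℂ) := by
    intro k hk
    funext v
    rcases le_or_gt v 0 with hv | hv
    · simp [hk v hv]
    · by_cases hb : om t a1 v = 0
      · simp [hb]
      · rw [om_om c a0 h1 B t g h hD a0 a1 le_rfl h01 v hv hb]
        simp
  have key := ideal_T1 (V := GV) (fun v => star g v * (om t a0 v : ℂ))
    (fun v => star h v * (om t a0 v : ℂ)) hgs' hhs'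
    (fun v hv => by simp [hg0 v hv]) (fun v hv => by simp [hh0 v hv]) B hB hgB' hhB'
    (fun i => c (a0 + i)) (fun i => hc _) (fun i j hij => hanti (by omega))
    (by simpa [add_comm] using (summable_nat_add_iff a0).2 hcs)
    (fun i => tauV t (a0 + i)) (fun i => tauV_pos c a0 B t g h hD _)
    (fun i N => tauV_ratio c a0 B t g h hD (a0 + i) (by omega) N)
    (fun v => conv_om c hc hanti hcs a0 h1 B t g h hD a0 le_rfl v)
    (om t a1) (fun v hv => om_nonneg t a1 v hv) (fun v hv => om_le_one t a1 v hv)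
    (fun F hF ε hε => om_hL t (fun n j => (hD n).tpos j) a1 F hF ε hε)
    (a1 - a0)
    (fun i hi => om_tau c a0 h1 B t g h hD a1 (a0 + i) h01.le (by omega))
    (fun j hj v hv hs => om_big c a0 h1 B t g h hD a1 (a0 + j) h01.le (by omega) v hv hs)
    M hM (by rw [hM]; exact Finset.sum_pos (fun i _ => hc _) ⟨0, by simp; omega⟩) hMB
    (by
      have e : (fun i => c (a0 + (i + (a1 - a0)))) = fun i => c (a1 + i) := by
        funext i; congr 1; omega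
      rw [e]; exact hmass)
    hsm1 σ hσ0 hσ hsm2
  simp only [hkill g hg0, hkill h hh0] at key
  exact key

end J804
end Pool.Agent.Helper976.Fac
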