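import Pool.Agent.Helper976.Fac.Lemmas5

set_option autoImplicit false
open scoped BigOperators Topology
open Filter

namespace Pool.Agent.Helper976.Fac
namespace J806


/-! The lemmas of this section MAY BE USED, they are not targets. -/
section K0
variable (c : ℕ → ℝ) (hc : ∀ i, 0 < c i) (hanti : Antitone c) (hcs : Summable c)
  (a0 : ℕ) (h1 : 1 ≤ a0) (B : ℝ) (t : ℕ → ℕ → ℚ) (g h : ℕ → ℚ → ℂ)
  (hD : ∀ n : ℕ, FData c a0 n B (t n) (g n) (h n))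

end K0

theorem aux_l1_sq (f : ℚ → ℂ) (hf : Summable fun q => ‖f q‖) :
    (Summable fun q => ‖f q‖ ^ 2) ∧ ∑' q, ‖f q‖ ^ 2 ≤ (∑' q, ‖f q‖) ^ 2 := by
  have hle : ∀ q, ‖f q‖ ^ 2 ≤ (∑' q, ‖f q‖) * ‖f q‖ := by
    intro q
    rw [sq]
    exact mul_le_mul_of_nonneg_right (hf.le_tsum q (fun _ _ => norm_nonneg _)) (norm_nonneg _)
  have hs : Summable fun q => ‖f q‖ ^ 2 :=
    Summable.of_nonneg_of_le (fun q => sq_nonneg _) hle (hf.mul_left _)
  refine ⟨hs, ?_⟩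
  calc ∑' q, ‖f q‖ ^ 2 ≤ ∑' q, (∑' q, ‖f q‖) * ‖f q‖ := hs.tsum_le_tsum hle (hf.mul_left _)
    _ = _ := by rw [tsum_mul_left, sq]

theorem aux_conv_l1 (g u : ℚ → ℂ) (hg : Summable fun q => ‖g q‖) (hu : Summable fun q => ‖u q‖) :
    (Summable fun q => ‖∑' r, g r * u (q - r)‖) ∧
      ∑' q, ‖∑' r, g r * u (q - r)‖ ≤ (∑' q, ‖g q‖) * ∑' q, ‖u q‖ := by
  let e : ℚ × ℚ ≃ ℚ × ℚ :=
    { toFun := fun p => (p.2, p.1 - p.2)
      invFun := fun p => (p.2 + p.1, p.1)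
      left_inv := fun p => by ext <;> simp
      right_inv := fun p => by ext <;> simp }
  have h0 : Summable fun p : ℚ × ℚ => ‖g p.1‖ * ‖u p.2‖ :=
    hg.mul_of_nonneg hu (fun _ => norm_nonneg _) (fun _ => norm_nonneg _)
  have hF : Summable fun p : ℚ × ℚ => ‖g p.2‖ * ‖u (p.1 - p.2)‖ :=
    (e.summable_iff (f := fun p : ℚ × ℚ => ‖g p.1‖ * ‖u p.2‖)).2 h0
  have hG : Summable fun q => ∑' r, ‖g r‖ * ‖u (q - r)‖ := hF.prod
  have hq : ∀ q, Summable fun r => ‖g r‖ * ‖u (q - r)‖ := fun q => hF.prod_factor q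
  have hle : ∀ q, ‖∑' r, g r * u (q - r)‖ ≤ ∑' r, ‖g r‖ * ‖u (q - r)‖ := by
    intro q
    have := norm_tsum_le_tsum_norm (f := fun r => g r * u (q - r)) (by
      simpa only [norm_mul] using hq q)
    simpa only [norm_mul] using this
  have hs : Summable fun q => ‖∑' r, g r * u (q - r)‖ :=
    Summable.of_nonneg_of_le (fun _ => norm_nonneg _) hle hG
  refine ⟨hs, ?_⟩
  calc ∑' q, ‖∑' r, g r * u (q - r)‖ ≤ ∑' q, ∑' r, ‖g r‖ * ‖u (q - r)‖ :=
        hs.tsum_le_tsum hle hG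
    _ = ∑' p : ℚ × ℚ, ‖g p.2‖ * ‖u (p.1 - p.2)‖ := (hF.tsum_prod).symm
    _ = ∑' p : ℚ × ℚ, ‖g p.1‖ * ‖u p.2‖ := e.tsum_eq (fun p : ℚ × ℚ => ‖g p.1‖ * ‖u p.2‖)
    _ = _ := (hg.tsum_mul_tsum hu h0).symm


theorem aux_star_tendsto_unique (f : ℕ → ℚ → ℂ) (C : ℝ) (hC : ∀ n q, ‖f n q‖ ≤ C) (a : ℕ → ℚ)
    (x : ℂ) (hx : Tendsto (fun n => f n (a n)) (hyperfilter ℕ : Filter ℕ) (𝓝 x)) :
    star f (a : GV) = x :=
  tendsto_nhds_unique (star_tendsto f C hC a) hx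

theorem aux_star_sub (f g : ℕ → ℚ → ℂ) (C C' : ℝ) (hC : ∀ n q, ‖f n q‖ ≤ C)
    (hC' : ∀ n q, ‖g n q‖ ≤ C') (v : GV) :
    star (fun n q => f n q - g n q) v = star f v - star g v := by
  induction v using Filter.Germ.inductionOn with
  | _ a =>
    refine aux_star_tendsto_unique _ (C + C') (fun n q => ?_) a _
      ((star_tendsto f C hC a).sub (star_tendsto g C' hC' a))
    exact (norm_sub_le _ _).trans (add_le_add (hC n q) (hC' n q))

theorem aux_star_delta (v : GV) :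
    star (fun _ q => if q = 0 then (1 : ℂ) else 0) v = if v = 0 then (1 : ℂ) else 0 := by
  have hb : ∀ (n : ℕ) (q : ℚ), ‖(if q = 0 then (1 : ℂ) else 0)‖ ≤ 1 := by
    intro n q; split_ifs <;> simp
  induction v using Filter.Germ.inductionOn with
  | _ a =>
    by_cases h : (a : GV) = 0
    · rw [if_pos h]
      refine aux_star_tendsto_unique _ 1 hb a _ ?_
      have h' : ∀ᶠ n in (hyperfilter ℕ : Filter ℕ), a n = 0 := by
        have : (a : GV) = ((fun _ => (0 : ℚ) : ℕ → ℚ) : GV) := h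
        exact Filter.Germ.coe_eq.1 this
      refine tendsto_const_nhds.congr' ?_
      filter_upwards [h'] with n hn
      rw [if_pos hn]
    · rw [if_neg h]
      refine aux_star_tendsto_unique _ 1 hb a _ ?_
      have h' : ∀ᶠ n in (hyperfilter ℕ : Filter ℕ), ¬ a n = 0 := by
        rw [Ultrafilter.eventually_not]
        intro h2
        exact h (Filter.Germ.coe_eq.2 h2)
      refine tendsto_const_nhds.congr' ?_
      filter_upwards [h'] with n hn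
      rw [if_neg hn]

theorem aux_bdd (f : ℚ → ℂ) (B : ℝ) (hf : Summable fun q => ‖f q‖) (hB : ∑' q, ‖f q‖ ≤ B) (q : ℚ) :
    ‖f q‖ ≤ B := (hf.le_tsum q (fun _ _ => norm_nonneg _)).trans hB

theorem aux_cut_nonneg (t : ℕ → ℚ) (a : ℕ) : 0 ≤ cut t a := by
  unfold cut; positivity

/-- damped function: l1 bound -/
theorem aux_damp (t : ℕ → ℚ) (a : ℕ) (h : ℚ → ℂ) (hpos : ∀ q, q ≤ 0 → h q = 0)
    (hs : Summable fun q => ‖h q‖) (B : ℝ) (hB : ∑' q, ‖h q‖ ≤ B) :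
    (Summable fun q => ‖h q * ((Real.exp (-(cut t a * (q : ℝ))) : ℝ) : ℂ)‖) ∧
      ∑' q, ‖h q * ((Real.exp (-(cut t a * (q : ℝ))) : ℝ) : ℂ)‖ ≤ B := by
  have hle : ∀ q, ‖h q * ((Real.exp (-(cut t a * (q : ℝ))) : ℝ) : ℂ)‖ ≤ ‖h q‖ := by
    intro q
    rcases le_or_gt q 0 with hq | hq
    · rw [hpos q hq]; simp
    · rw [norm_mul, Complex.norm_real, Real.norm_of_nonneg (Real.exp_pos _).le]
      have : Real.exp (-(cut t a * (q : ℝ))) ≤ 1 := by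
        rw [Real.exp_le_one_iff]
        have h1 := aux_cut_nonneg t a
        have h2 : (0 : ℝ) < q := by exact_mod_cast hq
        nlinarith [mul_nonneg h1 h2.le]
      exact mul_le_of_le_one_right (norm_nonneg _) this
  have h1 := Summable.of_nonneg_of_le (fun _ => norm_nonneg _) hle hs
  exact ⟨h1, (h1.tsum_le_tsum hle hs).trans hB⟩

theorem aux_fin_l1 (u : ℚ → ℂ) (hu : (Function.support u).Finite) : Summable fun q => ‖u q‖ := by
  apply summable_of_hasFiniteSupport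
  refine hu.subset fun q hq => ?_
  simp only [Function.mem_support] at hq ⊢
  intro h0
  exact hq (by rw [h0, norm_zero])

theorem aux_delta_l1 : (Summable fun q : ℚ => ‖(if q = 0 then (1 : ℂ) else 0)‖) ∧
    ∑' q : ℚ, ‖(if q = 0 then (1 : ℂ) else 0)‖ = 1 := by
  have : HasSum (fun q : ℚ => ‖(if q = 0 then (1 : ℂ) else 0)‖) 1 := by
    have e : (fun q : ℚ => ‖(if q = 0 then (1 : ℂ) else 0)‖) =
        fun q : ℚ => if q = 0 then (1 : ℝ) else 0 := by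
      ext q; split_ifs <;> simp
    rw [e]
    exact hasSum_ite_eq 0 1
  exact ⟨this.summable, this.tsum_eq⟩

theorem aux_resid_l1 (g u : ℚ → ℂ) (hg : Summable fun q => ‖g q‖) (B : ℝ) (hgB : ∑' q, ‖g q‖ ≤ B)
    (hu : Summable fun q => ‖u q‖) (U : ℝ) (hU : ∑' q, ‖u q‖ ≤ U) :
    (Summable fun q : ℚ => ‖(if q = 0 then (1 : ℂ) else 0) - ∑' r, g r * u (q - r)‖) ∧
      ∑' q : ℚ, ‖(if q = 0 then (1 : ℂ) else 0) - ∑' r, g r * u (q - r)‖ ≤ 1 + B * U := by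
  obtain ⟨h1, h2⟩ := aux_conv_l1 g u hg hu
  obtain ⟨h3, h4⟩ := aux_delta_l1
  have hle : ∀ q : ℚ, ‖(if q = 0 then (1 : ℂ) else 0) - ∑' r, g r * u (q - r)‖ ≤
      ‖(if q = 0 then (1 : ℂ) else 0)‖ + ‖∑' r, g r * u (q - r)‖ := fun q => norm_sub_le _ _
  have hs := Summable.of_nonneg_of_le (fun _ => norm_nonneg _) hle (h3.add h1)
  refine ⟨hs, ?_⟩
  have hB0 : 0 ≤ ∑' q, ‖g q‖ := tsum_nonneg fun _ => norm_nonneg _
  have hU0 : 0 ≤ ∑' q, ‖u q‖ := tsum_nonneg fun _ => norm_nonneg _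
  calc _ ≤ ∑' q : ℚ, (‖(if q = 0 then (1 : ℂ) else 0)‖ + ‖∑' r, g r * u (q - r)‖) :=
        hs.tsum_le_tsum hle (h3.add h1)
    _ = 1 + ∑' q, ‖∑' r, g r * u (q - r)‖ := by rw [h3.tsum_add h1, h4]
    _ ≤ 1 + (∑' q, ‖g q‖) * ∑' q, ‖u q‖ := by linarith
    _ ≤ 1 + B * U := by
        have := mul_le_mul hgB hU hU0 (hB0.trans hgB)
        linarith

/-- star of the residual -/
theorem aux_star_resid (t : ℕ → ℕ → ℚ) (a : ℕ) (h u : ℕ → ℚ → ℂ) (hpos : ∀ n q, q ≤ 0 → h n q = 0)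
    (hs : ∀ n, Summable fun q => ‖h n q‖) (B : ℝ) (hB : ∀ n, ∑' q, ‖h n q‖ ≤ B)
    (hu : ∀ n, Summable fun q => ‖u n q‖) (W : ℝ)
    (huW : ∀ n, ∑' q, ‖u n q‖ ^ 2 ≤ W ^ 2) (v : GV) :
    star (fun n q => (if q = 0 then (1 : ℂ) else 0) -
      ∑' r, (h n r * ((Real.exp (-(cut (t n) a * (r : ℝ))) : ℝ) : ℂ)) * u n (q - r)) v =
    (if v = 0 then (1 : ℂ) else 0) - ∑' w, (star h w * (om t a w : ℂ)) * star u (v - w) := by
  set hd : ℕ → ℚ → ℂ := fun n r => h n r * ((Real.exp (-(cut (t n) a * (r : ℝ))) : ℝ) : ℂ) with hhd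
  have hd1 : ∀ n, Summable fun q => ‖hd n q‖ := fun n => (aux_damp (t n) a (h n) (hpos n) (hs n) B (hB n)).1
  have hd2 : ∀ n, ∑' q, ‖hd n q‖ ≤ B := fun n => (aux_damp (t n) a (h n) (hpos n) (hs n) B (hB n)).2
  have hb : ∀ (n : ℕ) (q : ℚ), ‖(if q = 0 then (1 : ℂ) else 0)‖ ≤ 1 := by
    intro n q; split_ifs <;> simp
  have hW2 : ∀ n q, ‖u n q‖ ≤ |W| := by
    intro n q
    have h1 : ‖u n q‖ ^ 2 ≤ W ^ 2 :=
      ((aux_l1_sq (u n) (hu n)).1.le_tsum q (fun _ _ => sq_nonneg _)).trans (huW n)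
    exact abs_le_of_sq_le_sq' (by simpa using h1) (abs_nonneg _) |>.2 |> fun h => h
  have hconvb : ∀ n q, ‖∑' r, hd n r * u n (q - r)‖ ≤ B * |W| := by
    intro n q
    have h2 : Summable fun r => ‖hd n r‖ * |W| := (hd1 n).mul_right _
    have hle : ∀ r, ‖hd n r * u n (q - r)‖ ≤ ‖hd n r‖ * |W| := by
      intro r
      rw [norm_mul]
      exact mul_le_mul_of_nonneg_left (hW2 n _) (norm_nonneg _)
    have h3 : Summable fun r => ‖hd n r * u n (q - r)‖ :=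
      Summable.of_nonneg_of_le (fun _ => norm_nonneg _) hle h2
    calc ‖∑' r, hd n r * u n (q - r)‖ ≤ ∑' r, ‖hd n r * u n (q - r)‖ := norm_tsum_le_tsum_norm h3
      _ ≤ ∑' r, ‖hd n r‖ * |W| := h3.tsum_le_tsum hle h2
      _ = (∑' r, ‖hd n r‖) * |W| := tsum_mul_right
      _ ≤ _ := mul_le_mul_of_nonneg_right (hd2 n) (abs_nonneg _)
  rw [aux_star_sub (fun _ q => if q = 0 then (1 : ℂ) else 0) (fun n q => ∑' r, hd n r * u n (q - r))
    1 (B * |W|) hb hconvb, aux_star_delta]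
  congr 1
  rw [star_conv hd u B W hd1 hd2 (fun n => (aux_l1_sq (u n) (hu n)).1) huW v]
  refine tsum_congr fun w => ?_
  rw [hhd, star_damped t h hpos B (fun n q => aux_bdd (h n) B (hs n) (hB n) q) a w]

/-- TARGET -/
theorem core_T2 (c : ℕ → ℝ) (hc : ∀ i, 0 < c i) (hanti : Antitone c) (hcs : Summable c)
    (a0 a1 a2 : ℕ) (h1 : 1 ≤ a0) (h01 : a0 < a1) (h12 : a1 < a2) (B : ℝ) (hB : 0 < B)
    (M : ℝ) (hM : M = ∑ i ∈ Finset.range (a1 - a0), c (a0 + i)) (hMB : M ≤ 8 * B ^ 2)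
    (hmass : M < ∑' i, c (a1 + i)) (hsm1 : c a0 ≤ M ^ 2 / (2 * B ^ 2))
    (hmass2 : ∑ i ∈ Finset.range (a2 - a1), c (a1 + i) < ∑' i, c (a2 + i))
    (σ : ℝ) (hσ0 : 0 ≤ σ) (hσ : ∑' i, c (a0 + i) ^ 2 ≤ σ ^ 2)
    (hsm2 : 4 * c a0 + 2 * σ < (M / (4 * B)) ^ 2 / 2)
    (W ε₁ ρ ε₂ : ℝ) (hW : 0 ≤ W) (hε₁ : 0 ≤ ε₁)
    (hwrong : σ * W < (M / (4 * B)) ^ 2 / (2 * B) * (1 - ε₁))
    (hρ : W + ε₁ / ((M / (4 * B)) ^ 2 / (2 * B)) < ρ) (hε₂ : 0 < ε₂) :
    ∃ R : ℕ, ∀ (t : ℕ → ℚ) (g h : ℚ → ℂ), FData c a0 R B t g h →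
      Fine (cut t a1) ε₁ W h → Fine (cut t a2) ε₂ ρ h := by
  classical
  by_contra hcon
  push Not at hcon
  choose t g h hD hF1 hF2 using hcon
  have hF1' := hF1
  unfold Fine at hF1'
  choose u hufin huW hures using hF1'
  -- basic facts
  have hM0 : 0 < M := by
    rw [hM]
    apply Finset.sum_pos (fun i _ => hc _)
    rw [Finset.nonempty_range_iff]
    omega
  set d : ℝ := (M / (4 * B)) ^ 2 / (2 * B) with hd
  have hd0 : 0 < d := by positivity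
  have hhs : ∀ n, Summable fun q => ‖h n q‖ := fun n => (hD n).hsum
  have hhB : ∀ n, ∑' q, ‖h n q‖ ≤ B := fun n => (hD n).hB
  have hgs : ∀ n, Summable fun q => ‖g n q‖ := fun n => (hD n).gsum
  have hgB : ∀ n, ∑' q, ‖g n q‖ ≤ B := fun n => (hD n).gB
  have hhpos : ∀ n q, q ≤ 0 → h n q = 0 := fun n => (hD n).hpos
  have hgpos : ∀ n q, q ≤ 0 → g n q = 0 := fun n => (hD n).gpos
  have hhb : ∀ n q, ‖h n q‖ ≤ B := fun n q => aux_bdd (h n) B (hhs n) (hhB n) q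
  have hgb : ∀ n q, ‖g n q‖ ≤ B := fun n q => aux_bdd (g n) B (hgs n) (hgB n) q
  obtain ⟨hSg, hSgB⟩ := star_l1 g B hgs hgB
  obtain ⟨hSh, hShB⟩ := star_l1 h B hhs hhB
  have hSgpos : ∀ v : GV, v ≤ 0 → star g v = 0 := star_pos g hgpos B hgb
  have hShpos : ∀ v : GV, v ≤ 0 → star h v = 0 := star_pos h hhpos B hhb
  have hdamp : ∀ (f : GV → ℂ), (∀ v, v ≤ 0 → f v = 0) → ∀ v, ‖f v * (om t a1 v : ℂ)‖ ≤ ‖f v‖ := by
    intro f hf v
    rcases le_or_gt v 0 with hv | hv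
    · rw [hf v hv]; simp
    · rw [norm_mul, Complex.norm_real, Real.norm_of_nonneg (om_nonneg t a1 v hv)]
      exact mul_le_of_le_one_right (norm_nonneg _) (om_le_one t a1 v hv)
  have hus : ∀ n, Summable fun q => ‖u n q‖ := fun n => aux_fin_l1 (u n) (hufin n)
  obtain ⟨hSu, hSuW⟩ := star_l2 u W (fun n => (aux_l1_sq (u n) (hus n)).1) huW
  -- residual in the ultrapower
  have hres := star_l2 (fun n q => (if q = 0 then (1 : ℂ) else 0) -
      ∑' r, (h n r * ((Real.exp (-(cut (t n) a1 * (r : ℝ))) : ℝ) : ℂ)) * u n (q - r)) ε₁ (by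
        intro n
        obtain ⟨k1, k2⟩ := aux_damp (t n) a1 (h n) (hhpos n) (hhs n) B (hhB n)
        exact (aux_l1_sq _ (aux_resid_l1 _ (u n) k1 B k2 (hus n) _ le_rfl).1).1) hures
  have hres2 := hres.2
  have hstar : ∀ v, star (fun n q => (if q = 0 then (1 : ℂ) else 0) -
      ∑' r, (h n r * ((Real.exp (-(cut (t n) a1 * (r : ℝ))) : ℝ) : ℂ)) * u n (q - r)) v =
      (if v = 0 then (1 : ℂ) else 0) - ∑' w, (star h w * (om t a1 w : ℂ)) * star u (v - w) :=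
    fun v => aux_star_resid t a1 h u hhpos hhs B hhB hus W huW v
  simp only [hstar] at hres2
  -- coefficients
  have hcs1 : ∀ k, Summable fun i => c (k + i) := fun k => by
    simpa [add_comm] using (summable_nat_add_iff k).2 hcs
  have hc2 : Summable fun i => c i ^ 2 := by
    refine Summable.of_nonneg_of_le (fun i => sq_nonneg _) (fun i => ?_) (hcs.mul_left (c 0))
    rw [sq]
    exact mul_le_mul_of_nonneg_right (hanti (Nat.zero_le i)) (hc i).le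
  have hc2s : ∀ k, Summable fun i => c (k + i) ^ 2 := fun k => by
    simpa [add_comm] using (summable_nat_add_iff k).2 hc2
  have hσ' : ∑' i, c (a1 + i) ^ 2 ≤ σ ^ 2 := by
    refine le_trans ?_ hσ
    refine (hc2s a1).tsum_le_tsum (fun i => ?_) (hc2s a0)
    have h5 := hanti (show a0 + i ≤ a1 + i by omega)
    have h6 := (hc (a1 + i)).le
    exact pow_le_pow_left₀ h6 h5 2
  have hstrict : StrictAnti fun i => tauV t (a1 + i) := by
    apply strictAnti_nat_of_succ_lt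
    intro i
    have := tauV_ratio a0 B t g h (c := c) hD (a1 + i) (by omega) 1
    rw [one_nsmul] at this
    exact this
  obtain ⟨F, u', hu'0, hu'ρ, hu'ε⟩ := ideal_T2 (V := GV)
    (fun v => star g v * (om t a1 v : ℂ)) (fun v => star h v * (om t a1 v : ℂ))
    (Summable.of_nonneg_of_le (fun _ => norm_nonneg _) (hdamp _ hSgpos) hSg)
    (Summable.of_nonneg_of_le (fun _ => norm_nonneg _) (hdamp _ hShpos) hSh)
    (fun v hv => by simp only [hSgpos v hv, zero_mul])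
    (fun v hv => by simp only [hShpos v hv, zero_mul])
    B hB
    (((Summable.of_nonneg_of_le (fun _ => norm_nonneg _) (hdamp _ hSgpos) hSg).tsum_le_tsum
      (hdamp _ hSgpos) hSg).trans hSgB)
    (((Summable.of_nonneg_of_le (fun _ => norm_nonneg _) (hdamp _ hShpos) hSh).tsum_le_tsum
      (hdamp _ hShpos) hSh).trans hShB)
    (fun i => c (a1 + i)) (fun i => hc _) (hcs1 a1)
    (fun i => tauV t (a1 + i)) (fun i => tauV_pos c a0 B t g h hD _) hstrict.injective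
    (conv_om c hc hanti hcs a0 h1 B t g h hD a1 h01.le)
    (om t a2) (om_nonneg t a2) (om_le_one t a2)
    (fun F hF ε hε => om_hL t (fun n j => (hD n).tpos j) a2 F hF ε hε)
    (a2 - a1) (fun i hi => om_tau c a0 h1 B t g h hD a2 (a1 + i) (by omega) (by omega))
    (by
      have e : (fun i => c (a1 + (i + (a2 - a1)))) = fun i => c (a2 + i) := by
        ext i; congr 1; omega
      rw [e]
      exact hmass2)
    d hd0
    (seq_low c hc hanti hcs a0 a1 h1 h01 B hB M hM hMB hmass hsm1 σ hσ0 hσ hsm2 t g h hD)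
    σ hσ0 hσ' (star u) hSu W hW hSuW ε₁ hε₁ hres2 hwrong ρ ε₂ hρ hε₂
  -- the product of the two cuts
  have hprod : ∀ w : GV, star h w * (om t a1 w : ℂ) * (om t a2 w : ℂ) =
      star h w * (om t a2 w : ℂ) := by
    intro w
    rcases le_or_gt w 0 with hw | hw
    · rw [hShpos w hw]; simp
    · by_cases h0 : om t a2 w = 0
      · rw [h0]; simp
      · rw [om_om c a0 h1 B t g h hD a1 a2 h01.le h12 w hw h0]; simp
  simp only [hprod] at hu'ε
  obtain ⟨u2, hu2fin, hu2l1, hu2star⟩ := star_lift F u' hu'0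
  have hu2s : ∀ n, Summable fun q => ‖u2 n q‖ := fun n => aux_fin_l1 (u2 n) (hu2fin n)
  set U : ℝ := ∑ v ∈ F, ‖u' v‖ with hU
  have hU0 : 0 ≤ U := Finset.sum_nonneg fun _ _ => norm_nonneg _
  have hu2W : ∀ n, ∑' q, ‖u2 n q‖ ^ 2 ≤ U ^ 2 := by
    intro n
    refine (aux_l1_sq (u2 n) (hu2s n)).2.trans ?_
    exact pow_le_pow_left₀ (tsum_nonneg fun _ => norm_nonneg _) (hu2l1 n) 2
  have hstar2 : ∀ v, star (fun n q => (if q = 0 then (1 : ℂ) else 0) -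
      ∑' r, (h n r * ((Real.exp (-(cut (t n) a2 * (r : ℝ))) : ℝ) : ℂ)) * u2 n (q - r)) v =
      (if v = 0 then (1 : ℂ) else 0) - ∑' w, (star h w * (om t a2 w : ℂ)) * u' (v - w) := by
    intro v
    rw [aux_star_resid t a2 h u2 hhpos hhs B hhB hu2s U hu2W v, hu2star]
  have ev1 : ∀ᶠ n in (hyperfilter ℕ : Filter ℕ), ∑' q, ‖u2 n q‖ ^ 2 < ρ ^ 2 :=
    star_l2_limit u2 U hu2s hu2l1 (ρ ^ 2) (by rw [hu2star]; exact hu'ρ)
  have ev2 : ∀ᶠ n in (hyperfilter ℕ : Filter ℕ), ∑' q, ‖(if q = 0 then (1 : ℂ) else 0) -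
      ∑' r, (h n r * ((Real.exp (-(cut (t n) a2 * (r : ℝ))) : ℝ) : ℂ)) * u2 n (q - r)‖ ^ 2
        < ε₂ ^ 2 := by
    refine star_l2_limit (fun n q => (if q = 0 then (1 : ℂ) else 0) -
      ∑' r, (h n r * ((Real.exp (-(cut (t n) a2 * (r : ℝ))) : ℝ) : ℂ)) * u2 n (q - r))
      (1 + B * U) ?_ ?_ (ε₂ ^ 2) ?_
    · intro n
      obtain ⟨k1, k2⟩ := aux_damp (t n) a2 (h n) (hhpos n) (hhs n) B (hhB n)
      exact (aux_resid_l1 _ (u2 n) k1 B k2 (hu2s n) U (hu2l1 n)).1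
    · intro n
      obtain ⟨k1, k2⟩ := aux_damp (t n) a2 (h n) (hhpos n) (hhs n) B (hhB n)
      exact (aux_resid_l1 _ (u2 n) k1 B k2 (hu2s n) U (hu2l1 n)).2
    · simp only [hstar2]
      exact hu'ε
  obtain ⟨n, hn1, hn2⟩ := (ev1.and ev2).exists
  exact hF2 n ⟨u2 n, hu2fin n, hn1.le, hn2.le⟩

end J806
end Pool.Agent.Helper976.Fac
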