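import Pool.Agent.Helper976.Fac.Defs3

set_option autoImplicit false
open scoped BigOperators Topology
open Filter

namespace Pool.Agent.Helper976.Fac
namespace J855

/-- TARGET -/
theorem cc_pos (j : ℕ) : 0 < cc j := by
  unfold cc; positivity

/-- TARGET -/
theorem cc_antitone : Antitone cc := by
  intro a b hab
  unfold cc
  apply pow_le_pow_of_le_one (by norm_num) (by norm_num)
  exact Nat.log_mono_right (by omega)

theorem cc_eq_of (n i : ℕ) (hi : i < 2 ^ n) : cc ((2 ^ n - 1) + i) = (15 / 32 : ℝ) ^ n := by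
  unfold cc
  have h1 : (2 ^ n - 1) + i + 1 = 2 ^ n + i := by
    have : 0 < 2 ^ n := by positivity
    omega
  have h2 : Nat.log 2 (2 ^ n + i) = n := by
    apply Nat.log_eq_of_pow_le_of_lt_pow
    · omega
    · rw [pow_succ]; omega
  rw [h1, h2]

theorem blk (n : ℕ) : ∑ i ∈ Finset.range (2 ^ n), cc ((2 ^ n - 1) + i) = (15 / 16 : ℝ) ^ n := by
  rw [Finset.sum_congr rfl (g := fun _ => (15 / 32 : ℝ) ^ n)
    (fun i hi => cc_eq_of n i (Finset.mem_range.1 hi))]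
  rw [Finset.sum_const, Finset.card_range, nsmul_eq_mul]
  push_cast
  rw [← mul_pow]
  norm_num

/-- TARGET -/
theorem cc_summable : Summable cc := by
  rw [← summable_condensed_iff_of_nonneg (fun n => (cc_pos n).le)
    (fun m n _ h => cc_antitone h)]
  refine Summable.of_nonneg_of_le (fun k => ?_) (fun k => ?_)
    (summable_geometric_of_lt_one (r := (15 / 16 : ℝ)) (by norm_num) (by norm_num))
  · exact mul_nonneg (by positivity) (cc_pos _).le
  · have h1 : cc (2 ^ k) ≤ (15 / 32 : ℝ) ^ k := by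
      unfold cc
      apply pow_le_pow_of_le_one (by norm_num) (by norm_num)
      apply Nat.le_log_of_pow_le (by norm_num)
      omega
    calc (2 : ℝ) ^ k * cc (2 ^ k) ≤ 2 ^ k * (15 / 32 : ℝ) ^ k :=
          mul_le_mul_of_nonneg_left h1 (by positivity)
      _ = (15 / 16 : ℝ) ^ k := by rw [← mul_pow]; norm_num

theorem cc_shift_summable (a : ℕ) : Summable fun i => cc (a + i) := by
  have := (summable_nat_add_iff a).2 cc_summable
  simpa [add_comm] using this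

/-- TARGET -/
theorem cc_block (m : ℕ) (hm : 1 ≤ m) :
    ∑ i ∈ Finset.range ((2 ^ m - 1) - (2 ^ (m - 1) - 1)), cc ((2 ^ (m - 1) - 1) + i) =
      (15 / 16 : ℝ) ^ (m - 1) := by
  obtain ⟨n, rfl⟩ : ∃ n, m = n + 1 := ⟨m - 1, by omega⟩
  have h1 : (2 ^ (n + 1) - 1) - (2 ^ (n + 1 - 1) - 1) = 2 ^ n := by
    have : 0 < 2 ^ n := by positivity
    rw [pow_succ, Nat.add_sub_cancel]; omega
  rw [h1, Nat.add_sub_cancel]
  exact blk n

theorem part_sum (n K : ℕ) :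
    ∑ i ∈ Finset.range (2 ^ n * (2 ^ K - 1)), cc ((2 ^ n - 1) + i) =
      ∑ k ∈ Finset.range K, (15 / 16 : ℝ) ^ (n + k) := by
  induction K with
  | zero => simp
  | succ K ih =>
    have h1 : 2 ^ n * (2 ^ (K + 1) - 1) = 2 ^ n * (2 ^ K - 1) + 2 ^ (n + K) := by
      obtain ⟨t, ht⟩ : ∃ t, 2 ^ K = t + 1 := ⟨2 ^ K - 1, by
        have : 0 < 2 ^ K := by positivity
        omega⟩
      rw [pow_succ, pow_add, ht]
      have h : (t + 1) * 2 - 1 = 2 * t + 1 := by omega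
      rw [h, Nat.add_sub_cancel]
      ring
    rw [h1, Finset.sum_range_add, ih, Finset.sum_range_succ, ← blk (n + K)]
    congr 1
    apply Finset.sum_congr rfl
    intro i _
    congr 1
    have h2 : 2 ^ n * (2 ^ K - 1) + 2 ^ n = 2 ^ (n + K) := by
      obtain ⟨t, ht⟩ : ∃ t, 2 ^ K = t + 1 := ⟨2 ^ K - 1, by
        have : 0 < 2 ^ K := by positivity
        omega⟩
      rw [pow_add, ht, Nat.add_sub_cancel]
      ring
    have h3 : 0 < 2 ^ n := by positivity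
    omega

theorem geo_le (n K : ℕ) :
    ∑ k ∈ Finset.range K, (15 / 16 : ℝ) ^ (n + k) ≤ 16 * (15 / 16 : ℝ) ^ n := by
  have h : ∑ k ∈ Finset.range K, (15 / 16 : ℝ) ^ (n + k) =
      16 * (15 / 16 : ℝ) ^ n - 16 * (15 / 16 : ℝ) ^ (n + K) := by
    induction K with
    | zero => simp
    | succ K ih =>
      rw [Finset.sum_range_succ, ih]
      rw [← add_assoc, pow_succ]
      ring
  rw [h]
  have : (0 : ℝ) ≤ (15 / 16 : ℝ) ^ (n + K) := by positivity
  linarith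

/-- TARGET -/
theorem cc_mass (m : ℕ) (hm : 1 ≤ m) :
    (15 / 16 : ℝ) ^ (m - 1) < ∑' i, cc ((2 ^ m - 1) + i) := by
  obtain ⟨n, rfl⟩ : ∃ n, m = n + 1 := ⟨m - 1, by omega⟩
  have h1 := (cc_shift_summable (2 ^ (n + 1) - 1)).sum_le_tsum
    (Finset.range (2 ^ (n + 1) * (2 ^ 2 - 1))) (fun i _ => (cc_pos _).le)
  rw [part_sum] at h1
  refine lt_of_lt_of_le ?_ h1
  rw [Finset.sum_range_succ, Finset.sum_range_one, Nat.add_sub_cancel]
  have h2 : (0 : ℝ) < (15 / 16 : ℝ) ^ n := by positivity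
  have e1 : (15 / 16 : ℝ) ^ (n + 1 + 0) = (15 / 16 : ℝ) ^ n * (15 / 16) := by
    rw [add_zero, pow_succ]
  have e2 : (15 / 16 : ℝ) ^ (n + 1 + 1) = (15 / 16 : ℝ) ^ n * (225 / 256) := by
    rw [pow_succ, pow_succ]; ring
  rw [e1, e2]
  nlinarith

theorem tail_le (n : ℕ) : ∑' i, cc ((2 ^ n - 1) + i) ≤ 16 * (15 / 16 : ℝ) ^ n := by
  apply Real.tsum_le_of_sum_range_le (fun i => (cc_pos _).le)
  intro N
  have hN : N ≤ 2 ^ n * (2 ^ N - 1) := by
    have h1 : N < 2 ^ N := Nat.lt_two_pow_self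
    have h2 : 0 < 2 ^ n := by positivity
    calc N ≤ 2 ^ N - 1 := by omega
      _ = 1 * (2 ^ N - 1) := (one_mul _).symm
      _ ≤ 2 ^ n * (2 ^ N - 1) := Nat.mul_le_mul_right _ h2
  calc ∑ i ∈ Finset.range N, cc ((2 ^ n - 1) + i)
      ≤ ∑ i ∈ Finset.range (2 ^ n * (2 ^ N - 1)), cc ((2 ^ n - 1) + i) :=
        Finset.sum_le_sum_of_subset_of_nonneg (Finset.range_mono hN)
          (fun i _ _ => (cc_pos _).le)
    _ = _ := part_sum n N
    _ ≤ _ := geo_le n N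

/-- TARGET -/
theorem cc_sq (m : ℕ) (hm : 1 ≤ m) :
    ∑' i, cc ((2 ^ (m - 1) - 1) + i) ^ 2 ≤
      16 * (15 / 32 : ℝ) ^ (m - 1) * (15 / 16 : ℝ) ^ (m - 1) := by
  obtain ⟨n, rfl⟩ : ∃ n, m = n + 1 := ⟨m - 1, by omega⟩
  rw [Nat.add_sub_cancel]
  have hle : ∀ i, cc ((2 ^ n - 1) + i) ^ 2 ≤ (15 / 32 : ℝ) ^ n * cc ((2 ^ n - 1) + i) := by
    intro i
    have h1 : cc ((2 ^ n - 1) + i) ≤ (15 / 32 : ℝ) ^ n := by
      have h2 := cc_eq_of n 0 (by positivity)
      rw [← h2]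
      exact cc_antitone (by omega)
    rw [sq]
    exact mul_le_mul_of_nonneg_right h1 (cc_pos _).le
  have hs : Summable fun i => (15 / 32 : ℝ) ^ n * cc ((2 ^ n - 1) + i) :=
    (cc_shift_summable _).mul_left _
  have hs2 : Summable fun i => cc ((2 ^ n - 1) + i) ^ 2 :=
    Summable.of_nonneg_of_le (fun i => sq_nonneg _) hle hs
  calc ∑' i, cc ((2 ^ n - 1) + i) ^ 2
      ≤ ∑' i, (15 / 32 : ℝ) ^ n * cc ((2 ^ n - 1) + i) := hs2.tsum_le_tsum hle hs
    _ = (15 / 32 : ℝ) ^ n * ∑' i, cc ((2 ^ n - 1) + i) := tsum_mul_left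
    _ ≤ (15 / 32 : ℝ) ^ n * (16 * (15 / 16 : ℝ) ^ n) :=
        mul_le_mul_of_nonneg_left (tail_le n) (by positivity)
    _ = _ := by ring

end J855
end Pool.Agent.Helper976.Fac
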