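import Pool.Agent.Helper976.Fac.Defs3

set_option autoImplicit false
open scoped BigOperators Topology
open Filter

namespace Pool.Agent.Helper976.Fac
namespace J856

theorem cc_num_aux : ∀ᶠ m : ℕ in atTop, 65536 * (m : ℝ) ^ 6 * (86 / 100 : ℝ) ^ (m - 1) < 1 := by
  have h := tendsto_pow_const_mul_const_pow_of_abs_lt_one 6
    (r := (86 / 100 : ℝ)) (by rw [abs_of_pos (by norm_num)]; norm_num)
  have h2 : ∀ᶠ m : ℕ in atTop, (m : ℝ) ^ 6 * (86 / 100 : ℝ) ^ m < (86 / 100) / 65536 :=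
    h.eventually (gt_mem_nhds (by norm_num))
  filter_upwards [h2, eventually_ge_atTop 1] with m hm hm1
  obtain ⟨k, rfl⟩ : ∃ k, m = k + 1 := ⟨m - 1, by omega⟩
  simp only [Nat.add_sub_cancel]
  rw [pow_succ (86 / 100 : ℝ) k] at hm
  rw [lt_div_iff₀ (by norm_num)] at hm
  nlinarith

theorem dd_eq (m : ℕ) (hm : 1 ≤ m) : dd m = (225 / 256 : ℝ) ^ (m - 1) / (32 * (m : ℝ) ^ 3) := by
  have hm0 : (m : ℝ) ≠ 0 := by positivity
  unfold dd
  rw [div_pow, ← pow_mul, mul_comm (m - 1) 2, pow_mul]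
  field_simp
  norm_num
  ring

theorem dd_anti (a b : ℕ) (ha : 1 ≤ a) (hab : a ≤ b) : dd b ≤ dd a := by
  rw [dd_eq a ha, dd_eq b (ha.trans hab)]
  have ha0 : (0 : ℝ) < a := by exact_mod_cast ha
  have hab' : (a : ℝ) ≤ b := by exact_mod_cast hab
  have h1 : (225 / 256 : ℝ) ^ (b - 1) ≤ (225 / 256 : ℝ) ^ (a - 1) :=
    pow_le_pow_of_le_one (by norm_num) (by norm_num) (by omega)
  gcongr

/-- TARGET -/
theorem cc_num : ∃ m1 : ℕ, 2 ≤ m1 ∧ ∀ m : ℕ, m1 ≤ m →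
    cc (2 ^ (m - 1) - 1) ≤ ((15 / 16 : ℝ) ^ (m - 1)) ^ 2 / (2 * (m : ℝ) ^ 2) ∧
    4 * cc (2 ^ (m - 1) - 1) + 2 * Real.sqrt (16 * (15 / 32 : ℝ) ^ (m - 1) * (15 / 16 : ℝ) ^ (m - 1)) <
      ((15 / 16 : ℝ) ^ (m - 1) / (4 * (m : ℝ))) ^ 2 / 2 ∧
    (∀ m0 : ℕ, 1 ≤ m0 → m0 ≤ m →
      Real.sqrt (16 * (15 / 32 : ℝ) ^ (m - 1) * (15 / 16 : ℝ) ^ (m - 1)) * ww m0 m <
        dd m * (1 - ee m)) := by
  obtain ⟨m1, hm1⟩ := eventually_atTop.1 (cc_num_aux.and (eventually_ge_atTop 2))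
  refine ⟨max m1 2, le_max_right _ _, fun m hm => ?_⟩
  obtain ⟨hu, hm2⟩ := hm1 m (le_trans (le_max_left _ _) hm)
  have hmpos : (1 : ℝ) ≤ m := by exact_mod_cast (by omega : 1 ≤ m)
  set x := m - 1 with hx
  set A : ℝ := (225 / 256 : ℝ) ^ x with hA
  set u : ℝ := (86 / 100 : ℝ) ^ x with hu'
  have hA0 : 0 < A := by positivity
  have hA1 : A ≤ 1 := pow_le_one₀ (by norm_num) (by norm_num)
  have hu0 : 0 < u := by positivity
  have hcc : cc (2 ^ x - 1) = (15 / 32 : ℝ) ^ x := by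
    unfold cc
    rw [Nat.sub_add_cancel Nat.one_le_two_pow, Nat.log_pow (by norm_num)]
  have hc : cc (2 ^ x - 1) ≤ A * u := by
    rw [hcc, hA, hu', ← mul_pow]
    exact pow_le_pow_left₀ (by norm_num) (by norm_num) _
  have hr : Real.sqrt (16 * (15 / 32 : ℝ) ^ x * (15 / 16 : ℝ) ^ x) ≤ 4 * A ^ 2 * u := by
    rw [Real.sqrt_le_iff]
    refine ⟨by positivity, ?_⟩
    have e : (4 * A ^ 2 * u) ^ 2 = 16 * ((225 / 256 : ℝ) ^ 4 * (86 / 100) ^ 2) ^ x := by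
      rw [hA, hu', mul_pow ((225 / 256 : ℝ) ^ 4), ← pow_mul, ← pow_mul, mul_pow, mul_pow,
        ← pow_mul, ← pow_mul, ← pow_mul, mul_comm 4 x, mul_comm 2 x, mul_assoc x 2 2]
      norm_num
      ring
    rw [e, mul_assoc, ← mul_pow]
    exact mul_le_mul_of_nonneg_left
      (pow_le_pow_left₀ (by norm_num) (by norm_num) _) (by norm_num)
  have hsq : ((15 / 16 : ℝ) ^ x) ^ 2 = A := by
    rw [hA, ← pow_mul, mul_comm x 2, pow_mul]; norm_num
  have hm26 : (m : ℝ) ^ 2 ≤ (m : ℝ) ^ 6 := pow_le_pow_right₀ hmpos (by norm_num)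
  have hddm : dd m = A / (32 * (m : ℝ) ^ 3) := dd_eq m (by omega)
  have hm3 : (1 : ℝ) ≤ (m : ℝ) ^ 3 := one_le_pow₀ hmpos
  have hdd0 : 0 < dd m := by rw [hddm]; positivity
  have hdd1 : dd m ≤ 1 := by
    rw [hddm, div_le_one (by positivity)]
    nlinarith
  have hm2u : 65536 * (m : ℝ) ^ 2 * u < 1 := by
    have := mul_le_mul_of_nonneg_right hm26 hu0.le
    nlinarith
  refine ⟨?_, ?_, ?_⟩
  · rw [hsq, le_div_iff₀ (by positivity)]
    have : cc (2 ^ x - 1) * (2 * (m : ℝ) ^ 2) ≤ A * u * (2 * (m : ℝ) ^ 2) := by gcongr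
    have h3 : A * (2 * (m : ℝ) ^ 2 * u) ≤ A * 1 := by
      apply mul_le_mul_of_nonneg_left _ hA0.le
      have : 0 < (m : ℝ) ^ 2 * u := by positivity
      nlinarith
    nlinarith
  · rw [div_pow ((15 / 16 : ℝ) ^ x), hsq, div_div]
    have h4 : 4 * cc (2 ^ x - 1) + 2 * Real.sqrt (16 * (15 / 32 : ℝ) ^ x * (15 / 16 : ℝ) ^ x) ≤
        12 * (A * u) := by
      have : A ^ 2 * u ≤ A * u := by
        apply mul_le_mul_of_nonneg_right _ hu0.le
        nlinarith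
      nlinarith
    refine lt_of_le_of_lt h4 ?_
    rw [lt_div_iff₀ (by positivity)]
    have h3 : A * (12 * ((4 * (m : ℝ)) ^ 2 * 2) * u) < A * 1 := by
      apply mul_lt_mul_of_pos_left _ hA0
      have : 0 < (m : ℝ) ^ 2 * u := by positivity
      nlinarith
    nlinarith
  · intro m0 hm0 hm0m
    have hanti := dd_anti m0 m hm0 hm0m
    have hdd00 : 0 < dd m0 := lt_of_lt_of_le hdd0 hanti
    have hww : ww m0 m ≤ 1 / dd m + 3 := by
      unfold ww
      have : 1 / dd m0 ≤ 1 / dd m := one_div_le_one_div_of_le hdd0 hanti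
      have h2 : (0 : ℝ) < 1 / 2 ^ m := by positivity
      linarith
    have hee : ee m ≤ 1 / 2 := by
      unfold ee
      rw [div_le_iff₀ (by positivity)]
      have : (4 : ℝ) ≤ 2 ^ (m + 2) := by
        rw [pow_add]
        have : (1 : ℝ) ≤ 2 ^ m := one_le_pow₀ (by norm_num)
        nlinarith
      nlinarith
    have hinv : 1 / dd m = 32 * (m : ℝ) ^ 3 / A := by
      rw [hddm, one_div_div]
    have hR : Real.sqrt (16 * (15 / 32 : ℝ) ^ x * (15 / 16 : ℝ) ^ x) * ww m0 m ≤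
        (4 * A ^ 2 * u) * (1 / dd m + 3) := by
      calc Real.sqrt (16 * (15 / 32 : ℝ) ^ x * (15 / 16 : ℝ) ^ x) * ww m0 m
          ≤ Real.sqrt (16 * (15 / 32 : ℝ) ^ x * (15 / 16 : ℝ) ^ x) * (1 / dd m + 3) := by
            gcongr
        _ ≤ _ := by
            have : 0 ≤ 1 / dd m + 3 := by positivity
            gcongr
    have hS : (4 * A ^ 2 * u) * (1 / dd m + 3) ≤ 140 * (m : ℝ) ^ 3 * (A * u) := by
      rw [hinv]
      have e : (4 * A ^ 2 * u) * (32 * (m : ℝ) ^ 3 / A + 3) =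
          (128 * (m : ℝ) ^ 3 + 12 * A) * (A * u) := by
        field_simp
        ring
      rw [e]
      gcongr
      nlinarith
    have hT : 140 * (m : ℝ) ^ 3 * (A * u) < dd m / 2 := by
      rw [hddm, div_div, lt_div_iff₀ (by positivity)]
      have h3 : A * (140 * 64 * (m : ℝ) ^ 6 * u) < A * 1 := by
        apply mul_lt_mul_of_pos_left _ hA0
        have : 0 < (m : ℝ) ^ 6 * u := by positivity
        linarith
      have e : 140 * (m : ℝ) ^ 3 * (A * u) * (32 * (m : ℝ) ^ 3 * 2) =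
          A * (140 * 64 * (m : ℝ) ^ 6 * u) := by ring
      rw [e]
      linarith
    have hU : dd m / 2 ≤ dd m * (1 - ee m) := by nlinarith
    linarith

end J856
end Pool.Agent.Helper976.Fac
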