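import Pool.Agent.Helper976.Fac.Lemmas6

set_option autoImplicit false
open scoped BigOperators Topology
open Filter

namespace Pool.Agent.Helper976.Fac
namespace J857

theorem dd_pos' (m : ℕ) (hm : 1 ≤ m) : 0 < dd m := by
  have : (0:ℝ) < m := by exact_mod_cast hm
  unfold dd
  positivity

theorem ee_pos' (m : ℕ) (hm : 1 ≤ m) : 0 < ee m := by
  have := dd_pos' m hm
  unfold ee
  positivity

/-- TARGET -/
theorem stages : ∃ m1 : ℕ, 2 ≤ m1 ∧
    (∀ m : ℕ, m1 ≤ m → ∃ R : ℕ, ∀ (t : ℕ → ℚ) (g h : ℚ → ℂ),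
      FData cc (2 ^ (m - 1) - 1) R m t g h →
      Fine (cut t (2 ^ m - 1)) (ee m) (ww m m) h ∨ Fine (cut t (2 ^ m - 1)) (ee m) (ww m m) g) ∧
    (∀ m0 m : ℕ, m1 ≤ m0 → m0 ≤ m → ∃ R : ℕ, ∀ (t : ℕ → ℚ) (g h : ℚ → ℂ),
      FData cc (2 ^ (m - 1) - 1) R m t g h →
      Fine (cut t (2 ^ m - 1)) (ee m) (ww m0 m) h →
      Fine (cut t (2 ^ (m + 1) - 1)) (ee (m + 1)) (ww m0 (m + 1)) h) := by
  obtain ⟨m1, hm1, hnum⟩ := cc_num
  have hpow : ∀ m : ℕ, 2 ≤ m → 2 ≤ 2 ^ (m - 1) ∧ 2 ^ m = 2 * 2 ^ (m - 1) := by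
    intro m hm
    constructor
    · calc 2 = 2 ^ 1 := rfl
        _ ≤ 2 ^ (m - 1) := Nat.pow_le_pow_right (by norm_num) (by omega)
    · rw [← pow_succ']
      congr 1
      omega
  have hM1 : ∀ m : ℕ, 2 ≤ m → (15 / 16 : ℝ) ^ (m - 1) ≤ 8 * (m:ℝ) ^ 2 := by
    intro m hm
    have h1 : (15 / 16 : ℝ) ^ (m - 1) ≤ 1 := pow_le_one₀ (by norm_num) (by norm_num)
    have h2 : (2:ℝ) ≤ m := by exact_mod_cast hm
    nlinarith
  have hpm : ∀ m : ℕ, (1:ℝ) / 2 ^ m ≤ 1 := by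
    intro m
    rw [div_le_one (by positivity)]
    exact one_le_pow₀ (by norm_num)
  refine ⟨m1, hm1, ?_, ?_⟩
  · intro m hm
    have hm2 : 2 ≤ m := le_trans hm1 hm
    have hmpos : (0:ℝ) < m := by
      have : 0 < m := by omega
      exact_mod_cast this
    obtain ⟨n1, n2, -⟩ := hnum m hm
    obtain ⟨p1, p2⟩ := hpow m hm2
    refine core_T1 cc cc_pos cc_antitone cc_summable (2 ^ (m - 1) - 1) (2 ^ m - 1) (by omega)
      (by omega) (m:ℝ) hmpos ((15 / 16 : ℝ) ^ (m - 1)) (cc_block m (by omega)).symm (hM1 m hm2)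
      (cc_mass m (by omega)) n1
      (Real.sqrt (16 * (15 / 32 : ℝ) ^ (m - 1) * (15 / 16 : ℝ) ^ (m - 1))) (Real.sqrt_nonneg _)
      ?_ n2 (ww m m) (ee m) ?_ (ee_pos' m (by omega))
    · rw [Real.sq_sqrt (by positivity)]
      exact cc_sq m (by omega)
    · change 1 / dd m < ww m m
      unfold ww
      have := hpm m
      linarith
  · intro m0 m hm0 hm0m
    have hm2 : 2 ≤ m := by omega
    have hmpos : (0:ℝ) < m := by
      have : 0 < m := by omega
      exact_mod_cast this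
    obtain ⟨n1, n2, n3⟩ := hnum m (by omega)
    obtain ⟨p1, p2⟩ := hpow m hm2
    have p3 : 2 ^ (m + 1) = 2 * 2 ^ m := by rw [pow_succ']
    have hd0 := dd_pos' m0 (by omega)
    have hdm := dd_pos' m (by omega)
    refine core_T2 cc cc_pos cc_antitone cc_summable (2 ^ (m - 1) - 1) (2 ^ m - 1)
      (2 ^ (m + 1) - 1) (by omega)
      (by omega) (by omega) (m:ℝ) hmpos ((15 / 16 : ℝ) ^ (m - 1)) (cc_block m (by omega)).symm
      (hM1 m hm2) (cc_mass m (by omega)) n1 ?_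
      (Real.sqrt (16 * (15 / 32 : ℝ) ^ (m - 1) * (15 / 16 : ℝ) ^ (m - 1))) (Real.sqrt_nonneg _)
      ?_ n2 (ww m0 m) (ee m) (ww m0 (m + 1)) (ee (m + 1)) ?_ (ee_pos' m (by omega)).le
      (n3 m0 (by omega) hm0m) ?_ (ee_pos' (m + 1) (by omega))
    · have e1 := cc_block (m + 1) (by omega)
      have e2 := cc_mass (m + 1) (by omega)
      rw [Nat.add_sub_cancel] at e1 e2
      rw [e1]
      exact e2
    · rw [Real.sq_sqrt (by positivity)]
      exact cc_sq m (by omega)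
    · unfold ww
      have h1 := hpm m
      have h2 : 0 < 1 / dd m0 := by positivity
      linarith
    · change ww m0 m + ee m / dd m < ww m0 (m + 1)
      have h1 : ee m / dd m = 1 / 2 ^ (m + 2) := by
        unfold ee
        field_simp
      rw [h1]
      unfold ww
      have h2 : (1:ℝ) / 2 ^ m = 4 * (1 / 2 ^ (m + 2)) := by
        rw [pow_add]
        field_simp
        norm_num
      have h3 : (1:ℝ) / 2 ^ (m + 1) = 2 * (1 / 2 ^ (m + 2)) := by
        rw [pow_add, pow_add]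
        field_simp
      have h4 : (0:ℝ) < 1 / 2 ^ (m + 2) := by positivity
      rw [h2, h3]
      linarith

end J857
end Pool.Agent.Helper976.Fac
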