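import Pool.Agent.Helper976.Fac.Defs2

set_option autoImplicit false
set_option maxHeartbeats 4000000
open scoped BigOperators Topology
open Filter

namespace Pool.Agent.Helper976.Fac
namespace J858

theorem le_of_sq_le_sq'' {a b : ℝ} (h : a ^ 2 ≤ b ^ 2) (hb : 0 ≤ b) : a ≤ b :=
  le_trans (le_abs_self a) (by simpa [abs_of_nonneg hb] using sq_le_sq.mp h)

theorem fine_limit_F (h : ℚ → ℂ) (hh : Summable fun q => ‖h q‖) (hpos : ∀ q, q ≤ 0 → h q = 0)
    (s : ℕ → ℝ) (hs : Tendsto s atTop atTop) :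
    Tendsto (fun n => ∑' q : ℚ, ‖h q‖ * Real.exp (-(s n * (q : ℝ)))) atTop (𝓝 0) := by
  have h0 : (0 : ℝ) = ∑' _q : ℚ, (0 : ℝ) := by simp
  rw [h0]
  refine tendsto_tsum_of_dominated_convergence (bound := fun q => ‖h q‖) hh ?_ ?_
  · intro q
    rcases le_or_gt q 0 with hq | hq
    · have : h q = 0 := hpos q hq
      simp [this]
    · have hq' : (0 : ℝ) < (q : ℝ) := by exact_mod_cast hq
      have h1 : Tendsto (fun n => s n * (q : ℝ)) atTop atTop := hs.atTop_mul_const hq'
      have h2 : Tendsto (fun n => Real.exp (-(s n * (q : ℝ)))) atTop (𝓝 0) :=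
        Real.tendsto_exp_neg_atTop_nhds_zero.comp h1
      have h3 := h2.const_mul ‖h q‖
      simpa using h3
  · filter_upwards [hs.eventually_ge_atTop 0] with n hn q
    rcases le_or_gt q 0 with hq | hq
    · have : h q = 0 := hpos q hq
      simp [this]
    · have hq' : (0 : ℝ) < (q : ℝ) := by exact_mod_cast hq
      rw [Real.norm_eq_abs, abs_of_nonneg (by positivity)]
      have : Real.exp (-(s n * (q : ℝ))) ≤ 1 := by
        apply Real.exp_le_one_iff.mpr
        have := mul_nonneg hn hq'.le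
        linarith
      calc ‖h q‖ * Real.exp (-(s n * (q : ℝ))) ≤ ‖h q‖ * 1 :=
            mul_le_mul_of_nonneg_left this (norm_nonneg _)
        _ = ‖h q‖ := mul_one _

/-- TARGET -/
theorem fine_limit (h : ℚ → ℂ) (hh : Summable fun q => ‖h q‖) (hpos : ∀ q, q ≤ 0 → h q = 0)
    (s : ℕ → ℝ) (hs : Tendsto s atTop atTop) (W : ℝ) (hW : 0 ≤ W) :
    ∀ᶠ n in atTop, ∀ ε W' : ℝ, 0 ≤ ε → ε ≤ 1 / 2 → 0 ≤ W' → W' ≤ W → ¬ Fine (s n) ε W' h := by
  have hF := fine_limit_F h hh hpos s hs
  have hFW : Tendsto (fun n => W * ∑' q : ℚ, ‖h q‖ * Real.exp (-(s n * (q : ℝ)))) atTop (𝓝 0) := by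
    simpa using hF.const_mul W
  have hev := hFW.eventually (gt_mem_nhds (show (0 : ℝ) < 1 / 2 by norm_num))
  filter_upwards [hev, hs.eventually_ge_atTop 0] with n hn hsn ε W' hε hε2 hW' hWW' hfine
  obtain ⟨u, hu, hu2, hres⟩ := hfine
  -- damped function
  set hd : ℚ → ℂ := fun r => h r * ((Real.exp (-(s n * (r : ℝ))) : ℝ) : ℂ) with hhd
  have hdnorm : ∀ r, ‖hd r‖ = ‖h r‖ * Real.exp (-(s n * (r : ℝ))) := by
    intro r
    rw [hhd]
    simp only [norm_mul, Complex.norm_real, Real.norm_eq_abs, Real.abs_exp]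
  have hdle : ∀ r, ‖hd r‖ ≤ ‖h r‖ := by
    intro r
    rw [hdnorm]
    rcases le_or_gt r 0 with hq | hq
    · have : h r = 0 := hpos r hq
      simp [this]
    · have hq' : (0 : ℝ) < (r : ℝ) := by exact_mod_cast hq
      have : Real.exp (-(s n * (r : ℝ))) ≤ 1 := by
        apply Real.exp_le_one_iff.mpr
        have := mul_nonneg hsn hq'.le
        linarith
      calc ‖h r‖ * Real.exp (-(s n * (r : ℝ))) ≤ ‖h r‖ * 1 :=
            mul_le_mul_of_nonneg_left this (norm_nonneg _)
        _ = ‖h r‖ := mul_one _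
  have hdsum : Summable fun r => ‖hd r‖ :=
    Summable.of_nonneg_of_le (fun _ => norm_nonneg _) hdle hh
  set S : Finset ℚ := hu.toFinset with hS
  have hconv : ∀ q, ∑' r, hd r * u (q - r) = ∑ p ∈ S, hd (q - p) * u p := by
    intro q
    have e1 : ∑' r, hd r * u (q - r) = ∑' p, hd (q - p) * u p := by
      rw [← (Equiv.subLeft q).tsum_eq]
      apply tsum_congr
      intro p
      simp [Equiv.subLeft_apply]
    rw [e1]
    apply tsum_eq_sum
    intro p hp
    have : u p = 0 := by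
      by_contra hne
      exact hp (by rw [hS]; simpa using hne)
    simp [this]
  have hupW : ∀ p, ‖u p‖ ≤ W' := by
    intro p
    have hsu : Summable fun q => ‖u q‖ ^ 2 := by
      apply summable_of_ne_finset_zero (s := S)
      intro b hb
      have : u b = 0 := by
        by_contra hne
        exact hb (by rw [hS]; simpa using hne)
      simp [this]
    have h1 : ‖u p‖ ^ 2 ≤ ∑' q, ‖u q‖ ^ 2 := hsu.le_tsum p (fun _ _ => by positivity)
    exact le_of_sq_le_sq'' (h1.trans hu2) hW'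
  -- residual summable
  have hfsum : Summable fun q : ℚ => ‖(if q = 0 then (1 : ℂ) else 0) - ∑' r, hd r * u (q - r)‖ := by
    have hb : Summable fun q : ℚ => ‖(if q = 0 then (1 : ℂ) else 0)‖ + ∑ p ∈ S, ‖hd (q - p)‖ * ‖u p‖ := by
      apply Summable.add
      · apply summable_of_ne_finset_zero (s := {0})
        intro b hb
        have : b ≠ 0 := by simpa using hb
        simp [this]
      · apply summable_sum
        intro p _
        apply Summable.mul_right
        exact (Equiv.subRight p).summable_iff.mpr hdsum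
    refine Summable.of_nonneg_of_le (fun _ => norm_nonneg _) ?_ hb
    intro q
    rw [hconv]
    refine (norm_sub_le _ _).trans ?_
    gcongr
    refine (norm_sum_le _ _).trans ?_
    apply Finset.sum_le_sum
    intro p _
    rw [norm_mul]
  have hf2 : Summable fun q : ℚ => ‖(if q = 0 then (1 : ℂ) else 0) - ∑' r, hd r * u (q - r)‖ ^ 2 := by
    set C := ∑' q : ℚ, ‖(if q = 0 then (1 : ℂ) else 0) - ∑' r, hd r * u (q - r)‖ with hC
    refine Summable.of_nonneg_of_le (fun _ => by positivity) ?_ (hfsum.mul_left C)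
    intro q
    have : ‖(if q = 0 then (1 : ℂ) else 0) - ∑' r, hd r * u (q - r)‖ ≤ C :=
      hfsum.le_tsum q (fun _ _ => norm_nonneg _)
    rw [pow_two]
    exact mul_le_mul_of_nonneg_right this (norm_nonneg _)
  have h00 := hf2.le_tsum 0 (fun _ _ => by positivity)
  have h01 : ‖(1 : ℂ) - ∑' r, hd r * u (0 - r)‖ ≤ ε := by
    have h3 : ‖(if (0 : ℚ) = 0 then (1 : ℂ) else 0) - ∑' r, hd r * u (0 - r)‖ ^ 2 ≤ ε ^ 2 :=
      h00.trans hres
    rw [if_pos rfl] at h3
    exact le_of_sq_le_sq'' h3 hε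
  rw [hconv] at h01
  have hc : ‖∑ p ∈ S, hd (0 - p) * u p‖ < 1 / 2 := by
    calc ‖∑ p ∈ S, hd (0 - p) * u p‖ ≤ ∑ p ∈ S, ‖hd (0 - p) * u p‖ := norm_sum_le _ _
      _ ≤ ∑ p ∈ S, ‖hd (0 - p)‖ * W' := by
          apply Finset.sum_le_sum
          intro p _
          rw [norm_mul]
          exact mul_le_mul_of_nonneg_left (hupW p) (norm_nonneg _)
      _ = (∑ p ∈ S, ‖hd (0 - p)‖) * W' := by rw [Finset.sum_mul]
      _ ≤ (∑' p, ‖hd (0 - p)‖) * W' := by
          apply mul_le_mul_of_nonneg_right _ hW'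
          apply Summable.sum_le_tsum S (fun _ _ => norm_nonneg _)
          exact (Equiv.subLeft 0).summable_iff.mpr hdsum
      _ = (∑' p, ‖hd p‖) * W' := by
          congr 1
          exact (Equiv.subLeft (0 : ℚ)).tsum_eq (fun p => ‖hd p‖)
      _ = W' * ∑' q : ℚ, ‖h q‖ * Real.exp (-(s n * (q : ℝ))) := by
          rw [mul_comm]
          congr 1
          exact tsum_congr hdnorm
      _ ≤ W * ∑' q : ℚ, ‖h q‖ * Real.exp (-(s n * (q : ℝ))) := by
          apply mul_le_mul_of_nonneg_right hWW'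
          exact tsum_nonneg fun _ => by positivity
      _ < 1 / 2 := hn
  have h1 : (1 : ℝ) ≤ ‖(1 : ℂ) - ∑ p ∈ S, hd (0 - p) * u p‖ + ‖∑ p ∈ S, hd (0 - p) * u p‖ := by
    have := norm_add_le ((1 : ℂ) - ∑ p ∈ S, hd (0 - p) * u p) (∑ p ∈ S, hd (0 - p) * u p)
    simpa using this
  linarith

end J858
end Pool.Agent.Helper976.Fac
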