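import Pool.Agent.Helper976.Fac.Lemmas7

set_option autoImplicit false
open scoped BigOperators Topology
open Filter

namespace Pool.Agent.Helper976.Fac
namespace J859

theorem dd_pos (m : ℕ) (hm : 1 ≤ m) : 0 < dd m := by
  unfold dd
  have : (0 : ℝ) < m := by exact_mod_cast hm
  positivity

theorem dd_le_one (m : ℕ) (hm : 1 ≤ m) : dd m ≤ 1 := by
  unfold dd
  have hm1 : (1 : ℝ) ≤ m := by exact_mod_cast hm
  have h1 : (15 / 16 : ℝ) ^ (m - 1) ≤ 1 := pow_le_one₀ (by norm_num) (by norm_num)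
  have h0 : (0 : ℝ) ≤ (15 / 16 : ℝ) ^ (m - 1) := by positivity
  have h2 : (15 / 16 : ℝ) ^ (m - 1) / (4 * (m : ℝ)) ≤ 1 := by
    rw [div_le_one (by linarith)]; linarith
  have h3 : 0 ≤ (15 / 16 : ℝ) ^ (m - 1) / (4 * (m : ℝ)) := by positivity
  rw [div_le_one (by linarith)]
  have h4 : ((15 / 16 : ℝ) ^ (m - 1) / (4 * (m : ℝ))) ^ 2 ≤ 1 := pow_le_one₀ h3 h2
  linarith

theorem ee_nonneg (m : ℕ) (hm : 1 ≤ m) : 0 ≤ ee m := by
  unfold ee
  exact div_nonneg (dd_pos m hm).le (by positivity)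

theorem ee_le (m : ℕ) (hm : 1 ≤ m) : ee m ≤ 1 / 2 := by
  unfold ee
  have h1 := dd_le_one m hm
  have h2 : (2 : ℝ) ≤ 2 ^ (m + 2) := by
    calc (2 : ℝ) = 2 ^ 1 := by norm_num
      _ ≤ 2 ^ (m + 2) := pow_le_pow_right₀ (by norm_num) (by omega)
  rw [div_le_div_iff₀ (by positivity) (by norm_num)]
  linarith

theorem ww_bounds (m0 m : ℕ) (hm : 1 ≤ m0) : 0 ≤ ww m0 m ∧ ww m0 m ≤ 1 / dd m0 + 3 := by
  have h1 : 0 < 1 / dd m0 := div_pos one_pos (dd_pos m0 hm)
  have h2 : (0 : ℝ) < 1 / 2 ^ m := by positivity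
  have h3 : (1 : ℝ) / 2 ^ m ≤ 1 := by
    rw [div_le_one (by positivity)]
    exact one_le_pow₀ (by norm_num)
  unfold ww
  constructor <;> linarith

theorem cut_tendsto (t : ℕ → ℚ) (tpos : ∀ j, 0 < t j) (thalf : ∀ j, (t j : ℝ) ≤ (1 / 2) ^ j)
    (tone : ∀ j, t j ≤ 1) : Tendsto (fun m : ℕ => cut t (2 ^ m - 1)) atTop atTop := by
  have h1 : Tendsto (fun m : ℕ => Real.sqrt ((2 : ℝ) ^ m)) atTop atTop :=
    Real.tendsto_sqrt_atTop.comp (tendsto_pow_atTop_atTop_of_one_lt (by norm_num))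
  refine tendsto_atTop_mono ?_ h1
  intro m
  unfold cut
  set a := 2 ^ m - 1 with ha
  have ham : m ≤ a := by
    have : m < 2 ^ m := Nat.lt_two_pow_self
    omega
  have hx0 : 0 < (t (a - 1) : ℝ) * (t a : ℝ) := by
    have h1 : (0 : ℝ) < t (a - 1) := by exact_mod_cast tpos _
    have h2 : (0 : ℝ) < t a := by exact_mod_cast tpos _
    positivity
  have hx : (t (a - 1) : ℝ) * (t a : ℝ) ≤ ((2 : ℝ) ^ m)⁻¹ := by
    have h1 : (t (a - 1) : ℝ) ≤ 1 := by exact_mod_cast tone _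
    have h2 : (0 : ℝ) ≤ t a := by exact_mod_cast (tpos _).le
    calc (t (a - 1) : ℝ) * (t a : ℝ) ≤ 1 * (t a : ℝ) := mul_le_mul_of_nonneg_right h1 h2
      _ = t a := one_mul _
      _ ≤ (1 / 2) ^ a := thalf a
      _ ≤ (1 / 2) ^ m := pow_le_pow_of_le_one (by norm_num) (by norm_num) ham
      _ = ((2 : ℝ) ^ m)⁻¹ := by rw [one_div, inv_pow]
  have h3 : Real.sqrt ((t (a - 1) : ℝ) * (t a : ℝ)) ≤ (Real.sqrt ((2 : ℝ) ^ m))⁻¹ := by
    rw [← Real.sqrt_inv]
    exact Real.sqrt_le_sqrt hx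
  have h4 : 0 < Real.sqrt ((t (a - 1) : ℝ) * (t a : ℝ)) := Real.sqrt_pos.2 hx0
  have h5 : 0 < Real.sqrt ((2 : ℝ) ^ m) := Real.sqrt_pos.2 (by positivity)
  rw [one_div]
  have := inv_anti₀ h4 h3
  rwa [inv_inv] at this

theorem chain_false (t : ℕ → ℚ) (tpos : ∀ j, 0 < t j) (thalf : ∀ j, (t j : ℝ) ≤ (1 / 2) ^ j)
    (tone : ∀ j, t j ≤ 1) (h : ℚ → ℂ) (hpos : ∀ q, q ≤ 0 → h q = 0)
    (hsum : Summable fun q => ‖h q‖) (m0 : ℕ) (hm0 : 1 ≤ m0)
    (hstart : Fine (cut t (2 ^ m0 - 1)) (ee m0) (ww m0 m0) h)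
    (hstep : ∀ m, m0 ≤ m → Fine (cut t (2 ^ m - 1)) (ee m) (ww m0 m) h →
      Fine (cut t (2 ^ (m + 1) - 1)) (ee (m + 1)) (ww m0 (m + 1)) h) : False := by
  have hall : ∀ m, m0 ≤ m → Fine (cut t (2 ^ m - 1)) (ee m) (ww m0 m) h := by
    intro m hm
    induction m, hm using Nat.le_induction with
    | base => exact hstart
    | succ m hm ih => exact hstep m hm ih
  have hW : 0 ≤ 1 / dd m0 + 3 := by
    have := dd_pos m0 hm0
    positivity
  have hlim := fine_limit h hsum hpos (fun m => cut t (2 ^ m - 1))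
    (cut_tendsto t tpos thalf tone) (1 / dd m0 + 3) hW
  obtain ⟨m, hm1, hm2⟩ := (hlim.and (eventually_ge_atTop m0)).exists
  exact hm1 (ee m) (ww m0 m) (ee_nonneg m (hm0.trans hm2)) (ee_le m (hm0.trans hm2))
    (ww_bounds m0 m hm0).1 (ww_bounds m0 m hm0).2 (hall m hm2)

/-- TARGET. -/
theorem no_factor : ∃ f : ℚ → ℂ, (∀ q, q ≤ 0 → f q = 0) ∧ (∀ q, 1 < q → f q = 0) ∧
    (Summable fun q => ‖f q‖) ∧
    ∀ g h : ℚ → ℂ, (∀ q, q ≤ 0 → g q = 0) → (∀ q, q ≤ 0 → h q = 0) →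
      (Summable fun q => ‖g q‖) → (Summable fun q => ‖h q‖) →
      ¬ ∀ q, q ≤ 1 → f q = ∑' r, g r * h (q - r) := by
  obtain ⟨m1, hm1, S1, S2⟩ := stages
  have S1' : ∀ m : ℕ, ∃ R : ℕ, m1 ≤ m → ∀ (t : ℕ → ℚ) (g h : ℚ → ℂ),
      FData cc (2 ^ (m - 1) - 1) R m t g h →
      Fine (cut t (2 ^ m - 1)) (ee m) (ww m m) h ∨ Fine (cut t (2 ^ m - 1)) (ee m) (ww m m) g := by
    intro m
    by_cases hm : m1 ≤ m
    · obtain ⟨R, hR⟩ := S1 m hm
      exact ⟨R, fun _ => hR⟩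
    · exact ⟨0, fun h => absurd h hm⟩
  have S2' : ∀ m0 m : ℕ, ∃ R : ℕ, m1 ≤ m0 → m0 ≤ m → ∀ (t : ℕ → ℚ) (g h : ℚ → ℂ),
      FData cc (2 ^ (m - 1) - 1) R m t g h →
      Fine (cut t (2 ^ m - 1)) (ee m) (ww m0 m) h →
      Fine (cut t (2 ^ (m + 1) - 1)) (ee (m + 1)) (ww m0 (m + 1)) h := by
    intro m0 m
    by_cases hm : m1 ≤ m0 ∧ m0 ≤ m
    · obtain ⟨R, hR⟩ := S2 m0 m hm.1 hm.2
      exact ⟨R, fun _ _ => hR⟩
    · exact ⟨0, fun h1 h2 => absurd ⟨h1, h2⟩ hm⟩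
  choose R1 hR1 using S1'
  choose R2 hR2 using S2'
  set RR : ℕ → ℕ := fun m => R1 m + ∑ m0 ∈ Finset.range (m + 1), R2 m0 m with hRR
  set N : ℕ → ℕ := fun j => 2 + ∑ m ∈ Finset.range (j + 4), RR m with hN
  have hN2 : ∀ j, 2 ≤ N j := fun j => by simp [hN]
  have hNR : ∀ m j, m < j + 4 → RR m ≤ N j := by
    intro m j hmj
    have := Finset.single_le_sum (f := RR) (s := Finset.range (j + 4)) (fun i _ => Nat.zero_le _)
      (Finset.mem_range.2 hmj)
    simp only [hN]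
    omega
  have hR1le : ∀ m, R1 m ≤ RR m := fun m => by simp [hRR]
  have hR2le : ∀ m0 m, m0 ≤ m → R2 m0 m ≤ RR m := by
    intro m0 m hm
    have := Finset.single_le_sum (f := fun m0 => R2 m0 m) (s := Finset.range (m + 1))
      (fun i _ => Nat.zero_le _) (Finset.mem_range.2 (Nat.lt_succ_of_le hm))
    simp only [hRR]
    omega
  set t : ℕ → ℚ := fun j => ∏ i ∈ Finset.range j, (1 / (N i : ℚ)) with ht
  have hNpos : ∀ j, (0 : ℚ) < N j := fun j => by
    have := hN2 j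
    exact_mod_cast (by omega : 0 < N j)
  have ht0 : t 0 = 1 := by simp [ht]
  have htS : ∀ j, t (j + 1) = t j * (1 / (N j : ℚ)) := fun j => by
    simp only [ht]
    rw [Finset.prod_range_succ]
  have tpos : ∀ j, 0 < t j := fun j => Finset.prod_pos fun i _ => div_pos one_pos (hNpos i)
  have hhalf : ∀ j, (1 / (N j : ℚ)) ≤ 1 / 2 := fun j => by
    have : (2 : ℚ) ≤ N j := by exact_mod_cast hN2 j
    exact one_div_le_one_div_of_le (by norm_num) this
  have tsa : StrictAnti t := by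
    refine strictAnti_nat_of_succ_lt fun j => ?_
    rw [htS]
    have h1 := hhalf j
    have h2 := tpos j
    nlinarith
  have tanti : Antitone t := tsa.antitone
  have tone : ∀ j, t j ≤ 1 := fun j => ht0 ▸ tanti (Nat.zero_le j)
  have thalfQ : ∀ j, t j ≤ (1 / 2) ^ j := by
    intro j
    induction j with
    | zero => simp [ht0]
    | succ j ih =>
      rw [htS, pow_succ]
      exact mul_le_mul ih (hhalf j) (div_pos one_pos (hNpos j)).le (by positivity)
  have thalf : ∀ j, (t j : ℝ) ≤ (1 / 2) ^ j := by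
    intro j
    have := thalfQ j
    have h2 : ((t j : ℚ) : ℝ) ≤ (((1 / 2 : ℚ) ^ j : ℚ) : ℝ) := by exact_mod_cast this
    simpa using h2
  have hconvf : ∀ m j : ℕ, 2 ^ (m - 1) - 1 ≤ j + 1 → ∀ R : ℕ, R ≤ RR m →
      ((R : ℕ) : ℝ) * (t (j + 1) : ℝ) ≤ (t j : ℝ) := by
    intro m j hj R hR
    have hm : m < j + 4 := by
      have : m - 1 < 2 ^ (m - 1) := Nat.lt_two_pow_self
      omega
    have hRN : R ≤ N j := hR.trans (hNR m j hm)
    have hq : ((R : ℕ) : ℚ) * t (j + 1) ≤ t j := by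
      rw [htS]
      have h1 : (R : ℚ) ≤ N j := by exact_mod_cast hRN
      have h2 := hNpos j
      have h3 := tpos j
      calc (R : ℚ) * (t j * (1 / (N j : ℚ))) = t j * ((R : ℚ) / N j) := by ring
        _ ≤ t j * 1 := mul_le_mul_of_nonneg_left ((div_le_one h2).2 h1) h3.le
        _ = t j := mul_one _
    exact_mod_cast hq
  set f : ℚ → ℂ := fun q => ∑' j, if q = t j then (cc j : ℂ) else 0 with hf
  have hft : ∀ j, f (t j) = cc j := by
    intro j
    simp only [hf]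
    rw [tsum_eq_single j]
    · simp
    · intro i hi
      rw [if_neg]
      intro h
      exact hi (tsa.injective h.symm)
  have hf0 : ∀ q, (∀ j, q ≠ t j) → f q = 0 := by
    intro q hq
    simp only [hf]
    have : (fun j => if q = t j then (cc j : ℂ) else 0) = fun _ => 0 := by
      funext j
      rw [if_neg (hq j)]
    rw [this, tsum_zero]
  refine ⟨f, ?_, ?_, ?_, ?_⟩
  · intro q hq
    exact hf0 q fun j h => by
      have := tpos j
      rw [← h] at this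
      exact absurd hq (not_le.2 this)
  · intro q hq
    exact hf0 q fun j h => by
      have := tone j
      rw [← h] at this
      exact absurd hq (not_lt.2 this)
  · rw [← tsa.injective.summable_iff (f := fun q => ‖f q‖)]
    · have : (fun q => ‖f q‖) ∘ t = cc := by
        funext j
        simp only [Function.comp_apply]
        rw [hft]
        simp [abs_of_pos (cc_pos j)]
      rw [this]
      exact cc_summable
    · intro q hq
      rw [hf0 q, norm_zero]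
      intro j h
      exact hq ⟨j, h.symm⟩
  · intro g h gpos hpos gsum hsum hconv
    have hFD : ∀ m : ℕ, (∑' q, ‖g q‖ ≤ m) → (∑' q, ‖h q‖ ≤ m) → ∀ R : ℕ, R ≤ RR m →
        FData cc (2 ^ (m - 1) - 1) R m t g h := by
      intro m hg hh R hR
      exact ⟨tpos, tanti, tone, fun j hj => hconvf m j hj R hR, gpos, hpos, gsum, hsum, hg, hh,
        fun q hq => (hconv q hq).symm⟩
    have hswap : ∀ q, ∑' r, h r * g (q - r) = ∑' r, g r * h (q - r) := by
      intro q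
      rw [← (Equiv.subLeft q).tsum_eq (fun r => h r * g (q - r))]
      refine tsum_congr fun s => ?_
      simp only [Equiv.subLeft_apply, sub_sub_cancel]
      ring
    have hFD' : ∀ m : ℕ, (∑' q, ‖g q‖ ≤ m) → (∑' q, ‖h q‖ ≤ m) → ∀ R : ℕ, R ≤ RR m →
        FData cc (2 ^ (m - 1) - 1) R m t h g := by
      intro m hg hh R hR
      exact ⟨tpos, tanti, tone, fun j hj => hconvf m j hj R hR, hpos, gpos, hsum, gsum, hh, hg,
        fun q hq => (hswap q).trans (hconv q hq).symm⟩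
    set m0 : ℕ := max m1 (max ⌈∑' q, ‖g q‖⌉₊ ⌈∑' q, ‖h q‖⌉₊) with hm0
    have hm0m1 : m1 ≤ m0 := le_max_left _ _
    have hgm : ∀ m, m0 ≤ m → ∑' q, ‖g q‖ ≤ m := by
      intro m hm
      refine (Nat.le_ceil _).trans ?_
      exact_mod_cast ((le_max_left _ _).trans (le_max_right _ _)).trans hm
    have hhm : ∀ m, m0 ≤ m → ∑' q, ‖h q‖ ≤ m := by
      intro m hm
      refine (Nat.le_ceil _).trans ?_
      exact_mod_cast ((le_max_right _ _).trans (le_max_right _ _)).trans hm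
    rcases hR1 m0 hm0m1 t g h (hFD m0 (hgm m0 le_rfl) (hhm m0 le_rfl) _ (hR1le m0)) with hF | hF
    · exact chain_false t tpos thalf tone h hpos hsum m0 (by omega) hF fun m hm hfm =>
        hR2 m0 m hm0m1 hm t g h (hFD m (hgm m hm) (hhm m hm) _ (hR2le m0 m hm)) hfm
    · exact chain_false t tpos thalf tone g gpos gsum m0 (by omega) hF fun m hm hfm =>
        hR2 m0 m hm0m1 hm t h g (hFD' m (hgm m hm) (hhm m hm) _ (hR2le m0 m hm)) hfm

end J859
end Pool.Agent.Helper976.Fac
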