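import Pool.Agent.Helper976.Fac.J547
import Pool.Agent.Helper976.Fac.J548
import Pool.Agent.Helper976.Fac.J549
import Pool.Agent.Helper976.Fac.J550
import Pool.Agent.Helper976.Fac.J551
import Pool.Agent.Helper976.Fac.J552
import Pool.Agent.Helper976.Fac.J553
import Pool.Agent.Helper976.Fac.J554
import Pool.Agent.Helper976.Fac.J555

set_option autoImplicit false

namespace Pool.Agent.Helper976.Fac

alias lemmaB := J547.lemmaB
alias connectivity := J548.connectivity
alias unimod := J549.unimod
alias prod_restr := J550.prod_restr
alias lemmaL := J551.lemmaL
alias l2_lower := J552.l2_lower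
alias l2_inverse := J553.l2_inverse
alias l2_mono := J553.l2_mono
alias star_tendsto := J554.star_tendsto
alias star_l1 := J554.star_l1
alias star_l2 := J554.star_l2
alias star_lift := J554.star_lift
alias star_conv := J555.star_conv
alias star_l2_limit := J555.star_l2_limit

end Pool.Agent.Helper976.Fac
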