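import Pool.Agent.Helper976.Fac.Defs2
import Pool.Agent.Helper976.Fac.Lemmas2
import Pool.Agent.Helper976.Fac.J802

set_option autoImplicit false

namespace Pool.Agent.Helper976.Fac

alias tauV_pos := J802.tauV_pos
alias tauV_ratio := J802.tauV_ratio
alias om_tendsto := J802.om_tendsto
alias om_nonneg := J802.om_nonneg
alias om_le_one := J802.om_le_one
alias om_mul := J802.om_mul
alias om_tau := J802.om_tau
alias om_big := J802.om_big
alias om_om := J802.om_om
alias star_pos := J802.star_pos
alias star_damped := J802.star_damped

end Pool.Agent.Helper976.Fac
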