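import Pool.Agent.Helper976.Fac.Lemmas3
import Pool.Agent.Helper976.Fac.J803

set_option autoImplicit false

namespace Pool.Agent.Helper976.Fac

alias conv_om := J803.conv_om

end Pool.Agent.Helper976.Fac
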