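import Pool.Agent.Helper976.Fac.Lemmas4
import Pool.Agent.Helper976.Fac.J804

set_option autoImplicit false

namespace Pool.Agent.Helper976.Fac

alias seq_low := J804.seq_low
alias om_hL := J804.om_hL

end Pool.Agent.Helper976.Fac
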