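import Pool.Agent.Helper976.Fac.Lemmas6
import Pool.Agent.Helper976.Fac.J857

set_option autoImplicit false

namespace Pool.Agent.Helper976.Fac

alias stages := J857.stages

end Pool.Agent.Helper976.Fac
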